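import Pool.Agent.H94_hk.Stmt

/-!
# Infinitesimally rigid configurations of lines

A first order deformation of a configuration `𝒞` replaces the form `ℓᵢ` by `ℓᵢ + ε gᵢ` with
`ε² = 0`.  It preserves the incidences if for every point `p` on at least three lines there is a
vector `w` such that the deformed point `p + ε w` lies on the deformed lines through `p`.  It is
trivial if it comes from an infinitesimal linear change of coordinates and a rescaling of the
forms.  The configuration is infinitesimally rigid if every first order deformation that
preserves the incidences is trivial: the Zariski tangent space at `𝒞` of the space of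
configurations with the same incidences, modulo projective transformations, is zero.
-/

namespace Pool.Agent.H94_hk.Rig

/-- Infinitesimal rigidity of a configuration: if the first order deformation `ℓᵢ + ε gᵢ` of the
forms keeps, for every point `p` with at least three lines of the configuration through it, these
lines concurrent (in a point `p + ε w`), then it is given by an infinitesimal linear change of
coordinates `A` and a rescaling `c` of the forms. -/
def Config.InfinitesimallyRigid {k : ℕ} (𝒞 : Config k) : Prop :=
  ∀ g : Fin k → Fin 3 → ℂ,
    (∀ p : Fin 3 → ℂ, p ≠ 0 → 3 ≤ (𝒞.through p).ncard →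
      ∃ w : Fin 3 → ℂ, ∀ i ∈ 𝒞.through p, g i ⬝ᵥ p + 𝒞.form i ⬝ᵥ w = 0) →
    ∃ (A : Matrix (Fin 3) (Fin 3) ℂ) (c : Fin k → ℂ),
      ∀ i, g i = A.mulVec (𝒞.form i) + c i • 𝒞.form i

end Pool.Agent.H94_hk.Rig
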