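import Pool.Agent.H94_gen.Fin1
import Pool.Agent.H94_gen.StmtR

/-!
# The general theorem
-/

namespace Pool.Agent.H94_gen

theorem main_rigid {k : ℕ} (hk : 6 ≤ k) (𝒞 : H94_hk.Rig.Config k) (h : 𝒞.InfinitesimallyRigid)
    (n : ℕ) (hn : k < n) : H94_hk.Rig.InfRigid 𝒞 n :=
  main (fun g hg => h g fun p hp h3 => hg p hp h3) hk hn

end Pool.Agent.H94_gen
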