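import Pool.Agent.H94_gen.Build
import Pool.Agent.H94_hk.Bridge3
import Pool.Agent.H94_hk.StmtOf

/-!
# From rigid configurations to vanishing
-/

namespace Pool.Agent.H94_gen

open MvPolynomial

noncomputable section

set_option linter.unusedSectionVars false

variable {k r : ℕ}

/-- The data in the form used for the bridge. -/
def toHk (T : TConf ℂ k r) : H94_hk.TConf k r where
  f := T.f
  tri := T.tri
  pt := T.pt
  kap := T.kap
  pa := T.pa
  pb := T.pb
  pc := T.pc
  du := T.du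
  dv := T.dv
  mem_tri := T.mem_tri
  kap_pt := T.kap_pt
  decomp := T.decomp
  fa := T.fa
  fb := T.fb
  ua := T.ua
  ub := T.ub
  va := T.va
  vb := T.vb
  fc := T.fc
  fjb := T.fjb
  du_pt := T.du_pt
  cnt := T.cnt

theorem toHk_meet (T : TConf ℂ k r) (D D' : Crv k r) : (toHk T).meet D D' ↔ T.meet D D' := by
  rcases D with i | q <;> rcases D' with j | q' <;> exact Iff.rfl

theorem toHk_val (T : TConf ℂ k r) (D : Crv k r) (i : Fin k) : (toHk T).val D i = T.val D i := by
  rcases D with l | q <;> rfl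

theorem toHk_J (T : TConf ℂ k r) (D : Crv k r) (m : ℕ) (P : MvPolynomial (Fin 3) ℂ) :
    P ∈ (toHk T).J D m ↔ P ∈ T.J D m := by
  rcases D with l | q
  · rw [TConf.mem_J_inl, H94_hk.TConf.mem_J_inl]; exact Iff.rfl
  · rw [TConf.mem_J_inr, H94_hk.TConf.mem_J_inr]; exact Iff.rfl

theorem toHk_gb (T : TConf ℂ k r) (n N : ℕ) (a : Fin k → ℕ) (i j : Fin k) (D : Crv k r) :
    (toHk T).gb n N a i j D = T.gb n N a i j D := by
  rw [H94_hk.TConf.gb, TConf.gb, H94_hk.TConf.sz, TConf.sz, H94_hk.TConf.ordN, TConf.ordN]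
  simp only [toHk_val]

theorem toHk_full {T : TConf ℂ k r} (h : T.Full) : (toHk T).Full := by
  refine H94_hk.TConf.full_of_pts ⟨?_, h.ok.ne⟩ h.three h.out h.pts
  intro i D D' h1 h2 h3
  rw [toHk_meet] at h1 h2
  refine h.ok.good i D D' h1 h2 ?_
  rcases D with j | q <;> rcases D' with j' | q' <;> exact h3

theorem toHk_solvable {T : TConf ℂ k r} {n : ℕ} (h : T.Solvable n) : (toHk T).Solvable n := by
  intro a ha d hd
  obtain ⟨N0, hN0⟩ := h a ha d hd
  refine ⟨N0, fun N hN G hG => ?_⟩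
  obtain ⟨P, hP⟩ := hN0 N hN G
    { sym := fun D D' h1 => hG.sym D D' ((toHk_meet T D D').mpr h1)
      hom := hG.hom
      rel := hG.rel
      ord := fun D D' D'' i j h1 h2 => by
        rw [← toHk_J, ← toHk_gb]
        exact hG.ord D D' D'' i j ((toHk_meet T D D').mpr h1) ((toHk_meet T D D'').mpr h2) }
  exact ⟨P,
    { hom := hP.hom
      rel := hP.rel
      reg := fun D D' i j h1 => by
        rw [toHk_J, toHk_gb]
        exact hP.reg D D' i j ((toHk_meet T D D').mp h1) }⟩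

theorem ncard_thr (form : Fin k → Fin 3 → ℂ) (p : Fin 3 → ℂ) :
    {i | form i ⬝ᵥ p = 0}.ncard = (thr form p).card := by
  have h : {i | form i ⬝ᵥ p = 0} = (thr form p : Set (Fin k)) := by
    ext i
    rw [Finset.mem_coe, mem_thr]
    exact Iff.rfl
  rw [h, Set.ncard_coe_finset]

/-- Rigidity of a family of forms. -/
def RigForm (form : Fin k → Fin 3 → ℂ) : Prop :=
  ∀ g : Fin k → Fin 3 → ℂ,
    (∀ p : Fin 3 → ℂ, p ≠ 0 → 3 ≤ {i | form i ⬝ᵥ p = 0}.ncard →
      ∃ w : Fin 3 → ℂ, ∀ i ∈ {i | form i ⬝ᵥ p = 0}, g i ⬝ᵥ p + form i ⬝ᵥ w = 0) →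
    ∃ (A : Matrix (Fin 3) (Fin 3) ℂ) (c : Fin k → ℂ), ∀ i, g i = A.mulVec (form i) + c i • form i

theorem exists_mult {form : Fin k → Fin 3 → ℂ} (h : RigForm form) (hk : 5 ≤ k) :
    ∃ p : Fin 3 → ℂ, p ≠ 0 ∧ 3 ≤ (thr form p).card := by
  by_contra hcon
  push Not at hcon
  let Φ : (Matrix (Fin 3) (Fin 3) ℂ × (Fin k → ℂ)) →ₗ[ℂ] (Fin k → Fin 3 → ℂ) :=
    { toFun := fun Ac i => Ac.1.mulVec (form i) + Ac.2 i • form i
      map_add' := by
        intro x y
        funext i
        simp only [Prod.fst_add, Prod.snd_add, Matrix.add_mulVec, Pi.add_apply]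
        module
      map_smul' := by
        intro s x
        funext i
        simp only [Prod.smul_fst, Prod.smul_snd, Matrix.smul_mulVec, Pi.smul_apply,
          smul_eq_mul, RingHom.id_apply]
        module }
  have hsurj : Function.Surjective Φ := by
    intro g
    obtain ⟨A, c, hAc⟩ := h g (fun p hp h3 => by
      rw [ncard_thr] at h3
      have := hcon p hp
      omega)
    exact ⟨(A, c), funext fun i => (hAc i).symm⟩
  have h1 := LinearMap.finrank_le_finrank_of_surjective hsurj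
  rw [Module.finrank_prod, Module.finrank_matrix, Module.finrank_fintype_fun_eq_card,
    Module.finrank_pi_fintype] at h1
  simp only [Module.finrank_fintype_fun_eq_card, Fintype.card_fin, Finset.sum_const,
    Finset.card_univ, smul_eq_mul, Module.finrank_self] at h1
  omega

theorem main_solvable {form : Fin k → Fin 3 → ℂ}
    (hind : ∀ i j, i ≠ j → LinearIndependent ℂ ![form i, form j])
    (hnc : ∀ p : Fin 3 → ℂ, p ≠ 0 → ∃ i, form i ⬝ᵥ p ≠ 0) (h : RigForm form) (hk : 6 ≤ k)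
    {n : ℕ} (hn : k < n) : ∃ (r : ℕ) (T : H94_hk.TConf k r), T.f = form ∧ T.Full ∧
      T.Solvable n := by
  obtain ⟨r, T, hf, hok, h3, hout, hpt⟩ := exists_conf hind hnc (by omega : 2 ≤ k)
  have hF : T.Full := by
    refine ⟨hok, h3, hout, ?_⟩
    obtain ⟨p, hp, hp3⟩ := exists_mult h (by omega)
    obtain ⟨q, _⟩ := hpt p hp hp3
    exact ⟨q⟩
  have hIR : T.IR := by
    intro g hg
    obtain ⟨A, c, hAc⟩ := h g (fun p hp hp3 => by
      rw [ncard_thr] at hp3
      obtain ⟨q, s, hs, hps⟩ := hpt p hp hp3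
      obtain ⟨w, hw⟩ := hg q
      refine ⟨s • w, fun i hi => ?_⟩
      have hi' : form i ⬝ᵥ p = 0 := hi
      rw [hps, dotProduct_smul, smul_eq_mul] at hi'
      have h1 : i ∈ T.tri q := by
        rw [T.mem_tri, hf]
        exact (mul_eq_zero.mp hi').resolve_left hs
      have h2 := hw i h1
      rw [hf] at h2
      rw [hps, dotProduct_smul, dotProduct_smul, smul_eq_mul, smul_eq_mul]
      linear_combination s * h2)
    exact ⟨A, c, fun i => by rw [hf]; exact hAc i⟩
  exact ⟨r, toHk T, hf, toHk_full hF, toHk_solvable (T.solvable hF hIR hk hn)⟩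

/-- The main theorem. -/
theorem main {𝒞 : H94_hk.Rig.Config k} (h : RigForm 𝒞.form) (hk : 6 ≤ k) {n : ℕ} (hn : k < n) :
    H94_hk.Rig.InfRigid 𝒞 n := by
  obtain ⟨r, T, hf, hF, hs⟩ := main_solvable 𝒞.distinct 𝒞.nonconcurrent h hk hn
  exact H94_hk.infRigid_of (hF.bridge (by omega) hs _ hf.symm)

end

end Pool.Agent.H94_gen
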