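import Pool.Agent.H94_gen.Classes

/-!
# Removing auxiliary lines
-/

namespace Pool.Agent.H94_gen

open MvPolynomial

noncomputable section

set_option linter.unusedSectionVars false

variable {𝕜 : Type} [Field 𝕜]

namespace TConf

variable {k r : ℕ} [Infinite 𝕜] {T : TConf 𝕜 k r}

theorem vec_eq {i : Fin k} {p : Fin 3 → 𝕜} (h : T.f i ⬝ᵥ p = 0) : p =
    (T.du i ⬝ᵥ p) • T.pa i + (T.dv i ⬝ᵥ p) • T.pb i := by
  funext j
  have h1 := congrArg (fun v => v ⬝ᵥ p) (T.decomp i j)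
  simp only [add_dotProduct, smul_dotProduct, single_dotProduct, one_mul, smul_eq_mul] at h1
  rw [h] at h1
  rw [h1]
  simp only [Pi.add_apply, Pi.smul_apply, smul_eq_mul]
  ring

theorem pt_param {i j : Fin k} (hij : i ≠ j) {p : Fin 3 → 𝕜} (hp : p ≠ 0)
    (hi : T.f i ⬝ᵥ p = 0) (hj : T.f j ⬝ᵥ p = 0) : T.du i ⬝ᵥ p ≠ 0 ∧
      ∀ v : Fin 3 → 𝕜, v ⬝ᵥ p = 0 ↔ v ⬝ᵥ T.pa i + T.tj i j * (v ⬝ᵥ T.pb i) = 0 := by
  have h1 := vec_eq hi
  have h2 := T.fjb i j hij
  have h3 : T.dv i ⬝ᵥ p = T.tj i j * (T.du i ⬝ᵥ p) := by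
    rw [h1, dotProduct_add, dotProduct_smul, dotProduct_smul, smul_eq_mul, smul_eq_mul] at hj
    rw [tj]
    field_simp
    linear_combination hj
  have h4 : T.du i ⬝ᵥ p ≠ 0 := by
    intro h0
    rw [h0, mul_zero] at h3
    apply hp
    rw [h1, h0, h3]
    simp
  refine ⟨h4, fun v => ?_⟩
  have h5 : v ⬝ᵥ p = (T.du i ⬝ᵥ p) * (v ⬝ᵥ T.pa i + T.tj i j * (v ⬝ᵥ T.pb i)) := by
    conv_lhs => rw [h1]
    rw [dotProduct_add, dotProduct_smul, dotProduct_smul, smul_eq_mul, smul_eq_mul, h3]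
    ring
  rw [h5, mul_eq_zero]
  exact ⟨fun h => h.resolve_left h4, Or.inr⟩

theorem pt_ne_zero (q : Fin r) : T.pt q ≠ 0 := by
  intro h0
  have := T.kap_pt q
  rw [h0, dotProduct_zero] at this
  exact zero_ne_one this

theorem through_tri {i j : Fin k} {q : Fin r} (hij : i ≠ j) (hiq : i ∈ T.tri q)
    (hjq : j ∈ T.tri q) {p : Fin 3 → 𝕜} (hp : p ≠ 0)
    (hi : T.f i ⬝ᵥ p = 0) (hj : T.f j ⬝ᵥ p = 0) (v : Fin 3 → 𝕜) :
    v ⬝ᵥ p = 0 ↔ v ⬝ᵥ T.pt q = 0 := by
  rw [(pt_param hij hp hi hj).2, ← (pt_param hij (T.pt_ne_zero q) ((T.mem_tri i q).mp hiq)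
    ((T.mem_tri j q).mp hjq)).2]

theorem through_dbl (hok : T.Ok) {i j : Fin k} (hd : T.dbl i j) {p : Fin 3 → 𝕜} (hp : p ≠ 0)
    (hi : T.f i ⬝ᵥ p = 0) (hj : T.f j ⬝ᵥ p = 0) (l : Fin k) :
    T.f l ⬝ᵥ p = 0 ↔ (l = i ∨ l = j) := by
  constructor
  · intro hl
    by_cases hli : l = i
    · exact Or.inl hli
    right
    have h1 := ((pt_param hd.1 hp hi hj).2 (T.f l)).mp hl
    have h2 := T.fjb i l (Ne.symm hli)
    have h3 : T.tj i l = T.tj i j := by
      conv_lhs => rw [tj]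
      rw [div_eq_iff h2]
      linear_combination -h1
    rw [T.tj_eq_tn (Ne.symm hli)] at h3
    have h4 := hok.good i (T.nd i l) (Sum.inl j) (T.mem_nodes.mp (T.nd_mem (Ne.symm hli))) hd h3
    rcases T.dbl_or (Ne.symm hli) with h5 | ⟨q, h5, h6⟩
    · rw [T.nd_inl h5] at h4
      exact Sum.inl_injective h4
    · rw [T.nd_inr (Ne.symm hli) h5 h6] at h4
      exact absurd h4 Sum.inr_ne_inl
  · rintro (rfl | rfl)
    · exact hi
    · exact hj

end TConf

/-- An auxiliary line: a line that is not in the configuration. -/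
structure AuxLine {k r : ℕ} (T : TConf 𝕜 k r) where
  /-- the line, with two points and dual forms -/
  U : TConf 𝕜 1 0
  ne : ∀ j, T.f j ⬝ᵥ U.pb 0 ≠ 0
  /-- the multiple points on the line -/
  S : Finset (Fin r)
  memS : ∀ x, x ∈ S ↔ U.f 0 ⬝ᵥ T.pt x = 0

namespace AuxLine

variable {k r : ℕ} [Infinite 𝕜] {T : TConf 𝕜 k r} (M : AuxLine T)

/-- The form of the auxiliary line. -/
def ell : (RK 𝕜) := M.U.L 0

/-- Restriction to the auxiliary line. -/
def res : (RK 𝕜) →ₐ[𝕜] Polynomial 𝕜 := M.U.res 0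

/-- Parameter of the intersection point with line `l`. -/
def tl (l : Fin k) : 𝕜 := -(T.f l ⬝ᵥ M.U.pa 0) / (T.f l ⬝ᵥ M.U.pb 0)

/-- The point with parameter `t`. -/
def at' (t : 𝕜) : Fin 3 → 𝕜 := M.U.pa 0 + t • M.U.pb 0

theorem at_ne_zero (t : 𝕜) : M.at' t ≠ 0 := by
  intro h0
  have h1 := congrArg (fun v => M.U.du 0 ⬝ᵥ v) h0
  simp only [at', dotProduct_add, dotProduct_smul, M.U.ua, M.U.ub, dotProduct_zero, smul_eq_mul,
    mul_zero, add_zero] at h1
  exact one_ne_zero h1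

theorem f_at (t : 𝕜) : M.U.f 0 ⬝ᵥ M.at' t = 0 := by
  simp [at', dotProduct_add, dotProduct_smul, M.U.fa, M.U.fb]

theorem res_L (l : Fin k) : M.res (T.L l) =
    Polynomial.C (T.f l ⬝ᵥ M.U.pb 0) * (Polynomial.X - Polynomial.C (M.tl l)) := by
  have h1 := M.ne l
  rw [res, TConf.L, TConf.res_lin]
  have h2 : T.f l ⬝ᵥ M.U.pa 0 = -((T.f l ⬝ᵥ M.U.pb 0) * M.tl l) := by
    rw [tl]; field_simp
  rw [h2, map_neg, map_mul]
  ring

theorem L_at (l : Fin k) (t : 𝕜) : T.f l ⬝ᵥ M.at' t = 0 ↔ t = M.tl l := by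
  have h1 := M.ne l
  rw [at', dotProduct_add, dotProduct_smul, smul_eq_mul, tl, eq_div_iff h1]
  constructor <;> intro h <;> linear_combination h

theorem pt_eq {x : Fin r} (hx : x ∈ M.S) : T.pt x =
    (M.U.du 0 ⬝ᵥ T.pt x) • M.U.pa 0 + (M.U.dv 0 ⬝ᵥ T.pt x) • M.U.pb 0 :=
  TConf.vec_eq ((M.memS x).mp hx)

theorem du_pt (hok : T.Ok) {x : Fin r} (hx : x ∈ M.S) : M.U.du 0 ⬝ᵥ T.pt x ≠ 0 := by
  intro h0
  have h1 := M.pt_eq hx
  rw [h0, zero_smul, zero_add] at h1
  obtain ⟨l, hl⟩ := hok.ne x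
  have h2 := (T.mem_tri l x).mp hl
  rw [h1, dotProduct_smul, smul_eq_mul] at h2
  have h3 := (mul_eq_zero.mp h2).resolve_right (M.ne l)
  rw [h3, zero_smul] at h1
  exact T.pt_ne_zero x h1

/-- Parameter of a multiple point on the auxiliary line. -/
def tx (x : Fin r) : 𝕜 := (M.U.dv 0 ⬝ᵥ T.pt x) / (M.U.du 0 ⬝ᵥ T.pt x)

theorem pt_at (hok : T.Ok) {x : Fin r} (hx : x ∈ M.S) (v : Fin 3 → 𝕜) :
    v ⬝ᵥ T.pt x = (M.U.du 0 ⬝ᵥ T.pt x) * (v ⬝ᵥ M.at' (M.tx x)) := by
  have h0 := M.du_pt hok hx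
  conv_lhs => rw [M.pt_eq hx]
  rw [at', dotProduct_add, dotProduct_smul, dotProduct_smul, dotProduct_add, dotProduct_smul,
    smul_eq_mul, smul_eq_mul, smul_eq_mul, tx]
  field_simp

theorem tl_eq_tx (hok : T.Ok) {x : Fin r} (hx : x ∈ M.S) {l : Fin k} :
    l ∈ T.tri x ↔ M.tl l = M.tx x := by
  rw [T.mem_tri, M.pt_at hok hx, mul_eq_zero, M.L_at]
  constructor
  · rintro (h | h)
    · exact absurd h (M.du_pt hok hx)
    · exact h.symm
  · intro h; exact Or.inr h.symm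

theorem res_form (hok : T.Ok) {x : Fin r} (hx : x ∈ M.S) {v : Fin 3 → 𝕜}
    (hv : v ⬝ᵥ T.pt x = 0) : M.res (lin v) =
    Polynomial.C (v ⬝ᵥ M.U.pb 0) * (Polynomial.X - Polynomial.C (M.tx x)) := by
  have h0 := M.du_pt hok hx
  rw [res, TConf.res_lin]
  rw [M.pt_at hok hx, mul_eq_zero] at hv
  have h1 := hv.resolve_left h0
  rw [at', dotProduct_add, dotProduct_smul, smul_eq_mul] at h1
  have h2 : v ⬝ᵥ M.U.pa 0 = -((v ⬝ᵥ M.U.pb 0) * M.tx x) := by linear_combination h1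
  rw [h2, map_neg, map_mul]
  ring

theorem res_mem_of_J (hok : T.Ok) {x : Fin r} (hx : x ∈ M.S) {m : ℕ} {P : (RK 𝕜)}
    (hP : P ∈ T.J (Sum.inr x) m) : (Polynomial.X - Polynomial.C (M.tx x)) ^ m ∣ M.res P := by
  rw [TConf.mem_J_inr_iff] at hP
  have h1 : (T.Iq x).map (M.res : (RK 𝕜) →+* Polynomial 𝕜) ≤
      Ideal.span {Polynomial.X - Polynomial.C (M.tx x)} := by
    rw [TConf.Iq, Ideal.map_span, Ideal.span_le]
    rintro _ ⟨_, ⟨j, rfl⟩, rfl⟩
    change M.res (T.y x j) ∈ _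
    obtain ⟨v, hv, hy⟩ := T.y_eq_lin x j
    rw [hy, M.res_form hok hx hv, SetLike.mem_coe, Ideal.mem_span_singleton]
    exact Dvd.intro_left _ rfl
  have h2 : (T.Iq x ^ m).map (M.res : (RK 𝕜) →+* Polynomial 𝕜) ≤
      Ideal.span {(Polynomial.X - Polynomial.C (M.tx x)) ^ m} := by
    rw [Ideal.map_pow, ← Ideal.span_singleton_pow]
    exact Ideal.pow_right_mono h1 m
  exact Ideal.mem_span_singleton.mp (h2 (Ideal.mem_map_of_mem _ hP))

theorem res_of_L {l : Fin k} {m : ℕ} {P : (RK 𝕜)} (h : T.L l ^ m ∣ P) :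
    (Polynomial.X - Polynomial.C (M.tl l)) ^ m ∣ M.res P := by
  have h1 := map_dvd M.res h
  rw [map_pow, M.res_L, mul_pow] at h1
  exact (Dvd.intro_left _ rfl).trans h1

/-- The lines that pass through no multiple point of the auxiliary line. -/
def free : Finset (Fin k) := Finset.univ.filter fun l => ∀ x ∈ M.S, l ∉ T.tri x

theorem mem_free {l : Fin k} : l ∈ M.free ↔ ∀ x ∈ M.S, l ∉ T.tri x := by simp [free]

theorem tx_inj (hok : T.Ok) {x y : Fin r} (hx : x ∈ M.S) (hy : y ∈ M.S)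
    (h : M.tx x = M.tx y) : x = y := by
  obtain ⟨l, hl⟩ := hok.ne x
  have hl' : l ∈ T.tri y := by
    rw [M.tl_eq_tx hok hy, ← h, ← M.tl_eq_tx hok hx]
    exact hl
  have h1 : T.tn l (Sum.inr x) = T.tn l (Sum.inr y) := by
    change T.tq l x = T.tq l y
    have hx0 := M.du_pt hok hx
    have hy0 := M.du_pt hok hy
    have hx1 := T.du_pt l x hl
    have hy1 := T.du_pt l y hl'
    rw [TConf.tq, TConf.tq, div_eq_div_iff hx1 hy1, M.pt_at hok hx (T.dv l),
      M.pt_at hok hy (T.du l), M.pt_at hok hy (T.dv l), M.pt_at hok hx (T.du l), h]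
    ring
  have h2 := hok.good l (Sum.inr x) (Sum.inr y) hl hl' h1
  exact Sum.inr_injective h2

theorem sum_split (hok : T.Ok) (A : Fin k → ℕ) : ∑ l, A l =
    ∑ l ∈ M.free, A l + ∑ x ∈ M.S, ∑ l ∈ T.tri x, A l := by
  classical
  rw [← Finset.sum_biUnion, ← Finset.sum_union]
  · congr 1
    ext l
    simp only [Finset.mem_univ, Finset.mem_union, Finset.mem_biUnion, true_iff, M.mem_free]
    by_cases h : ∃ x ∈ M.S, l ∈ T.tri x
    · exact Or.inr h
    · push Not at h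
      exact Or.inl h
  · rw [Finset.disjoint_left]
    intro l hl hl'
    obtain ⟨x, hx, hlx⟩ := Finset.mem_biUnion.mp hl'
    exact M.mem_free.mp hl x hx hlx
  · intro x hx y hy hxy
    rw [Function.onFun, Finset.disjoint_left]
    intro l hl hl'
    exact hxy (M.tx_inj hok hx hy (((M.tl_eq_tx hok hx).mp hl).symm.trans
      ((M.tl_eq_tx hok hy).mp hl')))

theorem dbl_of_tl {l l' : Fin k} (hl : l ∈ M.free) (hll : l ≠ l')
    (h : M.tl l = M.tl l') : T.dbl l l' := by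
  rcases T.dbl_or hll with h1 | ⟨q, h1, h2⟩
  · exact h1
  · exfalso
    have h3 : q ∈ M.S := by
      rw [M.memS]
      rw [← TConf.through_tri hll h1 h2 (M.at_ne_zero (M.tl l)) ((M.L_at l _).mpr rfl)
        ((M.L_at l' _).mpr h)]
      exact M.f_at _
    exact M.mem_free.mp hl q h3 h1

theorem fiber_two (hok : T.Ok) {l l' l'' : Fin k} (hl : l ∈ M.free) (hll : l ≠ l')
    (h : M.tl l = M.tl l') (h' : M.tl l = M.tl l'') : l'' = l ∨ l'' = l' := by
  have hd := M.dbl_of_tl hl hll h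
  exact (TConf.through_dbl hok hd (M.at_ne_zero (M.tl l)) ((M.L_at l _).mpr rfl)
    ((M.L_at l' _).mpr h) l'').mp ((M.L_at l'' _).mpr h')

theorem hom_dvd {e : ℕ} {P : (RK 𝕜)} (hP : P.IsHomogeneous e) (h : M.res P = 0) : M.ell ∣ P :=
  M.U.L_dvd_of_res hP h

theorem ell_hom : M.ell.IsHomogeneous 1 := M.U.L_hom 0

theorem ell_ne_zero : M.ell ≠ 0 := M.U.L_ne_zero 0

theorem not_L_dvd_ell (l : Fin k) : ¬ T.L l ∣ M.ell := by
  intro h
  obtain ⟨c, hc⟩ := h
  have h1 : M.ell = T.L l * c := hc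
  have h2 := congrArg (eval (M.U.pb 0)) h1
  have hc0 : c ≠ 0 := by
    rintro rfl
    rw [mul_zero] at hc
    exact M.ell_ne_zero hc
  have h3 := hom_of_mul (T.L_hom l) (T.L_ne_zero l) hc0 (h1 ▸ M.ell_hom)
  rw [Nat.sub_self] at h3
  have h4 : c = C (coeff 0 c) := by
    rw [← totalDegree_eq_zero_iff_eq_C]
    have := h3.2.totalDegree_le
    omega
  rw [map_mul, ell, TConf.L, TConf.L, eval_lin, eval_lin, M.U.fb, h4, eval_C] at h2
  rcases mul_eq_zero.mp h2.symm with h5 | h5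
  · exact M.ne l h5
  · rw [h5, map_zero] at h4
    exact hc0 h4

theorem ell_mem_J {x : Fin r} (hx : x ∈ M.S) : T.phi x M.ell = Polynomial.X * Polynomial.C M.ell := by
  have h1 : M.U.f 0 ⬝ᵥ T.pt x = 0 := (M.memS x).mp hx
  rw [ell, TConf.L, T.phi_lin, h1]
  simp

theorem ell_not_mem {x : Fin r} (hx : x ∉ M.S) : ¬ (Polynomial.X ∣ T.phi x M.ell) := by
  rw [ell, TConf.L, T.phi_lin, Polynomial.X_dvd_iff]
  simp only [Polynomial.coeff_add, Polynomial.coeff_C_zero, Polynomial.mul_coeff_zero,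
    Polynomial.coeff_X_zero, zero_mul, add_zero]
  refine mul_ne_zero ?_ (T.kp_ne_zero x)
  rw [Ne, C_eq_zero]
  intro h0
  exact hx ((M.memS x).mpr h0)

/-- Adding an auxiliary line with negative intersection number. -/
theorem LBVc_neg {τ : ℤ} {ε : Fin r → ℕ} (hok : T.Ok) (hk : 2 ≤ k) (h : T.LBVc (τ + 1) ε)
    (hneg : τ + 1 + ((∑ x ∈ M.S, ε x : ℕ) : ℤ) < 0) :
    T.LBVc τ (fun x => ε x + if x ∈ M.S then 1 else 0) := by
  classical
  obtain ⟨b, hb⟩ := h
  refine ⟨b, fun A e hA he hq => ?_⟩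
  let A' : Crv k r → ℕ := fun D => match D with
    | Sum.inl i => A (Sum.inl i)
    | Sum.inr x => A (Sum.inr x) + if x ∈ M.S then 1 else 0
  have hLBV : T.LBV (e + 1) A' := by
    refine hb A' (e + 1) hA ?_ (fun x => ?_)
    · push_cast
      rw [he]
      change _ = τ + 1 + ∑ i, (A (Sum.inl i) : ℤ)
      ring
    · have h1 : A (Sum.inr x) + (ε x + if x ∈ M.S then 1 else 0) =
        ∑ i ∈ T.tri x, A (Sum.inl i) := hq x
      change A (Sum.inr x) + (if x ∈ M.S then 1 else 0) + ε x = ∑ i ∈ T.tri x, A (Sum.inl i)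
      omega
  intro G hsym hhom hG
  obtain ⟨P, hP, hP'⟩ := hLBV (fun D D' => M.ell * G D D')
    (fun D D' hD => by rw [hsym D D' hD])
    (fun D D' => by
      have := M.ell_hom.mul (hhom D D')
      rwa [add_comm] at this)
    (fun D D' D'' h1 h2 => by
      have h3 := hG D D' D'' h1 h2
      change M.ell * G D D' - M.ell * G D D'' ∈ _
      rw [← mul_sub]
      rcases D with i | x
      · exact Ideal.mul_mem_left _ _ h3
      · change _ ∈ T.J (Sum.inr x) (A (Sum.inr x) + if x ∈ M.S then 1 else 0)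
        by_cases hx : x ∈ M.S
        · rw [if_pos hx]
          rw [TConf.mem_J_inr] at h3 ⊢
          rw [map_mul, M.ell_mem_J hx, pow_succ', mul_assoc]
          exact mul_dvd_mul_left _ (h3.mul_left _)
        · rw [if_neg hx, add_zero]
          exact Ideal.mul_mem_left _ _ h3)
  -- the restriction vanishes
  have hellres : ∀ R : (RK 𝕜), M.res (M.ell * R) = 0 := by
    intro R
    rw [map_mul]
    have : M.res M.ell = 0 := M.U.res_L_self 0
    rw [this, zero_mul]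
  have hresP : ∀ D D', M.res (P - M.ell * G D D') = M.res P := by
    intro D D'
    rw [map_sub, hellres, sub_zero]
  have hone : ∀ l, (Polynomial.X - Polynomial.C (M.tl l)) ^ A (Sum.inl l) ∣ M.res P := by
    intro l
    obtain ⟨j, hj⟩ : ∃ j : Fin k, l ≠ j := by
      have : Nontrivial (Fin k) := Fin.nontrivial_iff_two_le.mpr hk
      obtain ⟨j, hj⟩ := exists_ne l
      exact ⟨j, hj.symm⟩
    have h1 := hP' (Sum.inl l) (T.nd l j) (T.mem_nodes.mp (T.nd_mem hj))
    rw [TConf.mem_J_inl] at h1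
    have h2 := M.res_of_L h1
    rw [hresP] at h2
    exact h2
  have hxdvd : ∀ x ∈ M.S, (Polynomial.X - Polynomial.C (M.tx x)) ^ A' (Sum.inr x) ∣ M.res P := by
    intro x hx
    obtain ⟨l, hl⟩ := hok.ne x
    have h1 := hP' (Sum.inr x) (Sum.inl l) hl
    have h2 := M.res_mem_of_J hok hx h1
    rw [hresP] at h2
    exact h2
  have hfib : ∀ t, (Polynomial.X - Polynomial.C t) ^
      (∑ l ∈ M.free.filter (fun l => M.tl l = t), A (Sum.inl l)) ∣ M.res P := by
    intro t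
    by_cases h0 : M.free.filter (fun l => M.tl l = t) = ∅
    · rw [h0, Finset.sum_empty, pow_zero]; exact one_dvd _
    obtain ⟨l, hl⟩ := Finset.nonempty_iff_ne_empty.mpr h0
    rw [Finset.mem_filter] at hl
    obtain ⟨hlf, hlt⟩ := hl
    by_cases h1 : ∃ l' ∈ M.free.filter (fun l => M.tl l = t), l ≠ l'
    · obtain ⟨l', hl', hne⟩ := h1
      rw [Finset.mem_filter] at hl'
      have htt : M.tl l = M.tl l' := by rw [hlt, hl'.2]
      have hset : M.free.filter (fun l => M.tl l = t) = {l, l'} := by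
        ext m
        rw [Finset.mem_filter, Finset.mem_insert, Finset.mem_singleton]
        constructor
        · rintro ⟨hm, hmt⟩
          exact M.fiber_two hok hlf hne htt (by rw [hlt, hmt])
        · rintro (rfl | rfl)
          · exact ⟨hlf, hlt⟩
          · exact hl'
      rw [hset, Finset.sum_pair hne]
      have hd := M.dbl_of_tl hlf hne htt
      have h2 := hP' (Sum.inl l) (Sum.inl l') hd
      have h3 := hP' (Sum.inl l') (Sum.inl l) (T.dbl_symm hd)
      rw [← hsym (Sum.inl l) (Sum.inl l') hd] at h3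
      rw [TConf.mem_J_inl] at h2 h3
      change T.L l ^ A (Sum.inl l) ∣ _ at h2
      change T.L l' ^ A (Sum.inl l') ∣ _ at h3
      obtain ⟨R, hR⟩ := h2
      have h4 : T.L l' ^ A (Sum.inl l') ∣ R := by
        rw [hR] at h3
        exact (T.L_prime l').pow_dvd_of_dvd_mul_left _ (fun hd =>
          T.not_L_dvd_L hne.symm ((T.L_prime l').dvd_of_dvd_pow hd)) h3
      obtain ⟨R', hR'⟩ := h4
      rw [← hresP (Sum.inl l) (Sum.inl l'), hR, hR', pow_add, map_mul, map_mul, map_pow, map_pow,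
        M.res_L, M.res_L, ← htt, hlt, mul_pow, mul_pow, ← mul_assoc]
      exact (mul_dvd_mul (Dvd.intro_left _ rfl) (Dvd.intro_left _ rfl)).mul_right _
    · push Not at h1
      have hset : M.free.filter (fun l => M.tl l = t) = {l} := by
        ext m
        rw [Finset.mem_singleton]
        constructor
        · intro hm; exact (h1 m hm).symm
        · rintro rfl
          rw [Finset.mem_filter]; exact ⟨hlf, hlt⟩
      rw [hset, Finset.sum_singleton, ← hlt]
      exact hone l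
  -- the big divisor
  let V : Finset 𝕜 := M.free.image M.tl
  have hd1 : ∏ t ∈ V, (Polynomial.X - Polynomial.C t) ^
      (∑ l ∈ M.free.filter (fun l => M.tl l = t), A (Sum.inl l)) ∣ M.res P := by
    refine Finset.prod_dvd_of_coprime ?_ (fun t _ => hfib t)
    intro s _ t _ hst
    exact (Polynomial.isCoprime_X_sub_C_of_isUnit_sub (sub_ne_zero.mpr hst).isUnit).pow
  have hd2 : ∏ x ∈ M.S, (Polynomial.X - Polynomial.C (M.tx x)) ^ A' (Sum.inr x) ∣ M.res P := by
    refine Finset.prod_dvd_of_coprime ?_ (fun x hx => hxdvd x hx)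
    intro x hx y hy hxy
    refine (Polynomial.isCoprime_X_sub_C_of_isUnit_sub (sub_ne_zero.mpr ?_).isUnit).pow
    intro h
    exact hxy (M.tx_inj hok hx hy h)
  have hd3 : (∏ t ∈ V, (Polynomial.X - Polynomial.C t) ^
      (∑ l ∈ M.free.filter (fun l => M.tl l = t), A (Sum.inl l))) *
      ∏ x ∈ M.S, (Polynomial.X - Polynomial.C (M.tx x)) ^ A' (Sum.inr x) ∣ M.res P := by
    refine IsCoprime.mul_dvd ?_ hd1 hd2
    refine IsCoprime.prod_left fun t ht => IsCoprime.prod_right fun x hx => ?_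
    refine (Polynomial.isCoprime_X_sub_C_of_isUnit_sub (sub_ne_zero.mpr ?_).isUnit).pow
    intro h
    obtain ⟨l, hl, rfl⟩ := Finset.mem_image.mp ht
    exact M.mem_free.mp hl x hx ((M.tl_eq_tx hok hx).mpr h)
  have hres0 : M.res P = 0 := by
    by_contra hne
    have h1 := Polynomial.natDegree_le_of_dvd hd3 hne
    have h2 : (M.res P).natDegree ≤ e + 1 := M.U.natDegree_res 0 hP
    have hne1 : ∀ (t : 𝕜) (m : ℕ), ((Polynomial.X - Polynomial.C t) ^ m).Monic := fun t m =>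
      (Polynomial.monic_X_sub_C t).pow m
    have h3 : ((∏ t ∈ V, (Polynomial.X - Polynomial.C t) ^
      (∑ l ∈ M.free.filter (fun l => M.tl l = t), A (Sum.inl l))) *
      ∏ x ∈ M.S, (Polynomial.X - Polynomial.C (M.tx x)) ^ A' (Sum.inr x)).natDegree =
      ∑ l ∈ M.free, A (Sum.inl l) + ∑ x ∈ M.S, A' (Sum.inr x) := by
      rw [Polynomial.Monic.natDegree_mul (Polynomial.monic_prod_of_monic _ _ fun t _ => hne1 _ _)
        (Polynomial.monic_prod_of_monic _ _ fun t _ => hne1 _ _),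
        Polynomial.natDegree_prod_of_monic _ _ (fun t _ => hne1 _ _),
        Polynomial.natDegree_prod_of_monic _ _ (fun t _ => hne1 _ _)]
      congr 1
      · rw [← Finset.sum_fiberwise_of_maps_to (g := M.tl) (t := V)
          (fun l hl => Finset.mem_image_of_mem _ hl)]
        refine Finset.sum_congr rfl fun t _ => ?_
        rw [Polynomial.natDegree_pow, Polynomial.natDegree_X_sub_C, mul_one]
      · refine Finset.sum_congr rfl fun x _ => ?_
        rw [Polynomial.natDegree_pow, Polynomial.natDegree_X_sub_C, mul_one]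
    rw [h3] at h1
    have h4 := M.sum_split hok (fun l => A (Sum.inl l))
    have h5 : ∑ x ∈ M.S, ∑ l ∈ T.tri x, A (Sum.inl l) =
        ∑ x ∈ M.S, A' (Sum.inr x) + ∑ x ∈ M.S, ε x := by
      rw [← Finset.sum_add_distrib]
      refine Finset.sum_congr rfl fun x hx => ?_
      have h6 : A (Sum.inr x) + (ε x + if x ∈ M.S then 1 else 0) =
        ∑ i ∈ T.tri x, A (Sum.inl i) := hq x
      change _ = A (Sum.inr x) + (if x ∈ M.S then 1 else 0) + ε x
      omega
    have h7 : ((∑ l, A (Sum.inl l) : ℕ) : ℤ) = ∑ i, (A (Sum.inl i) : ℤ) := by push_cast; rfl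
    rw [h5] at h4
    omega
  obtain ⟨R, hR⟩ := M.hom_dvd hP hres0
  have hRh : R.IsHomogeneous e := by
    by_cases hR0 : R = 0
    · rw [hR0]; exact isHomogeneous_zero _ _ _
    · rw [hR] at hP
      have h1 := (hom_of_mul M.ell_hom M.ell_ne_zero hR0 hP).2
      rwa [Nat.add_sub_cancel] at h1
  refine ⟨R, hRh, fun D D' hD => ?_⟩
  have h1 := hP' D D' hD
  rw [hR, ← mul_sub] at h1
  rcases D with l | x
  · rw [TConf.mem_J_inl] at h1 ⊢
    exact (T.L_prime l).pow_dvd_of_dvd_mul_left _ (M.not_L_dvd_ell l) h1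
  · rw [TConf.mem_J_inr, map_mul] at h1
    change Polynomial.X ^ (A (Sum.inr x) + if x ∈ M.S then 1 else 0) ∣ _ at h1
    rw [TConf.mem_J_inr]
    by_cases hx : x ∈ M.S
    · rw [if_pos hx, M.ell_mem_J hx, pow_succ', mul_assoc] at h1
      have h2 := (mul_dvd_mul_iff_left Polynomial.X_ne_zero).mp h1
      refine Polynomial.prime_X.pow_dvd_of_dvd_mul_left _ ?_ h2
      rw [Polynomial.X_dvd_iff, Polynomial.coeff_C_zero]
      exact M.ell_ne_zero
    · rw [if_neg hx, add_zero] at h1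
      exact Polynomial.prime_X.pow_dvd_of_dvd_mul_left _ (M.ell_not_mem hx) h1

end AuxLine

end

end Pool.Agent.H94_gen
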