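import Pool.Agent.H94_gen.Reg

/-!
# Building the data of a configuration
-/

namespace Pool.Agent.H94_gen

open MvPolynomial

noncomputable section

set_option linter.unusedSectionVars false

theorem cross_cross_zero (p f g : Fin 3 → ℂ) (hf : f ⬝ᵥ p = 0) (hg : g ⬝ᵥ p = 0) :
    crossProduct p (crossProduct f g) = 0 := by
  simp only [dotProduct, Fin.sum_univ_three] at hf hg
  ext j
  fin_cases j
  · simp [cross_apply]
    linear_combination f 0 * hg - g 0 * hf
  · simp [cross_apply]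
    linear_combination f 1 * hg - g 1 * hf
  · simp [cross_apply]
    linear_combination f 2 * hg - g 2 * hf

theorem parallel {p q : Fin 3 → ℂ} (hp : p ≠ 0) (hq : q ≠ 0) (h : crossProduct p q = 0) :
    ∃ s : ℂ, s ≠ 0 ∧ p = s • q := by
  have h1 : ¬ LinearIndependent ℂ ![p, q] := by
    intro h2
    exact (crossProduct_ne_zero_iff_linearIndependent.mpr h2) h
  rw [LinearIndependent.pair_iff] at h1
  push Not at h1
  obtain ⟨a, b, hab, hne⟩ := h1
  have ha : a ≠ 0 := by
    intro ha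
    rw [ha, zero_smul, zero_add] at hab
    rcases smul_eq_zero.mp hab with h2 | h2
    · exact hne ha h2
    · exact hq h2
  have h3 : p = (-(b / a)) • q := by
    have h4 : a⁻¹ • (a • p + b • q) = 0 := by rw [hab, smul_zero]
    rw [smul_add, smul_smul, smul_smul, inv_mul_cancel₀ ha, one_smul] at h4
    rw [neg_smul, div_eq_inv_mul]
    exact eq_neg_of_add_eq_zero_left h4
  refine ⟨-(b / a), ?_, h3⟩
  intro h0
  rw [h0, zero_smul] at h3
  exact hp h3

theorem exists_dot_one {p : Fin 3 → ℂ} (hp : p ≠ 0) : ∃ v : Fin 3 → ℂ, v ⬝ᵥ p = 1 := by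
  have h2 : ∃ j, p j ≠ 0 := by
    by_contra h
    push Not at h
    exact hp (funext h)
  obtain ⟨j, hj⟩ := h2
  refine ⟨Pi.single j (p j)⁻¹, ?_⟩
  rw [single_dotProduct]
  exact inv_mul_cancel₀ hj

variable {k : ℕ}

open Classical in
/-- The lines through a point. -/
def thr (form : Fin k → Fin 3 → ℂ) (p : Fin 3 → ℂ) : Finset (Fin k) :=
  Finset.univ.filter fun i => form i ⬝ᵥ p = 0

theorem mem_thr {form : Fin k → Fin 3 → ℂ} {p : Fin 3 → ℂ} {i : Fin k} :
    i ∈ thr form p ↔ form i ⬝ᵥ p = 0 := by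
  simp [thr]

theorem thr_smul {form : Fin k → Fin 3 → ℂ} {p : Fin 3 → ℂ} {s : ℂ} (hs : s ≠ 0) :
    thr form (s • p) = thr form p := by
  ext i
  rw [mem_thr, mem_thr, dotProduct_smul, smul_eq_mul, mul_eq_zero]
  exact ⟨fun h => h.resolve_left hs, Or.inr⟩

section

variable {form : Fin k → Fin 3 → ℂ}
  (hind : ∀ i j, i ≠ j → LinearIndependent ℂ ![form i, form j])

include hind

theorem cross_ne {i j : Fin k} (hij : i ≠ j) : crossProduct (form i) (form j) ≠ 0 :=
  crossProduct_ne_zero_iff_linearIndependent.mpr (hind i j hij)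

theorem eq_smul_cross {i j : Fin k} (hij : i ≠ j) {p : Fin 3 → ℂ} (hp : p ≠ 0)
    (hi : form i ⬝ᵥ p = 0) (hj : form j ⬝ᵥ p = 0) :
    ∃ s : ℂ, s ≠ 0 ∧ p = s • crossProduct (form i) (form j) :=
  parallel hp (cross_ne hind hij) (cross_cross_zero p _ _ hi hj)

theorem thr_eq_cross {i j : Fin k} (hij : i ≠ j) {p : Fin 3 → ℂ} (hp : p ≠ 0)
    (hi : form i ⬝ᵥ p = 0) (hj : form j ⬝ᵥ p = 0) :
    thr form p = thr form (crossProduct (form i) (form j)) := by
  obtain ⟨s, hs, h⟩ := eq_smul_cross hind hij hp hi hj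
  rw [h, thr_smul hs]

theorem same_point {i j : Fin k} (hij : i ≠ j) {p q : Fin 3 → ℂ} (hp : p ≠ 0) (hq : q ≠ 0)
    (hi : form i ⬝ᵥ p = 0) (hj : form j ⬝ᵥ p = 0) (hi' : form i ⬝ᵥ q = 0)
    (hj' : form j ⬝ᵥ q = 0) : ∃ s : ℂ, s ≠ 0 ∧ p = s • q := by
  obtain ⟨s, hs, h⟩ := eq_smul_cross hind hij hp hi hj
  obtain ⟨t, ht, h'⟩ := eq_smul_cross hind hij hq hi' hj'
  refine ⟨s / t, div_ne_zero hs ht, ?_⟩
  rw [h, h', smul_smul, div_mul_cancel₀ _ ht]

/-- Points on a line. -/
theorem exists_line_points (hnc : ∀ p : Fin 3 → ℂ, p ≠ 0 → ∃ i, form i ⬝ᵥ p ≠ 0) (hk : 2 ≤ k)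
    (i : Fin k) : ∃ pa pb pc du dv : Fin 3 → ℂ,
      (∀ j, (Pi.single j 1 : Fin 3 → ℂ) = (pc j) • form i + (pa j) • du + (pb j) • dv) ∧
      form i ⬝ᵥ pa = 0 ∧ form i ⬝ᵥ pb = 0 ∧ du ⬝ᵥ pa = 1 ∧ du ⬝ᵥ pb = 0 ∧ dv ⬝ᵥ pa = 0 ∧
      dv ⬝ᵥ pb = 1 ∧ form i ⬝ᵥ pc = 1 ∧ ∀ j, i ≠ j → form j ⬝ᵥ pb ≠ 0 := by
  haveI : Nontrivial (Fin k) := Fin.nontrivial_iff_two_le.mpr hk
  obtain ⟨j, hj⟩ := exists_ne i
  set c1 := crossProduct (form i) (form j) with hc1
  have hc1n : c1 ≠ 0 := cross_ne hind hj.symm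
  have hi1 : form i ⬝ᵥ c1 = 0 := dot_self_cross _ _
  obtain ⟨l, hl⟩ := hnc c1 hc1n
  have hil : i ≠ l := by
    rintro rfl
    exact hl hi1
  set c2 := crossProduct (form i) (form l) with hc2
  have hc2n : c2 ≠ 0 := cross_ne hind hil
  have hi2 : form i ⬝ᵥ c2 = 0 := dot_self_cross _ _
  have hl2 : form l ⬝ᵥ c2 = 0 := dot_cross_self _ _
  have hindc : ∀ s t : ℂ, s • c1 + t • c2 = 0 → s = 0 ∧ t = 0 := by
    intro s t h
    have h1 := congrArg (fun v => form l ⬝ᵥ v) h
    simp only [dotProduct_add, dotProduct_smul, hl2, smul_eq_mul, mul_zero, add_zero,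
      dotProduct_zero] at h1
    have hs := (mul_eq_zero.mp h1).resolve_right hl
    rw [hs, zero_smul, zero_add] at h
    exact ⟨hs, (smul_eq_zero.mp h).resolve_right hc2n⟩
  have hex : ∃ s : ℂ, ∀ m, i ≠ m → form m ⬝ᵥ (c1 + s • c2) ≠ 0 := by
    classical
    let bad : Finset ℂ := Finset.univ.image fun m : Fin k =>
      -(form m ⬝ᵥ c1) / (form m ⬝ᵥ c2)
    obtain ⟨s, hs⟩ := Infinite.exists_notMem_finset bad
    refine ⟨s, fun m him h0 => ?_⟩
    rw [dotProduct_add, dotProduct_smul, smul_eq_mul] at h0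
    by_cases hm : form m ⬝ᵥ c2 = 0
    · rw [hm, mul_zero, add_zero] at h0
      obtain ⟨t, _, ht⟩ := same_point hind him hc1n hc2n hi1 h0 hi2 hm
      have h1 := hindc 1 (-t) (by rw [ht]; module)
      exact one_ne_zero h1.1
    · apply hs
      refine Finset.mem_image.mpr ⟨m, Finset.mem_univ m, ?_⟩
      rw [div_eq_iff hm]
      linear_combination -h0
  obtain ⟨s, hs⟩ := hex
  have hfi : form i ≠ 0 := by
    intro h0
    have h1 := hs j hj.symm
    have h2 := hind i j hj.symm
    rw [LinearIndependent.pair_iff] at h2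
    have h3 := h2 1 0 (by rw [h0]; simp)
    exact one_ne_zero h3.1
  obtain ⟨pc, hpc⟩ := exists_dot_one hfi
  have hind2 : LinearIndependent ℂ ![c2, c1 + s • c2] := by
    rw [LinearIndependent.pair_iff]
    intro x y h
    have h1 := hindc y (x + y * s) (by rw [← h]; module)
    rw [h1.1, zero_mul, add_zero] at h1
    exact ⟨h1.2, (hindc y _ (by rw [← h]; module : y • c1 + (x + y * s) • c2 = 0)).1⟩
  have hib : form i ⬝ᵥ (c1 + s • c2) = 0 := by
    rw [dotProduct_add, dotProduct_smul, hi1, hi2]; simp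
  obtain ⟨du, dv, h1, h2, h3, h4, h5⟩ := exists_dual (form i) c2 (c1 + s • c2) pc hi2 hib
    (by rw [dotProduct_comm]; exact hpc) hind2
  exact ⟨c2, c1 + s • c2, pc, du, dv, h1, hi2, hib, h2, h3, h4, h5,
    by rw [dotProduct_comm]; exact hpc, hs⟩

/-- Every configuration has the data of a `TConf`. -/
theorem exists_conf (hnc : ∀ p : Fin 3 → ℂ, p ≠ 0 → ∃ i, form i ⬝ᵥ p ≠ 0) (hk : 2 ≤ k) :
    ∃ (r : ℕ) (T : TConf ℂ k r), T.f = form ∧ T.Ok ∧ (∀ q, 3 ≤ (T.tri q).card) ∧
      (∀ q, ∃ w, w ∉ T.tri q) ∧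
      ∀ p : Fin 3 → ℂ, p ≠ 0 → 3 ≤ (thr form p).card → ∃ q, ∃ s : ℂ, s ≠ 0 ∧
        p = s • T.pt q := by
  classical
  let M : Finset (Finset (Fin k)) := ((Finset.univ.filter fun ij : Fin k × Fin k =>
    ij.1 ≠ ij.2).image fun ij => thr form (crossProduct (form ij.1) (form ij.2))).filter
      fun s => 3 ≤ s.card
  have hM : ∀ s ∈ M, 3 ≤ s.card ∧ ∃ i j, i ≠ j ∧
      thr form (crossProduct (form i) (form j)) = s := by
    intro s hs
    rw [Finset.mem_filter, Finset.mem_image] at hs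
    obtain ⟨⟨ij, hij, h⟩, h3⟩ := hs
    exact ⟨h3, ij.1, ij.2, (Finset.mem_filter.mp hij).2, h⟩
  have hM' : ∀ p : Fin 3 → ℂ, p ≠ 0 → 3 ≤ (thr form p).card → thr form p ∈ M := by
    intro p hp h3
    obtain ⟨i, hi, j, hj, hij⟩ := Finset.one_lt_card.mp (by omega : 1 < (thr form p).card)
    rw [Finset.mem_filter, Finset.mem_image]
    refine ⟨⟨(i, j), Finset.mem_filter.mpr ⟨Finset.mem_univ _, hij⟩, ?_⟩, h3⟩
    exact (thr_eq_cross hind hij hp (mem_thr.mp hi) (mem_thr.mp hj)).symm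
  let e := M.equivFin
  have hq : ∀ q : Fin M.card, ∃ p : Fin 3 → ℂ, p ≠ 0 ∧ thr form p = (e.symm q).1 := by
    intro q
    obtain ⟨_, i, j, hij, h⟩ := hM _ (e.symm q).2
    exact ⟨_, cross_ne hind hij, h⟩
  choose pt hpt hptr using hq
  have hkap : ∀ q, ∃ v : Fin 3 → ℂ, v ⬝ᵥ pt q = 1 := fun q => exists_dot_one (hpt q)
  choose kap hkap using hkap
  choose pa pb pc du dv hdec hfa hfb hua hub hva hvb hfc hfjb using
    exists_line_points hind hnc hk
  have h3 : ∀ q, 3 ≤ (thr form (pt q)).card := by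
    intro q
    rw [hptr q]
    exact (hM _ (e.symm q).2).1
  have hcard : ∀ q q', thr form (pt q) = thr form (pt q') → q = q' := by
    intro q q' h
    rw [hptr, hptr] at h
    exact e.symm.injective (Subtype.ext h)
  have hvec : ∀ i (p : Fin 3 → ℂ), form i ⬝ᵥ p = 0 →
      p = (du i ⬝ᵥ p) • pa i + (dv i ⬝ᵥ p) • pb i := by
    intro i p h
    funext j
    have h1 := congrArg (fun v => v ⬝ᵥ p) (hdec i j)
    simp only [add_dotProduct, smul_dotProduct, single_dotProduct, one_mul, smul_eq_mul] at h1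
    rw [h] at h1
    rw [h1]
    simp only [Pi.add_apply, Pi.smul_apply, smul_eq_mul]
    ring
  have hcnt : ∀ i j, i ≠ j → ∀ q q', i ∈ thr form (pt q) → j ∈ thr form (pt q) →
      i ∈ thr form (pt q') → j ∈ thr form (pt q') → q = q' := by
    intro i j hij q q' h1 h2 h3 h4
    rw [mem_thr] at h1 h2 h3 h4
    apply hcard
    rw [thr_eq_cross hind hij (hpt q) h1 h2, thr_eq_cross hind hij (hpt q') h3 h4]
  have hdu : ∀ i q, i ∈ thr form (pt q) → du i ⬝ᵥ pt q ≠ 0 := by
    intro i q hi h0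
    obtain ⟨j, hj, hji⟩ := Finset.exists_mem_ne (by have := h3 q; omega :
      1 < (thr form (pt q)).card) i
    have h1 := hvec i (pt q) (mem_thr.mp hi)
    rw [h0, zero_smul, zero_add] at h1
    have h2 := mem_thr.mp hj
    rw [h1, dotProduct_smul, smul_eq_mul] at h2
    have h4 := (mul_eq_zero.mp h2).resolve_right (hfjb i j hji.symm)
    rw [h4, zero_smul] at h1
    exact hpt q h1
  let T : TConf ℂ k M.card :=
    { f := form
      tri := fun q => thr form (pt q)
      pt := pt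
      kap := kap
      pa := pa
      pb := pb
      pc := pc
      du := du
      dv := dv
      mem_tri := fun _ _ => mem_thr
      kap_pt := hkap
      decomp := hdec
      fa := hfa
      fb := hfb
      ua := hua
      ub := hub
      va := hva
      vb := hvb
      fc := hfc
      fjb := hfjb
      du_pt := hdu
      cnt := by
        intro i j hij
        rw [Finset.card_le_one]
        intro q hq q' hq'
        have h1 := (Finset.mem_filter.mp hq).2
        have h2 := (Finset.mem_filter.mp hq').2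
        exact hcnt i j hij q q' h1.1 h1.2 h2.1 h2.2 }
  refine ⟨M.card, T, rfl, ⟨?_, ?_⟩, h3, ?_, ?_⟩
  · -- nodes are distinct
    intro i D D' hD hD' ht
    set t := T.tn i D with htdef
    set x : Fin 3 → ℂ := pa i + t • pb i with hx
    have hxi : form i ⬝ᵥ x = 0 := by
      rw [hx, dotProduct_add, dotProduct_smul, hfa, hfb]; simp
    have hx0 : x ≠ 0 := by
      intro h0
      have h1 := congrArg (fun v => du i ⬝ᵥ v) h0
      simp only [hx, dotProduct_add, dotProduct_smul, hua, hub, smul_eq_mul, mul_zero, add_zero,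
        dotProduct_zero] at h1
      exact one_ne_zero h1
    have hinl : ∀ j, i ≠ j → T.tn i (Sum.inl j) = t → form j ⬝ᵥ x = 0 := by
      intro j hij h
      have h1 : -(form j ⬝ᵥ pa i) / (form j ⬝ᵥ pb i) = t := h
      have h2 := hfjb i j hij
      rw [hx, dotProduct_add, dotProduct_smul, ← h1, smul_eq_mul, div_mul_cancel₀ _ h2,
        add_neg_cancel]
    have hinr : ∀ q, i ∈ thr form (pt q) → T.tn i (Sum.inr q) = t →
        thr form x = thr form (pt q) := by
      intro q hi h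
      have h1 : (dv i ⬝ᵥ pt q) / (du i ⬝ᵥ pt q) = t := h
      have h2 := hdu i q hi
      have h4 : pt q = (du i ⬝ᵥ pt q) • x := by
        conv_lhs => rw [hvec i (pt q) (mem_thr.mp hi)]
        rw [hx, smul_add, smul_smul, ← h1, mul_div_cancel₀ _ h2]
      rw [h4, thr_smul h2]
    rcases D with j | q <;> rcases D' with j' | q'
    · have hd : T.dbl i j := hD
      have hd' : T.dbl i j' := hD'
      have h1 := hinl j hd.1 htdef.symm
      have h2 := hinl j' hd'.1 ht.symm
      by_contra hne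
      have hjj : j ≠ j' := fun h => hne (by rw [h])
      have h4 : 3 ≤ (thr form x).card := by
        have h5 : ({i, j, j'} : Finset (Fin k)) ⊆ thr form x := by
          intro l hl
          rw [Finset.mem_insert, Finset.mem_insert, Finset.mem_singleton] at hl
          rw [mem_thr]
          rcases hl with rfl | rfl | rfl
          · exact hxi
          · exact h1
          · exact h2
        have h6 := Finset.card_le_card h5
        rwa [Finset.card_eq_three.mpr ⟨i, j, j', hd.1, hd'.1, hjj, rfl⟩] at h6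
      have h5 := hM' x hx0 h4
      have h6 : thr form (pt (e ⟨_, h5⟩)) = thr form x := by
        rw [hptr, Equiv.symm_apply_apply]
      refine hd.2 (e ⟨_, h5⟩) ⟨?_, ?_⟩
      · change i ∈ thr form (pt _)
        rw [h6, mem_thr]; exact hxi
      · change j ∈ thr form (pt _)
        rw [h6, mem_thr]; exact h1
    · have hd : T.dbl i j := hD
      have h1 := hinl j hd.1 htdef.symm
      have h2 := hinr q' hD' ht.symm
      exfalso
      refine hd.2 q' ⟨hD', ?_⟩
      change j ∈ thr form (pt q')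
      rw [← h2, mem_thr]; exact h1
    · have hd : T.dbl i j' := hD'
      have h1 := hinl j' hd.1 ht.symm
      have h2 := hinr q hD htdef.symm
      exfalso
      refine hd.2 q ⟨hD, ?_⟩
      change j' ∈ thr form (pt q)
      rw [← h2, mem_thr]; exact h1
    · have h1 := hinr q hD htdef.symm
      have h2 := hinr q' hD' ht.symm
      rw [hcard q q' (h1.symm.trans h2)]
  · intro q
    exact Finset.card_pos.mp (by have := h3 q; change 0 < (thr form (pt q)).card; omega)
  · intro q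
    obtain ⟨w, hw⟩ := hnc (pt q) (hpt q)
    exact ⟨w, fun h => hw (mem_thr.mp h)⟩
  · intro p hp h3
    have h5 := hM' p hp h3
    have h6 : thr form (pt (e ⟨_, h5⟩)) = thr form p := by
      rw [hptr, Equiv.symm_apply_apply]
    obtain ⟨i, hi, j, hj, hij⟩ := Finset.one_lt_card.mp (by omega : 1 < (thr form p).card)
    have hi' := hi
    have hj' := hj
    rw [← h6] at hi' hj'
    obtain ⟨s, hs, h⟩ := same_point hind hij hp (hpt _) (mem_thr.mp hi) (mem_thr.mp hj)
      (mem_thr.mp hi') (mem_thr.mp hj')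
    exact ⟨_, s, hs, h⟩

end

end

end Pool.Agent.H94_gen
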