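import Pool.Agent.H94_gen.LBV

/-!
# Vanishing for divisor classes
-/

namespace Pool.Agent.H94_gen

open MvPolynomial

noncomputable section

set_option linter.unusedSectionVars false

variable {𝕜 : Type} [Field 𝕜]

namespace TConf

variable {k r : ℕ} [Infinite 𝕜] (T : TConf 𝕜 k r)

/-- Vanishing of the first cohomology for the class `τ H + ∑ ε_q E_q`. -/
def LBVc (τ : ℤ) (ε : Fin r → ℕ) : Prop :=
  ∃ b : ℕ, ∀ (A : Crv k r → ℕ) (e : ℕ), (∀ i, b ≤ A (Sum.inl i)) →
    (e : ℤ) = τ + ∑ i, (A (Sum.inl i) : ℤ) →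
    (∀ q, A (Sum.inr q) + ε q = ∑ i ∈ T.tri q, A (Sum.inl i)) → T.LBV e A

theorem LBV_raise {e : ℕ} (n : ℕ) : ∀ (A A' : Crv k r → ℕ), T.LBV e A →
    (∀ i, A' (Sum.inl i) = A (Sum.inl i)) → (∀ q, A (Sum.inr q) ≤ A' (Sum.inr q)) →
    (∀ q, A' (Sum.inr q) ≤ ∑ i ∈ T.tri q, A (Sum.inl i)) →
    ∑ q, (A' (Sum.inr q) - A (Sum.inr q)) = n → T.LBV e A' := by
  induction n with
  | zero =>
    intro A A' h h1 h2 h3 h4
    have : A' = A := by
      funext D
      rcases D with i | q
      · exact h1 i
      · have h5 := Finset.sum_eq_zero_iff.mp h4 q (Finset.mem_univ q)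
        have h6 := h2 q
        omega
    rwa [this]
  | succ n ih =>
    intro A A' h h1 h2 h3 h4
    have h5 : ∃ q, A (Sum.inr q) < A' (Sum.inr q) := by
      by_contra hcon
      push Not at hcon
      rw [Finset.sum_eq_zero (fun q _ => by have := hcon q; omega)] at h4
      omega
    obtain ⟨q, hq⟩ := h5
    have h6 := T.LBV_stepE q h (lt_of_lt_of_le hq (h3 q))
    refine ih _ A' h6 ?_ ?_ ?_ ?_
    · intro i
      rw [Function.update_of_ne Sum.inl_ne_inr]; exact h1 i
    · intro q'
      by_cases hqq : q' = q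
      · subst hqq; rw [Function.update_self]; exact hq
      · rw [Function.update_of_ne (fun h => hqq (Sum.inr_injective h))]; exact h2 q'
    · intro q'
      refine (h3 q').trans (le_of_eq (Finset.sum_congr rfl fun i _ => ?_))
      rw [Function.update_of_ne Sum.inl_ne_inr]
    · rw [← Finset.add_sum_erase _ _ (Finset.mem_univ q)] at h4 ⊢
      rw [Function.update_self]
      have h7 : ∑ x ∈ Finset.univ.erase q, (A' (Sum.inr x) -
          Function.update A (Sum.inr q) (A (Sum.inr q) + 1) (Sum.inr x)) =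
          ∑ x ∈ Finset.univ.erase q, (A' (Sum.inr x) - A (Sum.inr x)) := by
        refine Finset.sum_congr rfl fun x hx => ?_
        rw [Function.update_of_ne (fun h => Finset.ne_of_mem_erase hx (Sum.inr_injective h))]
      rw [h7]
      omega

/-- Genericity and completeness of the data. -/
structure Ok : Prop where
  good : T.Good
  ne : ∀ q, (T.tri q).Nonempty

theorem LBVc_mono {τ : ℤ} {ε ε' : Fin r → ℕ} (hok : T.Ok) (h : T.LBVc τ ε')
    (hle : ∀ q, ε q ≤ ε' q) : T.LBVc τ ε := by
  obtain ⟨b, hb⟩ := h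
  refine ⟨b + ∑ q, ε' q, fun A e hA he hq => ?_⟩
  have h1 : ∀ q, ε' q ≤ ∑ i ∈ T.tri q, A (Sum.inl i) := by
    intro q
    obtain ⟨i, hi⟩ := hok.ne q
    have h2 : A (Sum.inl i) ≤ ∑ i ∈ T.tri q, A (Sum.inl i) :=
      Finset.single_le_sum (f := fun i => A (Sum.inl i)) (fun _ _ => Nat.zero_le _) hi
    have h3 : ε' q ≤ ∑ q, ε' q :=
      Finset.single_le_sum (f := fun q => ε' q) (fun _ _ => Nat.zero_le _) (Finset.mem_univ q)
    have h4 := hA i
    omega
  let A' : Crv k r → ℕ := fun D => match D with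
    | Sum.inl i => A (Sum.inl i)
    | Sum.inr q => ∑ i ∈ T.tri q, A (Sum.inl i) - ε' q
  have h5 : T.LBV e A' := by
    refine hb A' e (fun i => ?_) he (fun q => ?_)
    · have := hA i
      change b ≤ A (Sum.inl i)
      omega
    · change ∑ i ∈ T.tri q, A (Sum.inl i) - ε' q + ε' q = ∑ i ∈ T.tri q, A (Sum.inl i)
      have := h1 q
      omega
  refine T.LBV_raise _ A' A h5 (fun _ => rfl) (fun q => ?_) (fun q => ?_) rfl
  · change ∑ i ∈ T.tri q, A (Sum.inl i) - ε' q ≤ A (Sum.inr q)
    have := hq q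
    have := hle q
    omega
  · change A (Sum.inr q) ≤ ∑ i ∈ T.tri q, A (Sum.inl i)
    have := hq q
    omega

/-- Decrease the order along line `i`. -/
def dec (A : Crv k r → ℕ) (i : Fin k) : Crv k r → ℕ :=
  Function.update A (Sum.inl i) (A (Sum.inl i) - 1)

theorem update_dec (A : Crv k r → ℕ) (i : Fin k) (h : 1 ≤ A (Sum.inl i)) :
    Function.update (dec A i) (Sum.inl i) (dec A i (Sum.inl i) + 1) = A := by
  funext D
  by_cases hD : D = Sum.inl i
  · subst hD
    rw [Function.update_self, dec, Function.update_self]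
    omega
  · rw [Function.update_of_ne hD, dec, Function.update_of_ne hD]

theorem dec_inr (A : Crv k r → ℕ) (i : Fin k) (q : Fin r) :
    dec A i (Sum.inr q) = A (Sum.inr q) := by
  rw [dec, Function.update_of_ne Sum.inr_ne_inl]

theorem dec_sum_tri (A : Crv k r → ℕ) (i : Fin k) (h : 1 ≤ A (Sum.inl i)) (s : Finset (Fin k)) :
    (∑ j ∈ s, dec A i (Sum.inl j)) + (if i ∈ s then 1 else 0) = ∑ j ∈ s, A (Sum.inl j) := by
  split_ifs with hi
  · rw [← Finset.add_sum_erase _ _ hi, ← Finset.add_sum_erase _ (fun j => A (Sum.inl j)) hi]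
    have h1 : ∑ x ∈ s.erase i, dec A i (Sum.inl x) = ∑ x ∈ s.erase i, A (Sum.inl x) := by
      refine Finset.sum_congr rfl fun x hx => ?_
      rw [dec, Function.update_of_ne (fun h => Finset.ne_of_mem_erase hx (Sum.inl_injective h))]
    rw [h1]
    have h2 : dec A i (Sum.inl i) = A (Sum.inl i) - 1 := by rw [dec, Function.update_self]
    rw [h2]
    omega
  · rw [add_zero]
    refine Finset.sum_congr rfl fun x hx => ?_
    rw [dec, Function.update_of_ne]
    intro h
    have := Sum.inl_injective h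
    subst this
    exact hi hx

theorem sum_nodes_inr (i : Fin k) (F : Fin r → ℕ) :
    ∑ D ∈ T.nodes i, (Sum.elim (fun _ => 0) F D : ℕ) =
      ∑ q ∈ Finset.univ.filter (fun q => i ∈ T.tri q), F q := by
  rw [nodes, Finset.sum_filter, Fintype.sum_sum_type, Finset.sum_filter]
  simp only [Sum.elim_inl, Sum.elim_inr, meet]
  rw [Finset.sum_eq_zero (fun j _ => ite_self 0), zero_add]

/-- Adding a line with negative intersection number. -/
theorem LBVc_neg {τ : ℤ} {ε : Fin r → ℕ} (hok : T.Ok) (i : Fin k) (h : T.LBVc (τ + 1) ε)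
    (hneg : τ + 1 + ((∑ q ∈ Finset.univ.filter (fun q => i ∈ T.tri q), ε q : ℕ) : ℤ) < 0) :
    T.LBVc τ (fun q => ε q + if i ∈ T.tri q then 1 else 0) := by
  obtain ⟨b, hb⟩ := h
  refine ⟨b + 1, fun A e hA he hq => ?_⟩
  have hAi : 1 ≤ A (Sum.inl i) := by have := hA i; omega
  have hsum := dec_sum_tri A i hAi Finset.univ
  rw [if_pos (Finset.mem_univ i)] at hsum
  have hsum' : (∑ j, (dec A i (Sum.inl j) : ℤ)) + 1 = ∑ j, (A (Sum.inl j) : ℤ) := by
    exact_mod_cast hsum
  have hq' : ∀ q, dec A i (Sum.inr q) + ε q = ∑ j ∈ T.tri q, dec A i (Sum.inl j) := by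
    intro q
    have h1 := dec_sum_tri A i hAi (T.tri q)
    have h2 : A (Sum.inr q) + (ε q + if i ∈ T.tri q then 1 else 0) =
      ∑ i ∈ T.tri q, A (Sum.inl i) := hq q
    rw [dec_inr]
    omega
  have h1 : T.LBV e (dec A i) := by
    refine hb _ e (fun j => ?_) ?_ hq'
    · by_cases hj : j = i
      · subst hj
        rw [dec, Function.update_self]
        have := hA j; omega
      · rw [dec, Function.update_of_ne (fun h => hj (Sum.inl_injective h))]
        have := hA j; omega
    · rw [he, ← hsum']; ring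
  rw [← update_dec A i hAi]
  refine T.LBV_stepL_neg i hok.good h1 ?_
  have h2 : ∑ D ∈ T.nodes i, T.fs (fun j => dec A i (Sum.inl j)) i D ≤
      ∑ D ∈ T.nodes i, nu (dec A i) i D + ∑ D ∈ T.nodes i, (Sum.elim (fun _ => 0) ε D : ℕ) := by
    rw [← Finset.sum_add_distrib]
    refine Finset.sum_le_sum fun D hD => ?_
    rw [mem_nodes] at hD
    rcases D with j | q
    · simp [fs, nu]
    · change i ∈ T.tri q at hD
      simp only [fs, nu, Sum.elim_inr]
      have h3 := hq' q
      have h4 : dec A i (Sum.inl i) + ∑ j ∈ (T.tri q).erase i, dec A i (Sum.inl j) =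
          ∑ j ∈ T.tri q, dec A i (Sum.inl j) :=
        Finset.add_sum_erase (T.tri q) (fun j => dec A i (Sum.inl j)) hD
      omega
  rw [← sum_erase, sum_nodes_inr] at h2
  have h3 : dec A i (Sum.inl i) + ∑ j ∈ Finset.univ.erase i, dec A i (Sum.inl j) =
      ∑ j, dec A i (Sum.inl j) :=
    Finset.add_sum_erase Finset.univ (fun j => dec A i (Sum.inl j)) (Finset.mem_univ i)
  have h5 : ((∑ j, dec A i (Sum.inl j) : ℕ) : ℤ) + 1 = ∑ j, (A (Sum.inl j) : ℤ) := by
    rw [← hsum']; push_cast; ring
  zify at h2 h3 ⊢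
  push_cast at h5 hneg
  linarith

/-- Adding a line in the surjective case. -/
theorem LBVc_surj {τ : ℤ} {ε : Fin r → ℕ} (hok : T.Ok) (i : Fin k) (h : T.LBVc (τ + 1) ε)
    (h0 : ∀ q, i ∈ T.tri q → ε q = 0) :
    T.LBVc τ (fun q => ε q + if i ∈ T.tri q then 1 else 0) := by
  obtain ⟨b, hb⟩ := h
  refine ⟨b + 1, fun A e hA he hq => ?_⟩
  have hAi : 1 ≤ A (Sum.inl i) := by have := hA i; omega
  have hsum := dec_sum_tri A i hAi Finset.univ
  rw [if_pos (Finset.mem_univ i)] at hsum
  have hsum' : (∑ j, (dec A i (Sum.inl j) : ℤ)) + 1 = ∑ j, (A (Sum.inl j) : ℤ) := by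
    exact_mod_cast hsum
  have hq' : ∀ q, dec A i (Sum.inr q) + ε q = ∑ j ∈ T.tri q, dec A i (Sum.inl j) := by
    intro q
    have h1 := dec_sum_tri A i hAi (T.tri q)
    have h2 : A (Sum.inr q) + (ε q + if i ∈ T.tri q then 1 else 0) =
      ∑ i ∈ T.tri q, A (Sum.inl i) := hq q
    rw [dec_inr]
    omega
  have h1 : T.LBV e (dec A i) := by
    refine hb _ e (fun j => ?_) ?_ hq'
    · by_cases hj : j = i
      · subst hj
        rw [dec, Function.update_self]
        have := hA j; omega
      · rw [dec, Function.update_of_ne (fun h => hj (Sum.inl_injective h))]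
        have := hA j; omega
    · rw [he, ← hsum']; ring
  rw [← update_dec A i hAi]
  refine T.LBV_stepL_surj i hok.good h1 (fun q hqi => ?_) (fun q => ?_)
  · have := hq' q
    have := h0 q hqi
    omega
  · have := hq' q
    omega

theorem LBVc_zero (hok : T.Ok) (τ : ℤ) : T.LBVc τ (fun _ => 0) := by
  refine ⟨0, ?_⟩
  suffices H : ∀ (s : ℕ) (A : Crv k r → ℕ) (e : ℕ), ∑ i, A (Sum.inl i) = s →
      (∀ q, A (Sum.inr q) = ∑ i ∈ T.tri q, A (Sum.inl i)) → T.LBV e A by
    intro A e _ _ hq
    exact H _ A e rfl (fun q => by have := hq q; omega)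
  intro s
  induction s with
  | zero =>
    intro A e hs hq
    have h1 : ∀ i, A (Sum.inl i) = 0 := fun i =>
      Finset.sum_eq_zero_iff.mp hs i (Finset.mem_univ i)
    have : A = fun _ => 0 := by
      funext D
      rcases D with i | q
      · exact h1 i
      · rw [hq q]; exact Finset.sum_eq_zero fun i _ => h1 i
    rw [this]; exact T.LBV_zero e
  | succ s ih =>
    intro A e hs hq
    have h5 : ∃ i, 1 ≤ A (Sum.inl i) := by
      by_contra hcon
      push Not at hcon
      rw [Finset.sum_eq_zero (fun i _ => by have := hcon i; omega)] at hs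
      omega
    obtain ⟨i, hi⟩ := h5
    let A1 : Crv k r → ℕ := fun D => match D with
      | Sum.inl j => dec A i (Sum.inl j)
      | Sum.inr q => ∑ j ∈ T.tri q, dec A i (Sum.inl j)
    have hsum := dec_sum_tri A i hi Finset.univ
    rw [if_pos (Finset.mem_univ i), hs] at hsum
    have h1 : T.LBV e A1 := ih A1 e (by
      change ∑ j, dec A i (Sum.inl j) = s
      omega) (fun q => rfl)
    have h2 := T.LBV_stepL_surj i hok.good h1 (fun q _ => rfl) (fun q => le_rfl)
    refine T.LBV_raise _ _ A h2 (fun j => ?_) (fun q => ?_) (fun q => ?_) rfl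
    · by_cases hj : j = i
      · subst hj
        rw [Function.update_self]
        change A (Sum.inl j) = dec A j (Sum.inl j) + 1
        rw [dec, Function.update_self]; omega
      · rw [Function.update_of_ne (fun h => hj (Sum.inl_injective h))]
        change A (Sum.inl j) = dec A i (Sum.inl j)
        rw [dec, Function.update_of_ne (fun h => hj (Sum.inl_injective h))]
    · rw [Function.update_of_ne Sum.inr_ne_inl, hq q]
      change ∑ j ∈ T.tri q, dec A i (Sum.inl j) ≤ _
      have := dec_sum_tri A i hi (T.tri q)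
      omega
    · rw [hq q]
      refine Finset.sum_le_sum fun j _ => ?_
      by_cases hj : j = i
      · subst hj
        rw [Function.update_self]
        change A (Sum.inl j) ≤ dec A j (Sum.inl j) + 1
        rw [dec, Function.update_self]; omega
      · rw [Function.update_of_ne (fun h => hj (Sum.inl_injective h))]
        change A (Sum.inl j) ≤ dec A i (Sum.inl j)
        rw [dec, Function.update_of_ne (fun h => hj (Sum.inl_injective h))]

theorem LBVc_base (hok : T.Ok) (n : ℕ) : ∀ (τ : ℤ) (ε : Fin r → ℕ), (∀ q, ε q ≤ 1) →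
    ∑ q, ε q = n → T.LBVc τ ε := by
  induction n using Nat.strong_induction_on with
  | _ n ih =>
    intro τ ε hε hn
    by_cases h0 : ∀ q, ε q = 0
    · have : ε = fun _ => 0 := funext h0
      rw [this]; exact T.LBVc_zero hok τ
    · push Not at h0
      obtain ⟨q, hq⟩ := h0
      obtain ⟨i, hi⟩ := hok.ne q
      have h1 : T.LBVc (τ + 1) (fun p => if i ∈ T.tri p then 0 else ε p) := by
        refine ih _ ?_ (τ + 1) _ (fun p => ?_) rfl
        · rw [← hn]
          refine Finset.sum_lt_sum (fun p _ => ?_) ⟨q, Finset.mem_univ q, ?_⟩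
          · split_ifs <;> omega
          · rw [if_pos hi]; omega
        · have := hε p
          split_ifs <;> omega
      have h2 := T.LBVc_surj hok i h1 (fun p hp => by rw [if_pos hp])
      refine T.LBVc_mono hok h2 fun p => ?_
      have := hε p
      split_ifs <;> omega

/-- Removing the line `i` from a class. -/
theorem LBVc_remove {u : ℕ} {ε : Fin r → ℕ} (hok : T.Ok) (i : Fin k)
    (h : T.LBVc (-(u : ℤ)) (fun q => if i ∈ T.tri q then ε q - 1 else ε q))
    (hneg : (∑ q ∈ Finset.univ.filter (fun q => i ∈ T.tri q), (ε q - 1)) < u) :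
    T.LBVc (-((u + 1 : ℕ) : ℤ)) ε := by
  have h1 : (-((u + 1 : ℕ) : ℤ)) + 1 = -(u : ℤ) := by push_cast; ring
  rw [← h1] at h
  have h2 := T.LBVc_neg hok i h (by
    rw [h1]
    have h3 : ∑ q ∈ Finset.univ.filter (fun q => i ∈ T.tri q),
        (if i ∈ T.tri q then ε q - 1 else ε q) =
        ∑ q ∈ Finset.univ.filter (fun q => i ∈ T.tri q), (ε q - 1) :=
      Finset.sum_congr rfl fun q hq => by rw [if_pos (Finset.mem_filter.mp hq).2]
    rw [h3]
    omega)
  refine T.LBVc_mono hok h2 fun q => ?_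
  by_cases hi : i ∈ T.tri q
  · simp only [hi, if_true]; omega
  · simp only [hi, if_false]; omega

/-- A certificate for vanishing: the list of lines to remove. -/
def run (inc : Fin k → Fin r → Bool) : List (Fin k) → ℕ → (Fin r → ℕ) → Bool
  | [], _, ε => decide (∀ q, ε q ≤ 1)
  | i :: l, u, ε => match u with
    | 0 => false
    | u + 1 => decide ((∑ q, if inc i q then ε q - 1 else 0) < u) &&
        run inc l u (fun q => if inc i q then ε q - 1 else ε q)

theorem LBVc_of_run (hok : T.Ok) (inc : Fin k → Fin r → Bool)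
    (hinc : ∀ i q, inc i q = true ↔ i ∈ T.tri q) (l : List (Fin k)) :
    ∀ (u : ℕ) (ε : Fin r → ℕ), run inc l u ε = true → T.LBVc (-(u : ℤ)) ε := by
  induction l with
  | nil =>
    intro u ε h
    rw [run, decide_eq_true_eq] at h
    exact T.LBVc_base hok _ _ ε h rfl
  | cons i l ih =>
    intro u ε h
    cases u with
    | zero => simp [run] at h
    | succ u =>
      rw [run, Bool.and_eq_true, decide_eq_true_eq] at h
      have h1 := ih u _ h.2
      apply T.LBVc_remove hok i
      · convert h1 using 2 with q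
        simp only [hinc]
      · have h2 := h.1
        rw [Finset.sum_filter]
        convert h2 using 2 with q
        simp only [hinc]

end TConf

end

end Pool.Agent.H94_gen
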