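import Pool.Agent.H94_gen.AuxLine

/-!
# Dual bases and the fibre criterion
-/

namespace Pool.Agent.H94_gen

open MvPolynomial

noncomputable section

set_option linter.unusedSectionVars false

variable {𝕜 : Type} [Field 𝕜]

theorem exists_dual (f pa pb pc : Fin 3 → 𝕜) (hfa : f ⬝ᵥ pa = 0) (hfb : f ⬝ᵥ pb = 0)
    (hfc : f ⬝ᵥ pc = 1) (hind : LinearIndependent 𝕜 ![pa, pb]) : ∃ du dv : Fin 3 → 𝕜,
    (∀ j, (Pi.single j 1 : Fin 3 → 𝕜) = (pc j) • f + (pa j) • du + (pb j) • dv) ∧
    du ⬝ᵥ pa = 1 ∧ du ⬝ᵥ pb = 0 ∧ dv ⬝ᵥ pa = 0 ∧ dv ⬝ᵥ pb = 1 := by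
  let M : Matrix (Fin 3) (Fin 3) 𝕜 := Matrix.of ![pc, pa, pb]
  have hM : IsUnit M := by
    rw [← Matrix.linearIndependent_rows_iff_isUnit]
    rw [Fintype.linearIndependent_iff]
    intro g hg
    have h1 : g 0 • pc + g 1 • pa + g 2 • pb = 0 := by
      rw [Fin.sum_univ_three] at hg
      exact hg
    have h2 := congrArg (fun v => f ⬝ᵥ v) h1
    simp only [dotProduct_add, dotProduct_smul, hfa, hfb, hfc, smul_eq_mul, mul_one, mul_zero,
      add_zero, dotProduct_zero] at h2
    rw [h2, zero_smul, zero_add] at h1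
    have h3 := LinearIndependent.pair_iff.mp hind (g 1) (g 2) h1
    intro i
    fin_cases i
    · exact h2
    · exact h3.1
    · exact h3.2
  obtain ⟨Mi, hMi⟩ : ∃ Mi : Matrix (Fin 3) (Fin 3) 𝕜, M * Mi = 1 ∧ Mi * M = 1 := by
    obtain ⟨u, hu⟩ := hM
    exact ⟨↑u⁻¹, by rw [← hu]; simp, by rw [← hu]; simp⟩
  -- columns of the inverse
  have hfM : ∀ m, Mi m 0 = f m := by
    intro m
    have h1 : M.mulVec f = Pi.single 0 1 := by
      funext i
      fin_cases i
      · change pc ⬝ᵥ f = 1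
        rw [dotProduct_comm]; exact hfc
      · change pa ⬝ᵥ f = 0
        rw [dotProduct_comm]; exact hfa
      · change pb ⬝ᵥ f = 0
        rw [dotProduct_comm]; exact hfb
    have h2 := congrArg (fun v => Mi.mulVec v) h1
    simp only [Matrix.mulVec_mulVec, hMi.2, Matrix.one_mulVec] at h2
    rw [h2]
    simp [Matrix.mulVec_single]
  refine ⟨fun m => Mi m 1, fun m => Mi m 2, ?_, ?_, ?_, ?_, ?_⟩
  · intro j
    funext m
    have h1 := congrFun (congrFun hMi.2 m) j
    rw [Matrix.mul_apply, Fin.sum_univ_three, hfM, Matrix.one_apply] at h1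
    have e0 : M 0 j = pc j := rfl
    have e1 : M 1 j = pa j := rfl
    have e2 : M 2 j = pb j := rfl
    rw [e0, e1, e2] at h1
    rw [Pi.single_apply]
    simp only [Pi.add_apply, Pi.smul_apply, smul_eq_mul]
    rw [← h1]
    ring
  · have h1 := congrFun (congrFun hMi.1 1) 1
    rw [Matrix.mul_apply, Matrix.one_apply_eq] at h1
    rw [← h1]
    exact Finset.sum_congr rfl fun m _ => mul_comm _ _
  · have h1 := congrFun (congrFun hMi.1 2) 1
    rw [Matrix.mul_apply, Matrix.one_apply_ne (by decide)] at h1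
    rw [← h1]
    exact Finset.sum_congr rfl fun m _ => mul_comm _ _
  · have h1 := congrFun (congrFun hMi.1 1) 2
    rw [Matrix.mul_apply, Matrix.one_apply_ne (by decide)] at h1
    rw [← h1]
    exact Finset.sum_congr rfl fun m _ => mul_comm _ _
  · have h1 := congrFun (congrFun hMi.1 2) 2
    rw [Matrix.mul_apply, Matrix.one_apply_eq] at h1
    rw [← h1]
    exact Finset.sum_congr rfl fun m _ => mul_comm _ _

/-- A form through two points, normalized at a third one. -/
theorem exists_form (pa pb : Fin 3 → 𝕜) (hind : LinearIndependent 𝕜 ![pa, pb]) :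
    ∃ f pc : Fin 3 → 𝕜, f ⬝ᵥ pa = 0 ∧ f ⬝ᵥ pb = 0 ∧ f ⬝ᵥ pc = 1 := by
  have h1 : crossProduct pa pb ≠ 0 := by
    intro h0
    have h2 := crossProduct_ne_zero_iff_linearIndependent.mpr hind
    exact h2 h0
  have h2 : ∃ j, crossProduct pa pb j ≠ 0 := by
    by_contra h
    push Not at h
    exact h1 (funext h)
  obtain ⟨j, hj⟩ := h2
  refine ⟨crossProduct pa pb, Pi.single j (crossProduct pa pb j)⁻¹, ?_, ?_, ?_⟩
  · rw [dotProduct_comm]; exact dot_self_cross pa pb
  · rw [dotProduct_comm]; exact dot_cross_self pa pb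
  · rw [dotProduct_single]
    exact mul_inv_cancel₀ hj

namespace TConf

variable {k r : ℕ} [Infinite 𝕜] {T : TConf 𝕜 k r}

/-- The removal rule for a set of points. -/
def Rem (T : TConf 𝕜 k r) (S : Finset (Fin r)) : Prop :=
  ∀ (u : ℕ) (ε : Fin r → ℕ), T.LBVc (-(u : ℤ)) (fun x => if x ∈ S then ε x - 1 else ε x) →
    ∑ x ∈ S, (ε x - 1) < u → T.LBVc (-((u + 1 : ℕ) : ℤ)) ε

theorem Rem_line (hok : T.Ok) (i : Fin k) :
    T.Rem (Finset.univ.filter fun x => i ∈ T.tri x) := by
  intro u ε h hlt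
  refine T.LBVc_remove hok i ?_ hlt
  simpa using h

theorem Rem_aux (hok : T.Ok) (hk : 2 ≤ k) (M : AuxLine T) : T.Rem M.S := by
  intro u ε h hlt
  have h1 : (-((u + 1 : ℕ) : ℤ)) + 1 = -(u : ℤ) := by push_cast; ring
  rw [← h1] at h
  have h2 := M.LBVc_neg hok hk h (by
    rw [h1]
    have h3 : ∑ x ∈ M.S, (if x ∈ M.S then ε x - 1 else ε x) = ∑ x ∈ M.S, (ε x - 1) :=
      Finset.sum_congr rfl fun x hx => by rw [if_pos hx]
    rw [h3]
    omega)
  refine T.LBVc_mono hok h2 fun q => ?_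
  by_cases hi : q ∈ M.S
  · simp only [hi, if_true]; omega
  · simp only [hi, if_false]; omega

theorem LBVc_single (hok : T.Ok) (q : Fin r) {g : ℕ} (hg : 1 ≤ g) (e : ℕ) :
    T.LBVc (-((e + g : ℕ) : ℤ)) (Pi.single q e) := by
  induction e with
  | zero =>
    rw [Pi.single_zero]
    exact T.LBVc_zero hok _
  | succ e ih =>
    obtain ⟨i, hi⟩ := hok.ne q
    have h1 := T.Rem_line hok i (e + g) (Pi.single q (e + 1)) (by
      convert ih using 2
      rename_i x
      by_cases hx : x = q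
      · subst hx; simp [hi]
      · simp [hx]) (by
      rw [Finset.sum_eq_single q]
      · simp; omega
      · intro x _ hx; simp [hx]
      · intro h; exact absurd (Finset.mem_filter.mpr ⟨Finset.mem_univ q, hi⟩) h)
    have h2 : e + 1 + g = e + g + 1 := by ring
    rw [h2]
    exact h1

/-- The fibre criterion. -/
theorem fibre (hok : T.Ok) (q : Fin r) {g : ℕ} (hg : 1 ≤ g) (n : ℕ) : ∀ ε : Fin r → ℕ,
    ∑ x ∈ Finset.univ.erase q, ε x = n → n ≤ ε q →
    (∀ x, x ≠ q → ∃ S, T.Rem S ∧ q ∈ S ∧ x ∈ S ∧ ∑ y ∈ S.erase q, (ε y - 1) + 1 ≤ g) →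
    T.LBVc (-((ε q + g : ℕ) : ℤ)) ε := by
  induction n using Nat.strong_induction_on with
  | _ n ih =>
    intro ε hn hq hS
    by_cases h0 : ∀ x, x ≠ q → ε x = 0
    · have h1 : ε = Pi.single q (ε q) := by
        funext x
        by_cases hx : x = q
        · subst hx; simp
        · rw [Pi.single_eq_of_ne hx, h0 x hx]
      have h2 := T.LBVc_single hok q hg (ε q)
      rw [← h1] at h2
      exact h2
    · push Not at h0
      obtain ⟨x, hx, hx0⟩ := h0
      obtain ⟨S, hS1, hS2, hS3, hS4⟩ := hS x hx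
      have hnpos : ε x ≤ n := by
        rw [← hn]
        exact Finset.single_le_sum (f := ε) (fun _ _ => Nat.zero_le _)
          (Finset.mem_erase.mpr ⟨hx, Finset.mem_univ x⟩)
      set ε' : Fin r → ℕ := fun y => if y ∈ S then ε y - 1 else ε y with hε'
      have hle : ∀ y, ε' y ≤ ε y := by
        intro y
        rw [hε']
        change (if y ∈ S then ε y - 1 else ε y) ≤ ε y
        split_ifs <;> omega
      have hq' : ε' q = ε q - 1 := by
        rw [hε']; exact if_pos hS2
      have hlt : ∑ y ∈ Finset.univ.erase q, ε' y < n := by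
        rw [← hn]
        refine Finset.sum_lt_sum (fun y _ => hle y) ⟨x, Finset.mem_erase.mpr
          ⟨hx, Finset.mem_univ x⟩, ?_⟩
        have : ε' x = ε x - 1 := by rw [hε']; exact if_pos hS3
        omega
      have h1 := ih _ hlt ε' rfl (by omega) (by
        intro y hy
        obtain ⟨S', h1, h2, h3, h4⟩ := hS y hy
        refine ⟨S', h1, h2, h3, le_trans ?_ h4⟩
        have : ∑ z ∈ S'.erase q, (ε' z - 1) ≤ ∑ z ∈ S'.erase q, (ε z - 1) :=
          Finset.sum_le_sum fun z _ => by have := hle z; omega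
        omega)
      have h2 := hS1 (ε' q + g) ε h1 (by
        rw [← Finset.add_sum_erase S _ hS2]
        omega)
      have h3 : ε' q + g + 1 = ε q + g := by omega
      rw [h3] at h2
      exact h2

theorem tq_eq_of_pt {l : Fin k} {x y : Fin r} (hx : l ∈ T.tri x) (hy : l ∈ T.tri y) {s : 𝕜}
    (h : T.pt x = s • T.pt y) : T.tq l x = T.tq l y := by
  have hx1 := T.du_pt l x hx
  have hy1 := T.du_pt l y hy
  rw [tq, tq, div_eq_div_iff hx1 hy1, h, dotProduct_smul, dotProduct_smul, smul_eq_mul,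
    smul_eq_mul]
  ring

theorem pt_indep (hok : T.Ok) {x y : Fin r} (hxy : x ≠ y) :
    LinearIndependent 𝕜 ![T.pt x, T.pt y] := by
  rw [LinearIndependent.pair_iff]
  intro s t hst
  by_contra hne
  have key : ∀ x y : Fin r, x ≠ y → ∀ s t : 𝕜, s • T.pt x + t • T.pt y = 0 → s ≠ 0 → False := by
    intro x y hxy s t hst hs
    have h1 : T.pt x = (-(t / s)) • T.pt y := by
      have h2 : s⁻¹ • (s • T.pt x + t • T.pt y) = 0 := by rw [hst, smul_zero]
      rw [smul_add, smul_smul, smul_smul, inv_mul_cancel₀ hs, one_smul] at h2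
      rw [neg_smul, div_eq_inv_mul]
      exact eq_neg_of_add_eq_zero_left h2
    obtain ⟨l, hl⟩ := hok.ne x
    have hc : -(t / s) ≠ 0 := by
      intro h0
      rw [h0, zero_smul] at h1
      exact T.pt_ne_zero x h1
    have hl' : l ∈ T.tri y := by
      rw [T.mem_tri] at hl ⊢
      rw [h1, dotProduct_smul, smul_eq_mul] at hl
      exact (mul_eq_zero.mp hl).resolve_left hc
    have h3 := hok.good l (Sum.inr x) (Sum.inr y) hl hl' (tq_eq_of_pt hl hl' h1)
    exact hxy (Sum.inr_injective h3)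
  by_cases hs : s = 0
  · have ht : t ≠ 0 := fun h => hne ⟨hs, h⟩
    exact key y x hxy.symm t s (by rw [add_comm]; exact hst) ht
  · exact key x y hxy s t hst hs

/-- Two points are on a line of the configuration or on an auxiliary line. -/
theorem exists_rem (hok : T.Ok) (hk : 2 ≤ k) {q x : Fin r} (hqx : x ≠ q) :
    (∃ i, i ∈ T.tri q ∧ i ∈ T.tri x) ∨ ∃ M : AuxLine T, q ∈ M.S ∧ x ∈ M.S ∧
      ∀ i, ∀ y ∈ M.S, ∀ y' ∈ M.S, y ≠ y' → i ∈ T.tri y → i ∉ T.tri y' := by
  by_cases h : ∃ i, i ∈ T.tri q ∧ i ∈ T.tri x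
  · exact Or.inl h
  right
  push Not at h
  have hind := T.pt_indep hok hqx.symm
  -- choose the point `pb`
  have hs : ∃ s : 𝕜, s ≠ 0 ∧ ∀ j, T.f j ⬝ᵥ (T.pt q + s • T.pt x) ≠ 0 := by
    classical
    let bad : Finset 𝕜 := insert 0 (Finset.univ.image fun j : Fin k =>
      -(T.f j ⬝ᵥ T.pt q) / (T.f j ⬝ᵥ T.pt x))
    obtain ⟨s, hs⟩ := Infinite.exists_notMem_finset bad
    refine ⟨s, fun h0 => hs (by rw [h0]; exact Finset.mem_insert_self _ _), fun j h0 => ?_⟩
    rw [dotProduct_add, dotProduct_smul, smul_eq_mul] at h0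
    by_cases hj : T.f j ⬝ᵥ T.pt x = 0
    · rw [hj, mul_zero, add_zero] at h0
      exact h j ((T.mem_tri j q).mpr h0) ((T.mem_tri j x).mpr hj)
    · apply hs
      refine Finset.mem_insert_of_mem (Finset.mem_image.mpr ⟨j, Finset.mem_univ j, ?_⟩)
      rw [div_eq_iff hj]
      linear_combination -h0
  obtain ⟨s, hs0, hs⟩ := hs
  set pb := T.pt q + s • T.pt x with hpb
  have hind2 : LinearIndependent 𝕜 ![T.pt q, pb] := by
    rw [LinearIndependent.pair_iff] at hind ⊢
    intro a b hab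
    have h1 : (a + b) • T.pt q + (b * s) • T.pt x = 0 := by
      rw [← hab, hpb, smul_add, smul_smul, add_smul]; abel
    obtain ⟨h2, h3⟩ := hind _ _ h1
    have hb : b = 0 := (mul_eq_zero.mp h3).resolve_right hs0
    rw [hb, add_zero] at h2
    exact ⟨h2, hb⟩
  obtain ⟨f, pc, hfa, hfb, hfc⟩ := exists_form (T.pt q) pb hind2
  obtain ⟨du, dv, hdec, h1, h2, h3, h4⟩ := exists_dual f (T.pt q) pb pc hfa hfb hfc hind2
  let U : TConf 𝕜 1 0 :=
    { f := fun _ => f
      tri := fun x => x.elim0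
      pt := fun x => x.elim0
      kap := fun x => x.elim0
      pa := fun _ => T.pt q
      pb := fun _ => pb
      pc := fun _ => pc
      du := fun _ => du
      dv := fun _ => dv
      mem_tri := fun _ x => x.elim0
      kap_pt := fun x => x.elim0
      decomp := fun _ j => hdec j
      fa := fun _ => hfa
      fb := fun _ => hfb
      ua := fun _ => h1
      ub := fun _ => h2
      va := fun _ => h3
      vb := fun _ => h4
      fc := fun _ => hfc
      fjb := fun i j hij => absurd (Subsingleton.elim i j) hij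
      du_pt := fun _ x => x.elim0
      cnt := fun i j hij => absurd (Subsingleton.elim i j) hij }
  let M : AuxLine T :=
    { U := U
      ne := hs
      S := by classical exact Finset.univ.filter fun y => f ⬝ᵥ T.pt y = 0
      memS := by intro y; simp [U] }
  refine ⟨M, ?_, ?_, ?_⟩
  · rw [M.memS]; exact hfa
  · rw [M.memS]
    change f ⬝ᵥ T.pt x = 0
    have h5 : f ⬝ᵥ pb = 0 := hfb
    rw [hpb, dotProduct_add, dotProduct_smul, hfa, zero_add, smul_eq_mul] at h5
    exact (mul_eq_zero.mp h5).resolve_left hs0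
  · intro i y hy y' hy' hne hi hi'
    rw [M.tl_eq_tx hok hy] at hi
    rw [M.tl_eq_tx hok hy'] at hi'
    exact hne (M.tx_inj hok hy hy' (hi.symm.trans hi'))

end TConf

end

end Pool.Agent.H94_gen
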