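import Pool.Agent.H94_gen.Dual

/-!
# Frobenius pull-back
-/

namespace Pool.Agent.H94_gen

open MvPolynomial

noncomputable section

set_option linter.unusedSectionVars false

variable {𝕜 : Type} [Field 𝕜]

/-- A multiplicity bound for powers. -/
theorem dvd_of_pow_dvd_pow {R : Type*} [CommRing R] [IsDomain R] {π x : R}
    (hπ : Prime π) {p m m' : ℕ} (hm : p * m < m' + p) (h : π ^ m' ∣ x ^ p) : π ^ m ∣ x := by
  rw [pow_dvd_iff_le_emultiplicity] at h ⊢
  rw [emultiplicity_pow hπ] at h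
  by_contra hcon
  push Not at hcon
  obtain ⟨e, he⟩ := ENat.ne_top_iff_exists.mp (ne_top_of_lt hcon)
  rw [← he] at h hcon
  have h1 : m' ≤ p * e := by exact_mod_cast h
  have h2 : e < m := by exact_mod_cast hcon
  have h3 : p * (e + 1) ≤ p * m := Nat.mul_le_mul_left _ h2
  rw [Nat.mul_succ] at h3
  omega

theorem exists_pth_root (p : ℕ) [Fact p.Prime] [CharP 𝕜 p] [IsAlgClosed 𝕜] {e : ℕ}
    (P : RK 𝕜) (hP : P.IsHomogeneous (p * e)) (hd : ∀ j, pderiv j P = 0) :
    ∃ R : RK 𝕜, R.IsHomogeneous e ∧ R ^ p = P := by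
  classical
  have hp : 0 < p := (Fact.out : p.Prime).pos
  have hdiv : ∀ d ∈ P.support, ∀ j, p ∣ d j := by
    intro d hd' j
    by_cases h0 : d j = 0
    · rw [h0]; exact dvd_zero p
    have h1 := congrArg (coeff (d - Finsupp.single j 1)) (hd j)
    rw [coeff_pderiv, coeff_zero, Finsupp.sub_add_single_one_cancel h0] at h1
    have h2 := (mul_eq_zero.mp h1).resolve_left (mem_support_iff.mp hd')
    rw [← CharP.cast_eq_zero_iff 𝕜 p]
    have h3 : (d - Finsupp.single j 1 : Fin 3 →₀ ℕ) j + 1 = d j := by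
      rw [Finsupp.tsub_apply, Finsupp.single_eq_same]
      omega
    rw [← h3]
    push_cast
    exact h2
  have hs : ∀ c : 𝕜, ∃ s : 𝕜, s ^ p = c := fun c => IsAlgClosed.exists_pow_nat_eq c hp
  choose s hs using hs
  refine ⟨∑ d ∈ P.support, monomial (d.mapRange (· / p) (Nat.zero_div p)) (s (coeff d P)),
    ?_, ?_⟩
  · refine IsHomogeneous.sum _ _ _ fun d hd' => ?_
    apply isHomogeneous_monomial
    have h1 := hP.degree_eq_sum_deg_support hd'
    have h2 : Finsupp.degree d = p * e := by rw [h1]; rfl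
    have h3 : p * Finsupp.degree (d.mapRange (· / p) (Nat.zero_div p)) = Finsupp.degree d := by
      rw [Finsupp.degree_eq_sum, Finsupp.degree_eq_sum, Finset.mul_sum]
      refine Finset.sum_congr rfl fun j _ => ?_
      rw [Finsupp.mapRange_apply]
      exact Nat.mul_div_cancel' (hdiv d hd' j)
    rw [h2] at h3
    exact Nat.eq_of_mul_eq_mul_left hp h3
  · rw [← frobenius_def, map_sum]
    conv_rhs => rw [← support_sum_monomial_coeff P]
    refine Finset.sum_congr rfl fun d hd' => ?_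
    rw [frobenius_def, monomial_pow, hs]
    have h1 : p • Finsupp.mapRange (fun x => x / p) (Nat.zero_div p) d = d := by
      ext j
      rw [Finsupp.smul_apply, Finsupp.mapRange_apply, smul_eq_mul]
      exact Nat.mul_div_cancel' (hdiv d hd' j)
    rw [h1]

namespace TConf

variable {k r : ℕ} [Infinite 𝕜] {T : TConf 𝕜 k r}

theorem exists_node (hk : 2 ≤ k) (l : Fin k) : ∃ D, T.meet (Sum.inl l) D := by
  have : ∃ j : Fin k, l ≠ j := by
    haveI : Nontrivial (Fin k) := Fin.nontrivial_iff_two_le.mpr hk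
    obtain ⟨j, hj⟩ := exists_ne l
    exact ⟨j, hj.symm⟩
  obtain ⟨j, hj⟩ := this
  exact ⟨_, T.mem_nodes.mp (T.nd_mem hj)⟩

/-- Vanishing for all representatives of a class. -/
def LBVa (T : TConf 𝕜 k r) (τ : ℤ) (ε : Fin r → ℕ) : Prop :=
  ∀ (A : Crv k r → ℕ) (e : ℕ), (e : ℤ) = τ + ∑ i, (A (Sum.inl i) : ℤ) →
    (∀ q, A (Sum.inr q) + ε q = ∑ i ∈ T.tri q, A (Sum.inl i)) → T.LBV e A

theorem LBV_down (hk : 2 ≤ k) {e : ℕ} {A : Crv k r → ℕ} (N : ℕ)
    (h : T.LBV (e + k * N) (fun D => match D with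
      | Sum.inl i => A (Sum.inl i) + N
      | Sum.inr q => A (Sum.inr q) + (T.tri q).card * N)) : T.LBV e A := by
  intro G hsym hhom hG
  set Q : RK 𝕜 := ∏ j, T.L j ^ N with hQ
  have hQhom : Q.IsHomogeneous (k * N) := by
    have h1 : Q.IsHomogeneous (∑ _j : Fin k, N) := by
      refine IsHomogeneous.prod _ _ _ fun j _ => ?_
      have := (T.L_hom j).pow N
      rwa [one_mul] at this
    simpa using h1
  have hQ0 : Q ≠ 0 := Finset.prod_ne_zero_iff.mpr fun j _ => pow_ne_zero _ (T.L_ne_zero j)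
  have hQJ : ∀ D, Q ∈ T.J D (∑ j, N * T.val D j) := fun D =>
    T.prod_L_mem_J D (fun _ => N) Finset.univ
  have hv1 : ∀ l, ∑ j, N * T.val (Sum.inl l : Crv k r) j = N := fun l =>
    T.sum_val_inl (fun _ => N) l
  have hv2 : ∀ q, ∑ j, N * T.val (Sum.inr q : Crv k r) j = (T.tri q).card * N := fun q => by
    rw [T.sum_val_inr (fun _ => N) q]; simp
  obtain ⟨P, hP, hP'⟩ := h (fun D D' => Q * G D D') (fun D D' hD => by rw [hsym D D' hD])
    (fun D D' => by
      have := hQhom.mul (hhom D D')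
      rwa [add_comm] at this)
    (fun D D' D'' h1 h2 => by
      have h3 := T.mul_mem_J (hQJ D) (hG D D' D'' h1 h2)
      rw [← mul_sub]
      refine T.J_mono D ?_ h3
      rcases D with l | q
      · rw [hv1]; exact le_of_eq (add_comm _ _)
      · rw [hv2]; exact le_of_eq (add_comm _ _))
  have hdiv : ∀ l, T.L l ^ N ∣ P := by
    intro l
    obtain ⟨D, hD⟩ := T.exists_node hk l
    have h1 := hP' (Sum.inl l) D hD
    rw [mem_J_inl] at h1
    have h2 : T.L l ^ N ∣ P - Q * G (Sum.inl l) D :=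
      (pow_dvd_pow _ (Nat.le_add_left _ _)).trans h1
    have h3 : T.L l ^ N ∣ Q := Finset.dvd_prod_of_mem (fun j => T.L j ^ N) (Finset.mem_univ l)
    have h4 := dvd_add h2 (h3.mul_right (G (Sum.inl l) D))
    rwa [sub_add_cancel] at h4
  obtain ⟨R, hR⟩ := T.prod_L_dvd Finset.univ (fun _ => N) P (fun l _ => hdiv l)
  change P = Q * R at hR
  have hRhom : R.IsHomogeneous e := by
    by_cases hR0 : R = 0
    · rw [hR0]; exact isHomogeneous_zero _ _ _
    rw [hR] at hP
    have := (hom_of_mul hQhom hQ0 hR0 hP).2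
    rwa [Nat.add_sub_cancel] at this
  refine ⟨R, hRhom, fun D D' hD => ?_⟩
  have h1 := hP' D D' hD
  rw [hR, ← mul_sub] at h1
  have key : ∀ (s : Finset (Fin k)) (m : ℕ) (x : RK 𝕜),
      (∏ j ∈ s, T.L j ^ N) * x ∈ T.J D (m + ∑ j ∈ s, N * T.val D j) → x ∈ T.J D m := by
    intro s
    induction s using Finset.induction_on with
    | empty => intro m x hx; simpa using hx
    | insert j s hj ih =>
      intro m x hx
      rw [Finset.prod_insert hj, Finset.sum_insert hj] at hx
      have key2 : ∀ (t m : ℕ) (x : RK 𝕜), T.L j ^ t * x ∈ T.J D (m + t * T.val D j) →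
          x ∈ T.J D m := by
        intro t
        induction t with
        | zero => intro m x hx; simpa using hx
        | succ t ih2 =>
          intro m x hx
          refine ih2 m x (T.cancel (j := j) ?_)
          rw [pow_succ', mul_assoc, Nat.succ_mul, ← add_assoc] at hx
          exact hx
      refine ih m x (key2 N _ _ ?_)
      rw [mul_assoc] at hx
      have : m + ∑ j ∈ s, N * T.val D j + N * T.val D j =
        m + (N * T.val D j + ∑ x ∈ s, N * T.val D x) := by ring
      rw [this]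
      exact hx
  refine key Finset.univ (A D) _ ?_
  refine T.J_mono D ?_ h1
  rcases D with l | q
  · rw [hv1]
  · rw [hv2]

theorem LBVa_of_LBVc (hk : 2 ≤ k) {τ : ℤ} {ε : Fin r → ℕ} (h : T.LBVc τ ε) : T.LBVa τ ε := by
  obtain ⟨b, hb⟩ := h
  intro A e he hq
  refine LBV_down hk b (hb _ _ (fun i => Nat.le_add_left _ _) ?_ ?_)
  · push_cast
    rw [he, Finset.sum_add_distrib]
    simp
    ring
  · intro q
    change A (Sum.inr q) + (T.tri q).card * b + ε q = ∑ i ∈ T.tri q, (A (Sum.inl i) + b)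
    rw [Finset.sum_add_distrib, ← hq q]
    simp
    ring

theorem LBVc_of_LBVa {τ : ℤ} {ε : Fin r → ℕ} (h : T.LBVa τ ε) : T.LBVc τ ε :=
  ⟨0, fun A e _ he hq => h A e he hq⟩

/-- Frobenius pull-back. -/
theorem frob (hok : T.Ok) (p : ℕ) [Fact p.Prime] [CharP 𝕜 p] [IsAlgClosed 𝕜] (hk : 2 ≤ k)
    {u u' : ℕ} {ε ε' : Fin r → ℕ} {α : Fin k → ℕ} {β : Fin r → ℕ}
    (hα : ∀ l, α l < p) (hβ : ∀ q, β q < p) (hu : u' + ∑ l, α l = p * u)
    (hε : ∀ q, ε' q + ∑ l ∈ T.tri q, α l = p * ε q + β q) (hku : k ≤ u')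
    (h : T.LBVc (-(u' : ℤ)) ε') : T.LBVc (-(u : ℤ)) ε := by
  have hp : 0 < p := (Fact.out : p.Prime).pos
  obtain ⟨b, hb⟩ := h
  refine ⟨b + 1 + ∑ q, ε q, fun A e hA he hq => ?_⟩
  intro G hsym hhom hG
  have hA1 : ∀ l, 1 ≤ A (Sum.inl l) := fun l => by have := hA l; omega
  have hAq : ∀ q, 1 ≤ A (Sum.inr q) := by
    intro q
    obtain ⟨i, hi⟩ := hok.ne q
    have h2 : A (Sum.inl i) ≤ ∑ i ∈ T.tri q, A (Sum.inl i) :=
      Finset.single_le_sum (f := fun i => A (Sum.inl i)) (fun _ _ => Nat.zero_le _) hi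
    have h3 : ε q ≤ ∑ q, ε q :=
      Finset.single_le_sum (f := fun q => ε q) (fun _ _ => Nat.zero_le _) (Finset.mem_univ q)
    have h4 := hA i
    have h5 := hq q
    omega
  let γ : Crv k r → ℕ := Sum.elim α β
  have hγ : ∀ D, γ D < p := by
    rintro (l | q)
    · exact hα l
    · exact hβ q
  let A' : Crv k r → ℕ := fun D => p * A D - γ D
  have hle : ∀ D, γ D ≤ p * A D := by
    rintro (l | q)
    · have h1 : p * 1 ≤ p * A (Sum.inl l) := Nat.mul_le_mul_left _ (hA1 l)
      have := hγ (Sum.inl l)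
      omega
    · have h1 : p * 1 ≤ p * A (Sum.inr q) := Nat.mul_le_mul_left _ (hAq q)
      have := hγ (Sum.inr q)
      omega
  have hA' : ∀ D, A' D + γ D = p * A D := fun D => Nat.sub_add_cancel (hle D)
  have hsumZ : ∀ s : Finset (Fin k), ∑ l ∈ s, (A' (Sum.inl l) : ℤ) + ∑ l ∈ s, (α l : ℤ) =
      p * ∑ l ∈ s, (A (Sum.inl l) : ℤ) := by
    intro s
    rw [← Finset.sum_add_distrib, Finset.mul_sum]
    refine Finset.sum_congr rfl fun l _ => ?_
    exact_mod_cast hA' (Sum.inl l)
  have huZ : (u' : ℤ) + ∑ l, (α l : ℤ) = p * u := by exact_mod_cast hu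
  obtain ⟨P, hP, hP'⟩ := hb A' (p * e) (by
      intro l
      have h1 : p * (b + 1) ≤ p * A (Sum.inl l) := Nat.mul_le_mul_left _ (by
        have := hA l; omega)
      have h2 := hA' (Sum.inl l)
      have h3 := hγ (Sum.inl l)
      have h4 : b ≤ p * b := Nat.le_mul_of_pos_left _ hp
      rw [Nat.mul_succ] at h1
      omega) (by
      have h1 := hsumZ Finset.univ
      push_cast
      rw [he]
      linear_combination (-1 : ℤ) * h1 + huZ) (by
      intro q
      have h1 : (A' (Sum.inr q) : ℤ) + β q = p * A (Sum.inr q) := by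
        exact_mod_cast hA' (Sum.inr q)
      have h2 := hsumZ (T.tri q)
      have h3 : (ε' q : ℤ) + ∑ l ∈ T.tri q, (α l : ℤ) = p * ε q + β q := by
        exact_mod_cast hε q
      have h4 : (A (Sum.inr q) : ℤ) + ε q = ∑ i ∈ T.tri q, (A (Sum.inl i) : ℤ) := by
        exact_mod_cast hq q
      zify
      rw [← h4] at h2
      linear_combination h1 + h3 - h2) (fun D D' => G D D' ^ p)
      (fun D D' hD => by rw [hsym D D' hD])
      (fun D D' => by
        have := (hhom D D').pow p
        rwa [mul_comm] at this)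
      (fun D D' D'' h1 h2 => by
        have h3 := hG D D' D'' h1 h2
        have h4 : G D D' ^ p - G D D'' ^ p = (G D D' - G D D'') ^ p := by
          have := map_sub (frobenius (RK 𝕜) p) (G D D') (G D D'')
          rw [frobenius_def, frobenius_def, frobenius_def] at this
          exact this.symm
        rw [h4]
        have h5 : ∀ m : ℕ, (G D D' - G D D'') ^ m ∈ T.J D (m * A D) := by
          intro m
          induction m with
          | zero => rw [zero_mul, T.J_zero]; trivial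
          | succ m ih =>
            rw [pow_succ, Nat.succ_mul]
            exact T.mul_mem_J ih h3
        exact T.J_mono D (Nat.sub_le _ _) (h5 p))
  have hder : ∀ j, pderiv j P = 0 := by
    intro j
    have h1 : ∀ l, T.L l ^ (A' (Sum.inl l) - 1) ∣ pderiv j P := by
      intro l
      obtain ⟨D, hD⟩ := T.exists_node hk l
      have h2 := hP' (Sum.inl l) D hD
      rw [mem_J_inl] at h2
      obtain ⟨K, hK⟩ := h2
      have h3 : pderiv j P = pderiv j (T.L l ^ A' (Sum.inl l) * K) := by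
        rw [← hK, map_sub, pderiv_pow]
        simp
      rw [h3, pderiv_mul, pderiv_pow]
      refine dvd_add ?_ ?_
      · exact Dvd.dvd.mul_right (Dvd.dvd.mul_right (Dvd.intro_left _ rfl) _) _
      · exact Dvd.dvd.mul_right (pow_dvd_pow _ (Nat.sub_le _ _)) _
    obtain ⟨K, hK⟩ := T.prod_L_dvd Finset.univ (fun l => A' (Sum.inl l) - 1) _ (fun l _ => h1 l)
    by_contra hne
    have hK0 : K ≠ 0 := by
      rintro rfl
      rw [mul_zero] at hK
      exact hne hK
    have h2 : (∏ l, T.L l ^ (A' (Sum.inl l) - 1)).IsHomogeneous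
        (∑ l, (A' (Sum.inl l) - 1)) := by
      refine IsHomogeneous.prod _ _ _ fun l _ => ?_
      have := (T.L_hom l).pow (A' (Sum.inl l) - 1)
      rwa [one_mul] at this
    have h3 : (pderiv j P).IsHomogeneous (p * e - 1) := hP.pderiv
    rw [hK] at h3
    have h4 := (hom_of_mul h2 (Finset.prod_ne_zero_iff.mpr fun l _ =>
      pow_ne_zero _ (T.L_ne_zero l)) hK0 h3).1
    have h5 : (∑ l, (A' (Sum.inl l) : ℤ)) ≤ (∑ l, (A' (Sum.inl l) - 1) : ℕ) + (k : ℤ) := by
      have h6 : ∑ l, A' (Sum.inl l) ≤ (∑ l, (A' (Sum.inl l) - 1)) + k := by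
        have h7 : ∑ l : Fin k, A' (Sum.inl l) ≤ ∑ l : Fin k, ((A' (Sum.inl l) - 1) + 1) :=
          Finset.sum_le_sum fun l _ => by omega
        rw [Finset.sum_add_distrib] at h7
        simpa using h7
      exact_mod_cast h6
    have h6 := hsumZ Finset.univ
    have h7 : (p * e : ℤ) = -(u' : ℤ) + ∑ l, (A' (Sum.inl l) : ℤ) := by
      rw [he]
      linear_combination (-1 : ℤ) * h6 + huZ
    have hpe : 1 ≤ p * e := by
      by_contra hcon
      have h8 : p * e = 0 := by omega
      have h9 : P = C (coeff 0 P) := by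
        rw [h8] at hP
        exact totalDegree_eq_zero_iff_eq_C.mp ((totalDegree_zero_iff_isHomogeneous _).mpr hP)
      apply hne
      rw [h9, pderiv_C]
    have h8 : ((p * e - 1 : ℕ) : ℤ) = p * e - 1 := by
      rw [Nat.cast_sub hpe]; push_cast; ring
    have h9 : ((∑ l, (A' (Sum.inl l) - 1) : ℕ) : ℤ) ≤ p * e - 1 := by
      rw [← h8]; exact_mod_cast h4
    have h10 : (k : ℤ) ≤ u' := by exact_mod_cast hku
    linarith
  obtain ⟨R, hR, hRP⟩ := exists_pth_root p P hP hder
  refine ⟨R, hR, fun D D' hD => ?_⟩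
  have h1 := hP' D D' hD
  have h4 : P - G D D' ^ p = (R - G D D') ^ p := by
    have := map_sub (frobenius (RK 𝕜) p) R (G D D')
    rw [frobenius_def, frobenius_def, frobenius_def, hRP] at this
    exact this.symm
  rw [h4] at h1
  have h2 := hA' D
  have h3 := hγ D
  rcases D with l | q
  · rw [mem_J_inl] at h1 ⊢
    exact dvd_of_pow_dvd_pow (T.L_prime l) (by omega) h1
  · rw [mem_J_inr] at h1 ⊢
    rw [map_pow] at h1
    exact dvd_of_pow_dvd_pow Polynomial.prime_X (by omega) h1

end TConf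

end

end Pool.Agent.H94_gen
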