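import Pool.Agent.H94_gen.Zero

/-!
# Gluing the pencil solutions
-/

namespace Pool.Agent.H94_gen

open MvPolynomial

noncomputable section

set_option linter.unusedSectionVars false

namespace TConf

variable {k r : ℕ} {T : TConf ℂ k r}

theorem fl_sum_le {n d : ℕ} {a : Fin k → ℕ} (ha : ∀ i, a i < n) (hd : ∑ i, a i = d * n)
    (hn : k < n) : ∑ l, (a l + 1) / n ≤ d := by
  have h1 : (n - 1) * ∑ l, (a l + 1) / n ≤ ∑ l, a l := by
    rw [Finset.mul_sum]
    refine Finset.sum_le_sum fun l _ => ?_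
    rw [fl_eq ha]
    split_ifs with h
    · omega
    · simp
  have h2 : ∑ l, a l + k ≤ k * n := by
    have : ∑ l : Fin k, (a l + 1) ≤ ∑ _l : Fin k, n := Finset.sum_le_sum fun l _ => ha l
    rw [Finset.sum_add_distrib] at this
    simpa using this
  rw [hd] at h1 h2
  have h3 : d < k ∨ k = 0 := by
    by_cases hk : k = 0
    · exact Or.inr hk
    · left
      by_contra hcon
      push Not at hcon
      have : k * n ≤ d * n := Nat.mul_le_mul_right _ hcon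
      omega
  rcases h3 with h3 | h3
  · by_contra hcon
    push Not at hcon
    have h4 : (n - 1) * (d + 1) ≤ (n - 1) * ∑ l, (a l + 1) / n := Nat.mul_le_mul_left _ hcon
    obtain ⟨n', rfl⟩ : ∃ n', n = n' + 1 := ⟨n - 1, by omega⟩
    rw [Nat.add_sub_cancel] at h4 h1
    have h5 : n' * (d + 1) ≤ d * (n' + 1) := h4.trans h1
    have h6 : n' * (d + 1) = n' * d + n' := by ring
    have h7 : d * (n' + 1) = n' * d + d := by ring
    omega
  · subst h3
    simp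

theorem loc_zero {n d : ℕ} {a : Fin k → ℕ} (hd : ∑ i, a i = d * n) {q : Fin r}
    (hq : ¬ ∑ l ∈ T.tri q, a l < d * n) {l : Fin k} (hl : l ∉ T.tri q) : a l = 0 := by
  have h1 := Finset.sum_add_sum_compl (T.tri q) a
  have h2 : ∑ l ∈ (T.tri q)ᶜ, a l = 0 := by omega
  exact Finset.sum_eq_zero_iff.mp h2 l (Finset.mem_compl.mpr hl)

theorem choose_i0 (hF : T.Full) {n d : ℕ} {a : Fin k → ℕ} (ha : ∀ i, a i < n)
    (hd : ∑ i, a i = d * n) (hn : k < n) (hn2 : 2 ≤ n) (hd1 : 1 ≤ d) :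
    ∃ (i0 : Fin k) (p0 : Fin r), ∑ l ∈ Finset.univ.erase i0, (a l + 1) / n < d ∧
      (∀ q, q ≠ p0 → ∑ l ∈ T.tri q, a l < d * n) ∧
      (¬ ∑ l ∈ T.tri p0, a l < d * n → i0 ∈ T.tri p0) := by
  have huniq : ∀ q q', q ≠ q' → ¬ ∑ l ∈ T.tri q, a l < d * n →
      ¬ ∑ l ∈ T.tri q', a l < d * n → False := by
    intro q q' hqq hq hq'
    have h1 : ∑ l, a l = ∑ l ∈ T.tri q ∩ T.tri q', a l := by
      symm
      refine Finset.sum_subset (Finset.subset_univ _) fun l _ hl => ?_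
      rw [Finset.mem_inter, not_and_or] at hl
      rcases hl with hl | hl
      · exact loc_zero hd hq hl
      · exact loc_zero hd hq' hl
    have h2 : ∑ l ∈ T.tri q ∩ T.tri q', a l ≤ (T.tri q ∩ T.tri q').card * (n - 1) := by
      rw [← smul_eq_mul, ← Finset.sum_const]
      exact Finset.sum_le_sum fun l _ => by have := ha l; omega
    have h3 := T.inter_le_one hqq
    have h4 : (T.tri q ∩ T.tri q').card * (n - 1) ≤ 1 * (n - 1) := Nat.mul_le_mul_right _ h3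
    have h5 : 1 * n ≤ d * n := Nat.mul_le_mul_right _ hd1
    omega
  obtain ⟨p0, hp0⟩ : ∃ p0, ∀ q, q ≠ p0 → ∑ l ∈ T.tri q, a l < d * n := by
    by_cases h : ∃ q, ¬ ∑ l ∈ T.tri q, a l < d * n
    · obtain ⟨p0, hp0⟩ := h
      refine ⟨p0, fun q hq => ?_⟩
      by_contra hcon
      exact huniq q p0 hq hcon hp0
    · push Not at h
      obtain ⟨p0⟩ := hF.pts
      exact ⟨p0, fun q _ => h q⟩
  have hsum := fl_sum_le ha hd hn
  by_cases h : ∃ l, a l + 1 = n
  · obtain ⟨l, hl⟩ := h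
    refine ⟨l, p0, ?_, hp0, fun hloc => ?_⟩
    · have h1 := Finset.add_sum_erase Finset.univ (fun l => (a l + 1) / n) (Finset.mem_univ l)
      have h2 : (a l + 1) / n = 1 := by rw [fl_eq ha, if_pos hl]
      simp only [h2] at h1
      omega
    · by_contra hcon
      have := loc_zero hd hloc hcon
      omega
  · push Not at h
    obtain ⟨i0, hi0⟩ := hF.ok.ne p0
    refine ⟨i0, p0, ?_, hp0, fun _ => hi0⟩
    rw [Finset.sum_eq_zero (fun l _ => by rw [fl_eq ha, if_neg (h l)])]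
    exact hd1

/-- Weights along the lines. -/
def wt (n N : ℕ) (a : Fin k → ℕ) (i0 l : Fin k) : ℕ := if l = i0 then N else N - (a l + 1) / n

theorem sum_wt {n N : ℕ} {a : Fin k → ℕ} (ha : ∀ i, a i < n) (hN : 1 ≤ N) (i0 : Fin k) :
    ∑ l, wt n N a i0 l + ∑ l ∈ Finset.univ.erase i0, (a l + 1) / n = k * N := by
  rw [← Finset.add_sum_erase _ _ (Finset.mem_univ i0), add_assoc, ← Finset.sum_add_distrib]
  have h1 : ∑ l ∈ Finset.univ.erase i0, (wt n N a i0 l + (a l + 1) / n) =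
      ∑ _l ∈ Finset.univ.erase i0, N := by
    refine Finset.sum_congr rfl fun l hl => ?_
    rw [wt, if_neg (Finset.ne_of_mem_erase hl)]
    have := fl_le ha l
    omega
  rw [h1, wt, if_pos rfl, Finset.sum_const, smul_eq_mul, Finset.card_erase_of_mem
    (Finset.mem_univ i0), Finset.card_univ, Fintype.card_fin]
  have hk : 1 ≤ k := by
    have := i0.2
    omega
  obtain ⟨k', hk'⟩ : ∃ k', k = k' + 1 := ⟨k - 1, by omega⟩
  have : k - 1 = k' := by omega
  rw [this]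
  conv_rhs => rw [hk']
  ring

theorem eq_zero_of_wt {w : Fin k → ℕ} {e : ℕ} {z : RK ℂ} (hz : z.IsHomogeneous e)
    (h : ∀ l, T.L l ^ w l ∣ z) (hw : e < ∑ l, w l) : z = 0 := by
  obtain ⟨f, hf⟩ := T.prod_L_dvd Finset.univ w z (fun l _ => h l)
  by_contra hne
  have hf0 : f ≠ 0 := by
    rintro rfl
    rw [mul_zero] at hf
    exact hne hf
  have h1 : (∏ l, T.L l ^ w l).IsHomogeneous (∑ l, w l) := by
    refine IsHomogeneous.prod _ _ _ fun l _ => ?_
    have := (T.L_hom l).pow (w l)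
    rwa [one_mul] at this
  rw [hf] at hz
  have := (hom_of_mul h1 (Finset.prod_ne_zero_iff.mpr fun l _ =>
    pow_ne_zero _ (T.L_ne_zero l)) hf0 hz).1
  omega

theorem gb_inl_of_ne {n N : ℕ} {a : Fin k → ℕ} (ha : ∀ i, a i < n) {i j l : Fin k} (hi : i ≠ l)
    (hj : j ≠ l) : T.gb n N a i j (Sum.inl l) = N := by
  rw [gb, sz_inl, ordN_inl, one_mul]
  simp only [val, if_neg hi.symm, if_neg hj.symm, if_true, add_zero]
  rw [Nat.div_eq_of_lt (ha l), Nat.sub_zero]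

theorem gb_inl_ge {n N : ℕ} {a : Fin k → ℕ} (i j l : Fin k) :
    N - (a l + 1) / n ≤ T.gb n N a i j (Sum.inl l) := by
  rw [gb, sz_inl, ordN_inl, one_mul]
  refine Nat.sub_le_sub_left (Nat.div_le_div_right ?_) _
  split_ifs <;> omega

theorem gb_inl_le {n N : ℕ} {a : Fin k → ℕ} {i j l : Fin k}
    (hij : T.val (Sum.inl l : Crv k r) i ≠ T.val (Sum.inl l : Crv k r) j) :
    T.gb n N a i j (Sum.inl l) = N - (a l + 1) / n := by
  rw [gb, sz_inl, ordN_inl, one_mul, if_neg hij]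

theorem gb_wt {n N : ℕ} {a : Fin k → ℕ} (ha : ∀ i, a i < n) {i0 i j : Fin k} (hi : i ≠ i0)
    (hj : j ≠ i0) (l : Fin k) : wt n N a i0 l ≤ T.gb n N a i j (Sum.inl l) := by
  rw [wt]
  split_ifs with h
  · subst h
    rw [gb_inl_of_ne ha hi hj]
  · exact T.gb_inl_ge i j l

theorem gb_inr_ge {n N : ℕ} {a : Fin k → ℕ} (i j : Fin k) (x : Fin r) :
    (T.tri x).card * N - (∑ l ∈ T.tri x, a l + 1) / n ≤ T.gb n N a i j (Sum.inr x) := by
  rw [gb, sz_inr, ordN_inr]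
  refine Nat.sub_le_sub_left (Nat.div_le_div_right ?_) _
  split_ifs <;> omega

theorem gb_symm (n N : ℕ) (a : Fin k → ℕ) (i j : Fin k) (D : Crv k r) :
    T.gb n N a i j D = T.gb n N a j i D := by
  rw [gb, gb]
  simp only [eq_comm]

/-- Gluing away from one line. -/
theorem glue (hF : T.Full) (hIR : T.LR) (hk : 6 ≤ k) {n N d : ℕ} {a : Fin k → ℕ}
    (ha : ∀ i, a i < n) (hN : 1 ≤ N) {i0 : Fin k} {p0 : Fin r}
    (hi0 : ∑ l ∈ Finset.univ.erase i0, (a l + 1) / n < d)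
    (hp0 : ∀ q, q ≠ p0 → ∑ l ∈ T.tri q, a l < d * n)
    {G : Crv k r → Crv k r → Fin k → RK ℂ} (hG : T.GData n N d a G) (hdN : d ≤ k * N)
    {Z : Fin r → Fin k → RK ℂ}
    (hZh : ∀ q, ∑ l ∈ T.tri q, a l < d * n → ∀ i, (Z q i).IsHomogeneous (k * N - d))
    (hZ : ∀ q, ∑ l ∈ T.tri q, a l < d * n → ∀ D D' i j, T.meet D D' → i ∈ T.tri q →
      j ∈ T.tri q → (Z q i - Z q j) - (G D D' i - G D D' j) ∈ T.J D (T.gb n N a i j D)) :
    ∃ (m0 : Fin k) (P : Fin k → RK ℂ), m0 ≠ i0 ∧ (∀ i, (P i).IsHomogeneous (k * N - d)) ∧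
      (∀ i, i ≠ i0 → ∀ l D', T.meet (Sum.inl l) D' →
        P i - (G (Sum.inl l) D' i - G (Sum.inl l) D' m0) ∈ T.J (Sum.inl l) (wt n N a i0 l)) ∧
      (∀ q, ∑ l ∈ T.tri q, a l < d * n → ∀ i ∈ T.tri q, ∀ j ∈ T.tri q, i ≠ i0 → j ≠ i0 →
        P i - P j = Z q i - Z q j) := by
  have hsw := sum_wt ha hN i0
  obtain ⟨m0, hm0⟩ : ∃ m0 : Fin k, m0 ≠ i0 := by
    have : Nontrivial (Fin k) := Fin.nontrivial_iff_two_le.mpr (by omega)
    exact exists_ne i0
  let Inv : Fin k → RK ℂ → Prop := fun i z => z.IsHomogeneous (k * N - d) ∧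
    ∀ l D', T.meet (Sum.inl l) D' →
      z - (G (Sum.inl l) D' i - G (Sum.inl l) D' m0) ∈ T.J (Sum.inl l) (wt n N a i0 l)
  have huniq : ∀ i z z', Inv i z → Inv i z' → z = z' := by
    intro i z z' h h'
    have h1 : z - z' = 0 := by
      refine T.eq_zero_of_wt (h.1.sub h'.1) (w := wt n N a i0) (fun l => ?_) (by omega)
      obtain ⟨D', hD'⟩ := T.exists_node (by omega) l
      have h2 := sub_mem (h.2 l D' hD') (h'.2 l D' hD')
      rw [sub_sub_sub_cancel_right, mem_J_inl] at h2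
      exact h2
    exact sub_eq_zero.mp h1
  have hstep : ∀ q, ∑ l ∈ T.tri q, a l < d * n → ∀ i ∈ T.tri q, ∀ j ∈ T.tri q, i ≠ i0 →
      j ≠ i0 → ∀ z, Inv i z → Inv j (z + (Z q j - Z q i)) := by
    intro q hq i hi j hj hi0' hj0 z hz
    refine ⟨hz.1.add ((hZh q hq j).sub (hZh q hq i)), fun l D' hD' => ?_⟩
    have h1 := hz.2 l D' hD'
    have h2 := T.J_mono _ (T.gb_wt ha hj0 hi0' l) (hZ q hq _ _ j i hD' hj hi)
    have h3 : z + (Z q j - Z q i) - (G (Sum.inl l) D' j - G (Sum.inl l) D' m0) =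
        (z - (G (Sum.inl l) D' i - G (Sum.inl l) D' m0)) +
        ((Z q j - Z q i) - (G (Sum.inl l) D' j - G (Sum.inl l) D' i)) := by ring
    rw [h3]
    exact add_mem h1 h2
  have hall : ∀ i, i ≠ i0 → ∃ z, Inv i z := by
    refine connected hF hIR hk i0 p0 (K := fun i => ∃ z, Inv i z) ?_ ⟨m0, hm0, 0, ?_⟩
    · intro q hq i hi j hj hi' hj' ⟨z, hz⟩
      exact ⟨_, hstep q (hp0 q hq) i hi j hj hi' hj' z hz⟩
    · refine ⟨isHomogeneous_zero _ _ _, fun l D' _ => ?_⟩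
      rw [sub_self, sub_self]; exact zero_mem _
  have hall' : ∀ i, ∃ z : RK ℂ, z.IsHomogeneous (k * N - d) ∧ (i ≠ i0 → Inv i z) := by
    intro i
    by_cases hi : i = i0
    · exact ⟨0, isHomogeneous_zero _ _ _, fun h => absurd hi h⟩
    · obtain ⟨z, hz⟩ := hall i hi
      exact ⟨z, hz.1, fun _ => hz⟩
  choose P hPh hP using hall'
  refine ⟨m0, P, hm0, hPh, fun i hi => (hP i hi).2, ?_⟩
  intro q hq i hi j hj hi' hj'
  have h1 := huniq i _ _ (hP i hi') (hstep q hq j hj i hi hj' hi' _ (hP j hj'))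
  rw [h1]; ring

end TConf

end

end Pool.Agent.H94_gen
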