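import Pool.Agent.H94_gen.Frob

/-!
# Pencil vanishing in large characteristic
-/

namespace Pool.Agent.H94_gen

open MvPolynomial

noncomputable section

set_option linter.unusedSectionVars false

variable {𝕜 : Type} [Field 𝕜]

namespace TConf

variable {k r : ℕ} [Infinite 𝕜] {T : TConf 𝕜 k r}

/-- The residues that appear in the pencil class. -/
def bb (T : TConf 𝕜 k r) (n : ℕ) (a : Fin k → ℕ) (q : Fin r) (l : Fin k) : ℕ :=
  if l ∈ T.tri q then (a l + 1) % n else a l

theorem inter_le_one {q x : Fin r} (hqx : x ≠ q) : (T.tri x ∩ T.tri q).card ≤ 1 := by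
  rw [Finset.card_le_one]
  intro i hi j hj
  rw [Finset.mem_inter] at hi hj
  by_contra hij
  have h := T.cnt i j hij
  rw [Finset.card_le_one] at h
  exact hqx (h x (by simp [hi.1, hj.1]) q (by simp [hi.2, hj.2]))

theorem sum_le_aux {ι : Type*} [DecidableEq ι] (S : Finset ι) (e : ι → ℕ) (W : ι → Finset (Fin k))
    (O : Finset (Fin k)) (ν : Fin k → ℕ) {n g : ℕ} (hg : 1 ≤ g)
    (hV : ∑ l ∈ O, ν l ≤ n * g) (hW : ∀ y ∈ S, W y ⊆ O)
    (hd : ∀ y ∈ S, ∀ y' ∈ S, y ≠ y' → Disjoint (W y) (W y'))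
    (he : ∀ y ∈ S, 1 ≤ e y → n * (e y - 1) < ∑ l ∈ W y, ν l) :
    ∑ y ∈ S, (e y - 1) + 1 ≤ g := by
  have h1 : ∑ y ∈ S, ∑ l ∈ W y, ν l ≤ ∑ l ∈ O, ν l := by
    rw [← Finset.sum_biUnion (fun y hy y' hy' hne => hd y hy y' hy' hne)]
    exact Finset.sum_le_sum_of_subset (Finset.biUnion_subset.mpr hW)
  by_cases h0 : ∀ y ∈ S, e y - 1 = 0
  · rw [Finset.sum_eq_zero h0]; omega
  push Not at h0
  obtain ⟨y, hy, hy0⟩ := h0
  have h2 : ∑ y ∈ S, n * (e y - 1) < ∑ y ∈ S, ∑ l ∈ W y, ν l := by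
    refine Finset.sum_lt_sum (fun z hz => ?_) ⟨y, hy, he y hy (by omega)⟩
    by_cases hz1 : 1 ≤ e z
    · exact (he z hz hz1).le
    · have : e z - 1 = 0 := by omega
      rw [this, mul_zero]; exact Nat.zero_le _
  rw [← Finset.mul_sum] at h2
  have h3 : n * ∑ y ∈ S, (e y - 1) < n * g := by omega
  exact Nat.lt_of_mul_lt_mul_left h3

theorem pv_charp (hok : T.Ok) (hk : 2 ≤ k) (p : ℕ) [Fact p.Prime] [CharP 𝕜 p] [IsAlgClosed 𝕜]
    {n d : ℕ} {a : Fin k → ℕ} (ha : ∀ l, a l < n) (hd : ∑ l, a l = d * n) (q : Fin r)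
    (h3 : 3 ≤ (T.tri q).card) (hn : (T.tri q).card < n) (hnl : ∑ l ∈ T.tri q, a l < d * n)
    (hp : n * (2 * ∑ x, (T.tri x).card + k + 2) ≤ p) {u : ℕ} {ε : Fin r → ℕ}
    (hu : u + 2 + ((T.tri q).filter fun l => a l + 1 = n).card = d + (T.tri q).card)
    (hεq : ε q + 2 + ((T.tri q).filter fun l => a l + 1 = n).card =
      (∑ l ∈ T.tri q, a l) / n + (T.tri q).card)
    (hεx : ∀ x, x ≠ q → ε x = (∑ l ∈ T.tri x, T.bb n a q l) / n) :
    T.LBVc (-(u : ℤ)) ε := by
  have hp0 : 0 < p := (Fact.out : p.Prime).pos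
  have hn0 : 0 < n := by omega
  set m := (T.tri q).card with hm
  set s := ((T.tri q).filter fun l => a l + 1 = n).card with hs
  set aq := ∑ l ∈ T.tri q, a l with haq
  set b := T.bb n a q with hb
  have hbn : ∀ l, b l < n := by
    intro l
    rw [hb, bb]
    split_ifs
    · exact Nat.mod_lt _ hn0
    · exact ha l
  -- sum of b over the pencil
  have hbq : ∑ l ∈ T.tri q, b l + n * s = aq + m := by
    rw [hs, Finset.card_filter, Finset.mul_sum, ← Finset.sum_add_distrib, haq, hm,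
      Finset.card_eq_sum_ones, ← Finset.sum_add_distrib]
    refine Finset.sum_congr rfl fun l hl => ?_
    rw [hb, bb, if_pos hl]
    by_cases h : a l + 1 = n
    · rw [if_pos h, h, Nat.mod_self]; omega
    · rw [if_neg h, Nat.mod_eq_of_lt (by have := ha l; omega)]; omega
  have hsplit : ∀ F : Fin k → ℕ, ∑ l ∈ T.tri q, F l + ∑ l ∈ (T.tri q)ᶜ, F l = ∑ l, F l :=
    fun F => Finset.sum_add_sum_compl (T.tri q) F
  have hbout : ∑ l ∈ (T.tri q)ᶜ, b l = ∑ l ∈ (T.tri q)ᶜ, a l := by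
    refine Finset.sum_congr rfl fun l hl => ?_
    rw [hb, bb, if_neg (Finset.mem_compl.mp hl)]
  have haout : aq + ∑ l ∈ (T.tri q)ᶜ, a l = d * n := by rw [← hd]; exact hsplit a
  -- the special line
  obtain ⟨l0, hl0, hal0⟩ : ∃ l0 ∈ (T.tri q)ᶜ, 0 < a l0 := by
    by_contra hcon
    push Not at hcon
    have : ∑ l ∈ (T.tri q)ᶜ, a l = 0 :=
      Finset.sum_eq_zero fun l hl => by have := hcon l hl; omega
    omega
  have hl0q : l0 ∉ T.tri q := Finset.mem_compl.mp hl0
  have hbl0 : b l0 = a l0 := by rw [hb, bb, if_neg hl0q]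
  have hnp : n ≤ p := by
    refine le_trans ?_ hp
    have : n * 1 ≤ n * (2 * ∑ x, (T.tri x).card + k + 2) := Nat.mul_le_mul_left _ (by omega)
    omega
  let α : Fin k → ℕ := fun l => if l = l0 then p * b l / n - 1 else p * b l / n
  let ν : Fin k → ℕ := fun l => if l = l0 then p * b l % n + n else p * b l % n
  have hαν : ∀ l, n * α l + ν l = p * b l := by
    intro l
    have h1 := Nat.div_add_mod (p * b l) n
    by_cases hl : l = l0
    · simp only [α, ν, if_pos hl]
      have h2 : 1 ≤ p * b l / n := by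
        rw [Nat.one_le_div_iff hn0, hl, hbl0]
        calc n ≤ p := hnp
          _ = p * 1 := (mul_one p).symm
          _ ≤ p * a l0 := Nat.mul_le_mul_left _ hal0
      obtain ⟨t, ht⟩ := Nat.exists_eq_add_of_le h2
      rw [ht] at h1 ⊢
      have : 1 + t - 1 = t := by omega
      rw [this]
      have h3 : n * (1 + t) = n + n * t := by ring
      omega
    · simp only [α, ν, if_neg hl]
      exact h1
  have hνlt : ∀ l, l ≠ l0 → ν l < n := by
    intro l hl
    simp only [ν, if_neg hl]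
    exact Nat.mod_lt _ hn0
  have hνlt2 : ∀ l, ν l < 2 * n := by
    intro l
    by_cases hl : l = l0
    · simp only [ν, if_pos hl]
      have := Nat.mod_lt (p * b l) hn0
      omega
    · have := hνlt l hl; omega
  have hνl0 : n ≤ ν l0 := by
    simp only [ν, if_true]; omega
  have hα : ∀ l, α l < p := by
    intro l
    have h1 := hαν l
    have h2 : p * b l < p * n := Nat.mul_lt_mul_of_pos_left (hbn l) hp0
    have h4 : n * α l < n * p := by
      rw [mul_comm n p]; omega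
    exact Nat.lt_of_mul_lt_mul_left h4
  have hανs : ∀ S : Finset (Fin k), n * ∑ l ∈ S, α l + ∑ l ∈ S, ν l = p * ∑ l ∈ S, b l := by
    intro S
    rw [Finset.mul_sum, Finset.mul_sum, ← Finset.sum_add_distrib]
    exact Finset.sum_congr rfl fun l _ => hαν l
  -- data at q
  set βq := p * (aq % n) / n with hβq
  have hβq1 : n * βq ≤ p * (aq % n) := Nat.mul_div_le _ _
  have hβq2 : p * (aq % n) < n * (βq + 1) := by
    rw [hβq]; exact Nat.lt_mul_div_succ _ hn0
  have hβq3 : βq < p := by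
    have h1 : p * (aq % n) < p * n := Nat.mul_lt_mul_of_pos_left (Nat.mod_lt _ hn0) hp0
    have h2 : n * βq < n * p := by rw [mul_comm n p]; omega
    exact Nat.lt_of_mul_lt_mul_left h2
  have hdm := Nat.div_add_mod aq n
  set v := aq / n with hv
  have hvd : v ≤ d := by
    have : aq < n * d := by rw [mul_comm]; exact hnl
    exact (Nat.div_lt_of_lt_mul this).le
  -- the main numerical estimates
  have hsq := hανs (T.tri q)
  have hso := hανs (T.tri q)ᶜ
  rw [hbout] at hso
  have hmn : m + 1 ≤ n * (m - 2) := by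
    obtain ⟨t, ht⟩ := Nat.exists_eq_add_of_le h3
    have h1 : m - 2 = t + 1 := by omega
    rw [h1]
    have h2 : (m + 1) * (t + 1) ≤ n * (t + 1) := Nat.mul_le_mul_right _ hn
    have h4 : m + 1 ≤ (m + 1) * (t + 1) := Nat.le_mul_of_pos_right _ (by omega)
    omega
  have key1 : p + 1 + n * ∑ l ∈ T.tri q, α l ≤ n * (p * ε q + βq) + n := by
    zify at *
    have e1 : (ε q : ℤ) = v + m - 2 - s := by linarith
    have e2 : (p : ℤ) * (m + 1) ≤ p * (n * (m - 2)) := by
      have hm2 : ((m - 2 : ℕ) : ℤ) = (m : ℤ) - 2 := by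
        rw [Nat.cast_sub (by omega)]; rfl
      rw [hm2] at hmn
      exact mul_le_mul_of_nonneg_left hmn (by positivity)
    have e3 : (0 : ℤ) ≤ ∑ l ∈ T.tri q, (ν l : ℤ) := Finset.sum_nonneg fun l _ => by positivity
    have e4 : (∑ l ∈ T.tri q, (b l : ℤ)) = aq + m - n * s := by linarith
    rw [e4] at hsq
    have e5 : (n : ℤ) * (p * ε q) = p * (n * v) + p * (n * m) - 2 * (p * n) - p * (n * s) := by
      rw [e1]; ring
    have e6 : (p : ℤ) * (aq + m - n * s) = p * (n * v) + p * (aq % n) + p * m - p * (n * s) := by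
      linear_combination (-(p : ℤ)) * hdm
    nlinarith
  have key2 : ∑ l ∈ (T.tri q)ᶜ, ν l + n * (βq + ∑ l ∈ (T.tri q)ᶜ, α l) ≤ n * (p * (d - v)) := by
    zify [hvd] at *
    have e1 : (∑ l ∈ (T.tri q)ᶜ, (a l : ℤ)) = d * n - aq := by linarith
    rw [e1] at hso
    have e2 : (n : ℤ) * (p * (d - v)) = p * (d * n) - p * (n * v) := by ring
    have e3 : (p : ℤ) * (d * n - aq) = p * (d * n) - p * (n * v) - p * (aq % n) := by
      linear_combination (p : ℤ) * hdm
    nlinarith
  have hVn : n ≤ ∑ l ∈ (T.tri q)ᶜ, ν l :=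
    hνl0.trans (Finset.single_le_sum (f := ν) (fun _ _ => Nat.zero_le _) hl0)
  have hle1 : ∑ l ∈ T.tri q, α l ≤ p * ε q + βq := by
    by_contra hcon
    push Not at hcon
    have : n * (p * ε q + βq + 1) ≤ n * ∑ l ∈ T.tri q, α l := Nat.mul_le_mul_left _ hcon
    rw [Nat.mul_succ] at this
    omega
  have hle2 : βq + ∑ l ∈ (T.tri q)ᶜ, α l ≤ p * (d - v) := by
    refine Nat.le_of_mul_le_mul_left ?_ hn0
    omega
  obtain ⟨eq, heq⟩ := Nat.exists_eq_add_of_le hle1
  obtain ⟨g, hg⟩ := Nat.exists_eq_add_of_le hle2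
  have hng : ∑ l ∈ (T.tri q)ᶜ, ν l ≤ n * g := by
    have h1 : n * (p * (d - v)) = n * (βq + ∑ l ∈ (T.tri q)ᶜ, α l) + n * g := by
      rw [hg]; ring
    omega
  have hg1 : 1 ≤ g := by
    by_contra hcon
    have : g = 0 := by omega
    rw [this, mul_zero] at hng
    omega
  have hneq : p + 1 ≤ n * eq + n := by
    have h1 : n * (p * ε q + βq) = n * ∑ l ∈ T.tri q, α l + n * eq := by
      rw [heq]; ring
    omega
  have heqbig : 2 * ∑ x, (T.tri x).card + k + 2 ≤ eq + 1 := by
    have h1 : n * (2 * ∑ x, (T.tri x).card + k + 2) ≤ n * (eq + 1) := by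
      have h2 : n * (eq + 1) = n * eq + n := Nat.mul_succ _ _
      rw [h2]; omega
    exact Nat.le_of_mul_le_mul_left h1 hn0
  let ε' : Fin r → ℕ := fun x => if x = q then eq else p * ε x - ∑ l ∈ T.tri x, α l
  let β : Fin r → ℕ := fun x => if x = q then βq else ∑ l ∈ T.tri x, α l - p * ε x
  have hε'q : ε' q = eq := if_pos rfl
  have hβ'q : β q = βq := if_pos rfl
  have hε'x : ∀ x, x ≠ q → ε' x = p * ε x - ∑ l ∈ T.tri x, α l := fun x hx => if_neg hx
  have hβ'x : ∀ x, x ≠ q → β x = ∑ l ∈ T.tri x, α l - p * ε x := fun x hx => if_neg hx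
  have hnε : ∀ x, x ≠ q → n * ε' x ≤ ∑ l ∈ T.tri x, ν l := by
    intro x hx
    rw [hε'x x hx, Nat.mul_sub]
    have h1 := hανs (T.tri x)
    have h2 : n * ε x ≤ ∑ l ∈ T.tri x, b l := by
      rw [hεx x hx]; exact Nat.mul_div_le _ _
    have h4 : n * (p * ε x) ≤ p * ∑ l ∈ T.tri x, b l := by
      calc n * (p * ε x) = p * (n * ε x) := by ring
        _ ≤ _ := Nat.mul_le_mul_left _ h2
    omega
  have hβlt : ∀ x, β x < p := by
    intro x
    by_cases hx : x = q
    · subst hx; rw [hβ'q]; exact hβq3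
    rw [hβ'x x hx]
    have h1 := hανs (T.tri x)
    have h2 : ∑ l ∈ T.tri x, b l < n * (ε x + 1) := by
      rw [hεx x hx]; exact Nat.lt_mul_div_succ _ hn0
    have h4 : p * ∑ l ∈ T.tri x, b l < p * (n * (ε x + 1)) := Nat.mul_lt_mul_of_pos_left h2 hp0
    have h5 : n * ∑ l ∈ T.tri x, α l < n * (p * ε x + p) := by
      calc n * ∑ l ∈ T.tri x, α l ≤ p * ∑ l ∈ T.tri x, b l := by omega
        _ < p * (n * (ε x + 1)) := h4
        _ = n * (p * ε x + p) := by ring
    have h6 := Nat.lt_of_mul_lt_mul_left h5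
    omega
  have hεeq : ∀ x, ε' x + ∑ l ∈ T.tri x, α l = p * ε x + β x := by
    intro x
    by_cases hx : x = q
    · subst hx; rw [hε'q, hβ'q, heq]; ring
    · rw [hε'x x hx, hβ'x x hx]; omega
  have hW : ∀ y, y ≠ q → 1 ≤ ε' y → n * (ε' y - 1) < ∑ l ∈ T.tri y \ T.tri q, ν l := by
    intro y hy h1
    have h2 := hnε y hy
    have h4 : ∑ l ∈ T.tri y, ν l = ∑ l ∈ T.tri y ∩ T.tri q, ν l +
        ∑ l ∈ T.tri y \ T.tri q, ν l := (Finset.sum_inter_add_sum_sdiff _ _ _).symm
    have h5 : ∑ l ∈ T.tri y ∩ T.tri q, ν l < n := by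
      rcases Finset.eq_empty_or_nonempty (T.tri y ∩ T.tri q) with h6 | ⟨c, hc⟩
      · rw [h6, Finset.sum_empty]; exact hn0
      · have h7 := Finset.card_le_one.mp (T.inter_le_one hy)
        have h8 : T.tri y ∩ T.tri q = {c} := by
          ext i
          rw [Finset.mem_singleton]
          exact ⟨fun hi => h7 i hi c hc, fun hi => by rw [hi]; exact hc⟩
        rw [h8, Finset.sum_singleton]
        refine hνlt c ?_
        rintro rfl
        exact hl0q (Finset.mem_inter.mp hc).2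
    rw [Nat.mul_sub, mul_one]
    have h6 : n * 1 ≤ n * ε' y := Nat.mul_le_mul_left _ h1
    omega
  have hsum : ∑ x ∈ Finset.univ.erase q, ε' x ≤ 2 * ∑ x, (T.tri x).card := by
    rw [Finset.mul_sum]
    refine le_trans (Finset.sum_le_sum fun x hx => ?_)
      (Finset.sum_le_sum_of_subset (Finset.erase_subset q _))
    have hxq := Finset.ne_of_mem_erase hx
    have h1 := hnε x hxq
    have h2 : ∑ l ∈ T.tri x, ν l ≤ ∑ _l ∈ T.tri x, 2 * n :=
      Finset.sum_le_sum fun l _ => (hνlt2 l).le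
    rw [Finset.sum_const, smul_eq_mul] at h2
    refine Nat.le_of_mul_le_mul_left (c := n) ?_ hn0
    calc n * ε' x ≤ (T.tri x).card * (2 * n) := h1.trans h2
      _ = n * (2 * (T.tri x).card) := by ring
  have hfib := T.fibre hok q hg1 _ ε' rfl (by rw [hε'q]; omega) (by
    intro x hx
    rcases T.exists_rem hok hk hx with ⟨c, hcq, hcx⟩ | ⟨M, hMq, hMx, hM⟩
    · refine ⟨_, T.Rem_line hok c, Finset.mem_filter.mpr ⟨Finset.mem_univ q, hcq⟩,
        Finset.mem_filter.mpr ⟨Finset.mem_univ x, hcx⟩, ?_⟩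
      refine sum_le_aux _ ε' (fun y => T.tri y \ T.tri q) (T.tri q)ᶜ ν hg1 hng ?_ ?_ ?_
      · intro y _ l hl
        rw [Finset.mem_compl]
        exact (Finset.mem_sdiff.mp hl).2
      · intro y hy y' hy' hne
        rw [Finset.disjoint_left]
        intro l hl hl'
        have h1 := (Finset.mem_filter.mp (Finset.mem_of_mem_erase hy)).2
        have h2 := (Finset.mem_filter.mp (Finset.mem_of_mem_erase hy')).2
        have hlc : l ≠ c := by
          rintro rfl
          exact (Finset.mem_sdiff.mp hl).2 hcq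
        have h4 := T.inter_le_one hne
        rw [Finset.card_le_one] at h4
        exact hlc (h4 l (Finset.mem_inter.mpr ⟨(Finset.mem_sdiff.mp hl).1,
          (Finset.mem_sdiff.mp hl').1⟩) c (Finset.mem_inter.mpr ⟨h1, h2⟩))
      · intro y hy h1
        exact hW y (Finset.ne_of_mem_erase hy) h1
    · refine ⟨_, T.Rem_aux hok hk M, hMq, hMx, ?_⟩
      refine sum_le_aux _ ε' (fun y => T.tri y \ T.tri q) (T.tri q)ᶜ ν hg1 hng ?_ ?_ ?_
      · intro y _ l hl
        rw [Finset.mem_compl]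
        exact (Finset.mem_sdiff.mp hl).2
      · intro y hy y' hy' hne
        rw [Finset.disjoint_left]
        intro l hl hl'
        exact hM l y (Finset.mem_of_mem_erase hy) y' (Finset.mem_of_mem_erase hy') hne
          (Finset.mem_sdiff.mp hl).1 (Finset.mem_sdiff.mp hl').1
      · intro y hy h1
        exact hW y (Finset.ne_of_mem_erase hy) h1)
  refine T.frob hok p hk hα hβlt ?_ hεeq ?_ hfib
  · rw [hε'q]
    have h1 := hsplit α
    have hue : u = ε q + (d - v) := by omega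
    rw [hue, Nat.mul_add, ← h1]
    omega
  · rw [hε'q]; omega

end TConf

end

end Pool.Agent.H94_gen
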