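import Pool.Agent.H94_gen.Transfer2

/-!
# Pencil potentials
-/

namespace Pool.Agent.H94_gen

open MvPolynomial

noncomputable section

set_option linter.unusedSectionVars false

variable {𝕜 : Type} [Field 𝕜]

theorem lin_sum {k : ℕ} (c : Fin k → 𝕜) (f : Fin k → Fin 3 → 𝕜) (s : Finset (Fin k)) :
    lin (∑ i ∈ s, c i • f i) = ∑ i ∈ s, C (c i) * lin (f i) := by
  induction s using Finset.induction_on with
  | empty => simp [lin]
  | insert j s hj ih => rw [Finset.sum_insert hj, Finset.sum_insert hj, lin_add, lin_smul, ih]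

namespace TConf

variable {k r : ℕ} [Infinite 𝕜] {T : TConf 𝕜 k r}

/-- Forms vanishing at a multiple point. -/
theorem form_mem {i c : Fin k} {q : Fin r} (hi : i ∈ T.tri q) (hc : c ∈ T.tri q) (hci : c ≠ i)
    (v : Fin 3 → 𝕜) (hv : v ⬝ᵥ T.pt q = 0) : ∃ a b : 𝕜, v = a • T.f i + b • T.f c := by
  have h1 := T.fjb i c hci.symm
  have h0 := T.du_pt i q hi
  set b := (v ⬝ᵥ T.pb i) / (T.f c ⬝ᵥ T.pb i) with hb
  set w := v - b • T.f c with hw
  have hwb : w ⬝ᵥ T.pb i = 0 := by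
    rw [hw, sub_dotProduct, smul_dotProduct, smul_eq_mul, hb, div_mul_cancel₀ _ h1, sub_self]
  have hwq : w ⬝ᵥ T.pt q = 0 := by
    rw [hw, sub_dotProduct, smul_dotProduct, hv, (T.mem_tri c q).mp hc]
    simp
  have hwa : w ⬝ᵥ T.pa i = 0 := by
    rw [T.pt_eq hi, dotProduct_add, dotProduct_smul, dotProduct_smul, hwb, smul_zero, add_zero,
      smul_eq_mul] at hwq
    exact (mul_eq_zero.mp hwq).resolve_left h0
  refine ⟨w ⬝ᵥ T.pc i, b, ?_⟩
  have h2 : w = (w ⬝ᵥ T.pc i) • T.f i := by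
    have h3 : w = ∑ j, w j • (Pi.single j 1 : Fin 3 → 𝕜) := by
      funext m
      simp [Finset.sum_apply, Pi.single_apply]
    calc w = ∑ j, w j • (Pi.single j 1 : Fin 3 → 𝕜) := h3
      _ = ∑ j, w j • ((T.pc i j) • T.f i + (T.pa i j) • T.du i + (T.pb i j) • T.dv i) := by
          refine Finset.sum_congr rfl fun j _ => ?_
          rw [T.decomp i j]
      _ = (w ⬝ᵥ T.pc i) • T.f i + (w ⬝ᵥ T.pa i) • T.du i + (w ⬝ᵥ T.pb i) • T.dv i := by
          simp only [smul_add, Finset.sum_add_distrib, dotProduct, Finset.sum_smul, smul_smul]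
      _ = (w ⬝ᵥ T.pc i) • T.f i := by rw [hwa, hwb]; simp
  have h4 : v = w + b • T.f c := by rw [hw, sub_add_cancel]
  conv_lhs => rw [h4, h2]

theorem f_indep {i c : Fin k} (hic : i ≠ c) {x y : 𝕜} (h : x • T.f i + y • T.f c = 0) :
    x = 0 ∧ y = 0 := by
  have h1 := congrArg (fun v => v ⬝ᵥ T.pb i) h
  simp only [add_dotProduct, smul_dotProduct, T.fb, smul_eq_mul, mul_zero, zero_add,
    zero_dotProduct] at h1
  have hy := (mul_eq_zero.mp h1).resolve_right (T.fjb i c hic)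
  rw [hy, zero_smul, add_zero] at h
  have h2 := congrArg (fun v => v ⬝ᵥ T.pc i) h
  simp only [smul_dotProduct, T.fc, smul_eq_mul, mul_one, zero_dotProduct] at h2
  exact ⟨h2, hy⟩

/-- Coordinates in the pencil of a multiple point. -/
theorem exists_coord {q : Fin r} {b1 b2 : Fin k} (h1 : b1 ∈ T.tri q) (h2 : b2 ∈ T.tri q)
    (h12 : b1 ≠ b2) : ∃ x y : Fin k → 𝕜, (∀ i ∈ T.tri q, T.f i = x i • T.f b1 + y i • T.f b2) ∧
      (∀ i ∈ T.tri q, i ≠ b1 → y i ≠ 0) ∧ y b1 = 0 ∧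
      (∀ i ∈ T.tri q, ∀ j ∈ T.tri q, i ≠ j → y i * x j - y j * x i ≠ 0) := by
  have h : ∀ i, ∃ x y : 𝕜, i ∈ T.tri q → T.f i = x • T.f b1 + y • T.f b2 := by
    intro i
    by_cases hi : i ∈ T.tri q
    · obtain ⟨x, y, hxy⟩ := form_mem h1 h2 h12.symm (T.f i) ((T.mem_tri i q).mp hi)
      exact ⟨x, y, fun _ => hxy⟩
    · exact ⟨0, 0, fun h => absurd h hi⟩
  choose x y hxy using h
  have hy : ∀ i ∈ T.tri q, i ≠ b1 → y i ≠ 0 := by
    intro i hi hib h0
    have h3 := hxy i hi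
    rw [h0, zero_smul, add_zero] at h3
    have h4 : (1 : 𝕜) • T.f i + (-x i) • T.f b1 = 0 := by
      rw [one_smul, neg_smul, ← h3, add_neg_cancel]
    exact one_ne_zero (f_indep hib h4).1
  have hyb : y b1 = 0 := by
    have h3 := hxy b1 h1
    have h4 : (x b1 - 1) • T.f b1 + y b1 • T.f b2 = 0 := by
      rw [sub_smul, one_smul, sub_add_eq_add_sub, ← h3, sub_self]
    exact (f_indep h12 h4).2
  refine ⟨x, y, fun i hi => hxy i hi, hy, hyb, ?_⟩
  intro i hi j hj hij h0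
  have h3 : y j • T.f i + (-y i) • T.f j = 0 := by
    have h4 : y j • T.f i + (-y i) • T.f j = (-(y i * x j - y j * x i)) • T.f b1 := by
      conv_lhs => rw [hxy i hi, hxy j hj]
      module
    rw [h4, h0, neg_zero, zero_smul]
  obtain ⟨h5, h6⟩ := f_indep hij h3
  have h7 : i = b1 := by
    by_contra hne
    exact hy i hi hne (neg_eq_zero.mp h6)
  have h8 : j = b1 := by
    by_contra hne
    exact hy j hj hne h5
  exact hij (h7.trans h8.symm)

theorem C_sum_L_eq_zero (T : TConf 𝕜 k r) {c : Fin k → 𝕜} (h : ∑ i, c i • T.f i = 0) :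
    ∑ i, C (c i) * T.L i = 0 := by
  have h1 := congrArg lin h
  rw [lin_sum] at h1
  simp only [lin, Pi.zero_apply, map_zero, zero_mul, Finset.sum_const_zero] at h1
  exact h1

/-- Pencil identity. -/
theorem pen_pair {q : Fin r} {b1 b2 : Fin k} {x y : Fin k → 𝕜}
    (hxy : ∀ i ∈ T.tri q, T.f i = x i • T.f b1 + y i • T.f b2) {H : Fin k → RK 𝕜} {g : RK 𝕜}
    (hH : ∀ i ∈ T.tri q, T.L i * T.L b1 * (H i - H b1) =
      C (y i) * (∏ c ∈ T.tri q, T.L c) * g) {i j : Fin k} (hi : i ∈ T.tri q)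
    (hj : j ∈ T.tri q) : T.L i * T.L j * (H i - H j) =
      C (y i * x j - y j * x i) * (∏ c ∈ T.tri q, T.L c) * g := by
  have hL : ∀ i ∈ T.tri q, T.L i = C (x i) * T.L b1 + C (y i) * T.L b2 := by
    intro i hi
    have h := congrArg lin (hxy i hi)
    rw [lin_add, lin_smul, lin_smul] at h
    exact h
  apply mul_left_cancel₀ (T.L_ne_zero b1)
  have h1 := hH i hi
  have h2 := hH j hj
  have h3 := hL i hi
  have h4 := hL j hj
  have h5 : C (y i) * T.L j - C (y j) * T.L i = C (y i * x j - y j * x i) * T.L b1 := by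
    rw [h3, h4]
    simp only [map_sub, map_mul]
    ring
  linear_combination T.L j * h1 - T.L i * h2 + (∏ c ∈ T.tri q, T.L c) * g * h5

/-- Extraction of the pencil function. -/
theorem pen_exists {q : Fin r} {b1 b2 : Fin k} (h1 : b1 ∈ T.tri q) (h2 : b2 ∈ T.tri q)
    (h12 : b1 ≠ b2) {x y : Fin k → 𝕜}
    (hxy : ∀ i ∈ T.tri q, T.f i = x i • T.f b1 + y i • T.f b2)
    (hy : ∀ i ∈ T.tri q, i ≠ b1 → y i ≠ 0) (hyb : y b1 = 0) {H : Fin k → RK 𝕜} {e0 : ℕ}
    (hhom : ∀ i, (H i).IsHomogeneous e0)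
    (hrel : ∀ c : Fin k → 𝕜, ∑ i, c i • T.f i = 0 → ∑ i, C (c i) * (T.L i * H i) = 0) :
    ∃ g : RK 𝕜, g.IsHomogeneous (e0 + 1 - ((T.tri q).card - 1)) ∧
      ∀ i ∈ T.tri q, T.L i * T.L b1 * (H i - H b1) =
        C (y i) * (∏ c ∈ T.tri q, T.L c) * g := by
  classical
  set Θ := T.L b2 * (H b2 - H b1) with hΘ
  have hL : ∀ i ∈ T.tri q, T.L i = C (x i) * T.L b1 + C (y i) * T.L b2 := by
    intro i hi
    have h := congrArg lin (hxy i hi)
    rw [lin_add, lin_smul, lin_smul] at h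
    exact h
  have hkey : ∀ i ∈ T.tri q, T.L i * (H i - H b1) = C (y i) * Θ := by
    intro i hi
    have h3 : ∑ l, (Pi.single i 1 + (-x i) • Pi.single b1 1 + (-y i) • Pi.single b2 1 :
        Fin k → 𝕜) l • T.f l = 0 := by
      simp only [Pi.add_apply, Pi.smul_apply, smul_eq_mul, add_smul, Finset.sum_add_distrib]
      have h4 : ∀ (s : 𝕜) (m : Fin k), ∑ l, (s * (Pi.single m 1 : Fin k → 𝕜) l) • T.f l =
          s • T.f m := by
        intro s m
        rw [Finset.sum_eq_single m]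
        · simp
        · intro l _ hl
          rw [Pi.single_eq_of_ne hl, mul_zero, zero_smul]
        · intro h; exact absurd (Finset.mem_univ m) h
      have h5 : ∑ l, (Pi.single i 1 : Fin k → 𝕜) l • T.f l = T.f i := by
        have := h4 1 i
        simpa using this
      rw [h4, h4, h5]
      conv_lhs => rw [hxy i hi]
      module
    have h6 := hrel _ h3
    have h7 : ∀ (s : 𝕜) (m : Fin k), ∑ l, C (s * (Pi.single m 1 : Fin k → 𝕜) l) *
        (T.L l * H l) = C s * (T.L m * H m) := by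
      intro s m
      rw [Finset.sum_eq_single m]
      · simp
      · intro l _ hl
        rw [Pi.single_eq_of_ne hl, mul_zero, map_zero, zero_mul]
      · intro h; exact absurd (Finset.mem_univ m) h
    have h8 : ∑ l, C ((Pi.single i 1 : Fin k → 𝕜) l) * (T.L l * H l) = T.L i * H i := by
      have := h7 1 i
      simpa using this
    simp only [Pi.add_apply, Pi.smul_apply, smul_eq_mul, map_add, add_mul,
      Finset.sum_add_distrib] at h6
    rw [h7, h7, h8] at h6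
    rw [map_neg, map_neg] at h6
    have h9 := hL i hi
    rw [hΘ]
    linear_combination h6 - H b1 * h9
  have hdiv : ∀ i ∈ (T.tri q).erase b1, T.L i ^ 1 ∣ Θ := by
    intro i hi
    have hi' := Finset.mem_of_mem_erase hi
    have hyi := hy i hi' (Finset.ne_of_mem_erase hi)
    have h3 := hkey i hi'
    rw [pow_one]
    refine ⟨C (y i)⁻¹ * (H i - H b1), ?_⟩
    have h4 : C (y i)⁻¹ * C (y i) = (1 : RK 𝕜) := by
      rw [← map_mul, inv_mul_cancel₀ hyi, map_one]
    linear_combination (-C (y i)⁻¹) * h3 - Θ * h4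
  obtain ⟨g, hg⟩ := T.prod_L_dvd ((T.tri q).erase b1) (fun _ => 1) Θ hdiv
  simp only [pow_one] at hg
  refine ⟨g, ?_, ?_⟩
  · by_cases hg0 : g = 0
    · rw [hg0]; exact isHomogeneous_zero _ _ _
    have h3 : (∏ i ∈ (T.tri q).erase b1, T.L i).IsHomogeneous ((T.tri q).card - 1) := by
      have h4 := IsHomogeneous.prod ((T.tri q).erase b1) (fun i => T.L i) (fun _ => 1)
        (fun i _ => T.L_hom i)
      rw [Finset.sum_const, smul_eq_mul, mul_one, Finset.card_erase_of_mem h1] at h4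
      exact h4
    have h4 : Θ.IsHomogeneous (e0 + 1) := by
      have := (T.L_hom b2).mul ((hhom b2).sub (hhom b1))
      rwa [add_comm] at this
    rw [hg] at h4
    exact (hom_of_mul h3 (Finset.prod_ne_zero_iff.mpr fun i _ => T.L_ne_zero i) hg0 h4).2
  · intro i hi
    have h3 := hkey i hi
    rw [← Finset.mul_prod_erase _ _ h1]
    rw [hg] at h3
    linear_combination T.L b1 * h3

/-- The potentials. -/
def Zp (T : TConf 𝕜 k r) (q : Fin r) (b1 : Fin k) (y : Fin k → 𝕜) (P : RK 𝕜) (i : Fin k) : RK 𝕜 :=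
  if i ∈ T.tri q then C (y i) * (∏ c ∈ ((T.tri q).erase b1).erase i, T.L c) * P else 0

theorem Zp_b1 {q : Fin r} {b1 : Fin k} {y : Fin k → 𝕜} (hyb : y b1 = 0) (P : RK 𝕜) :
    T.Zp q b1 y P b1 = 0 := by
  rw [Zp, hyb]; simp

theorem Zp_eq {q : Fin r} {b1 : Fin k} (h1 : b1 ∈ T.tri q) {y : Fin k → 𝕜} (hyb : y b1 = 0)
    (P : RK 𝕜) {i : Fin k} (hi : i ∈ T.tri q) :
    T.L i * T.L b1 * (T.Zp q b1 y P i - T.Zp q b1 y P b1) =
      C (y i) * (∏ c ∈ T.tri q, T.L c) * P := by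
  rw [Zp_b1 hyb, sub_zero, Zp, if_pos hi]
  by_cases hib : i = b1
  · subst hib
    rw [hyb]; simp
  · rw [← Finset.mul_prod_erase _ _ h1, ← Finset.mul_prod_erase ((T.tri q).erase b1) (fun c => T.L c)
      (Finset.mem_erase.mpr ⟨hib, hi⟩)]
    ring

theorem Zp_hom {q : Fin r} {b1 : Fin k} (h1 : b1 ∈ T.tri q) {y : Fin k → 𝕜} (hyb : y b1 = 0)
    {P : RK 𝕜} {e e0 : ℕ} (hP : P.IsHomogeneous e) (he : (T.tri q).card - 2 + e = e0) (i : Fin k) :
    (T.Zp q b1 y P i).IsHomogeneous e0 := by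
  rw [Zp]
  split_ifs with hi
  · by_cases hib : i = b1
    · subst hib
      rw [hyb, map_zero, zero_mul, zero_mul]; exact isHomogeneous_zero _ _ _
    · have h4 := IsHomogeneous.prod (((T.tri q).erase b1).erase i) (fun i => T.L i) (fun _ => 1)
        (fun i _ => T.L_hom i)
      rw [Finset.sum_const, smul_eq_mul, mul_one, Finset.card_erase_of_mem
        (Finset.mem_erase.mpr ⟨hib, hi⟩), Finset.card_erase_of_mem h1] at h4
      have h5 := ((isHomogeneous_C (Fin 3) (y i)).mul h4).mul hP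
      rwa [zero_add, show (T.tri q).card - 1 - 1 = (T.tri q).card - 2 from rfl, he] at h5
  · exact isHomogeneous_zero _ _ _

theorem Zp_rel {q : Fin r} {b1 b2 : Fin k} (h1 : b1 ∈ T.tri q) (h12 : b1 ≠ b2) {x y : Fin k → 𝕜}
    (hxy : ∀ i ∈ T.tri q, T.f i = x i • T.f b1 + y i • T.f b2) (hyb : y b1 = 0) (P : RK 𝕜)
    {c : Fin k → 𝕜} (hc : ∀ i, i ∉ T.tri q → c i = 0) (hc0 : ∑ i, c i • T.f i = 0) :
    ∑ i, C (c i) * (T.L i * T.Zp q b1 y P i) = 0 := by
  have hsum : ∑ i, c i * y i = 0 := by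
    have h3 : (∑ i, c i * x i) • T.f b1 + (∑ i, c i * y i) • T.f b2 = 0 := by
      rw [← hc0, Finset.sum_smul, Finset.sum_smul, ← Finset.sum_add_distrib]
      refine Finset.sum_congr rfl fun i _ => ?_
      by_cases hi : i ∈ T.tri q
      · conv_rhs => rw [hxy i hi]
        module
      · rw [hc i hi]; simp
    exact (f_indep h12 h3).2
  apply (mul_eq_zero.mp ?_).resolve_left (T.L_ne_zero b1)
  have h4 : T.L b1 * ∑ i, C (c i) * (T.L i * T.Zp q b1 y P i) =
      (∑ i, C (c i * y i)) * ((∏ c ∈ T.tri q, T.L c) * P) := by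
    rw [Finset.mul_sum, Finset.sum_mul]
    refine Finset.sum_congr rfl fun i _ => ?_
    by_cases hi : i ∈ T.tri q
    · have h5 := Zp_eq h1 hyb P hi
      rw [Zp_b1 hyb, sub_zero] at h5
      rw [map_mul]
      linear_combination C (c i) * h5
    · rw [hc i hi]; simp
  rw [h4, ← map_sum, hsum, map_zero, zero_mul]

theorem prod_cancel {D : Crv k r} (s : Finset (Fin k)) : ∀ {m : ℕ} {x : RK 𝕜},
    (∏ c ∈ s, T.L c) * x ∈ T.J D (m + ∑ c ∈ s, T.val D c) → x ∈ T.J D m := by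
  classical
  induction s using Finset.induction_on with
  | empty => intro m x hx; simpa using hx
  | insert j s hj ih =>
    intro m x hx
    rw [Finset.prod_insert hj, Finset.sum_insert hj, mul_assoc] at hx
    refine ih (T.cancel (j := j) ?_)
    have : m + ∑ c ∈ s, T.val D c + T.val D j = m + (T.val D j + ∑ c ∈ s, T.val D c) := by ring
    rw [this]
    exact hx

theorem prod_mem {D : Crv k r} (s : Finset (Fin k)) :
    (∏ c ∈ s, T.L c) ∈ T.J D (∑ c ∈ s, T.val D c) := by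
  have h := T.prod_L_mem_J D (fun _ => 1) s
  simpa using h

theorem C_mem_iff {D : Crv k r} {m : ℕ} {s : 𝕜} (hs : s ≠ 0) {x : RK 𝕜} :
    C s * x ∈ T.J D m ↔ x ∈ T.J D m := by
  constructor
  · intro h
    have h1 := (T.J D m).mul_mem_left (C s⁻¹) h
    rwa [← mul_assoc, ← map_mul, inv_mul_cancel₀ hs, map_one, one_mul] at h1
  · intro h; exact (T.J D m).mul_mem_left _ h

/-- From a pair to the pencil function. -/
theorem pen_to {q : Fin r} {D : Crv k r} {i j : Fin k} {s : 𝕜} (hs : s ≠ 0) {F g : RK 𝕜}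
    (hF : T.L i * T.L j * F = C s * (∏ c ∈ T.tri q, T.L c) * g) {m m' : ℕ}
    (hm : m' + ∑ c ∈ T.tri q, T.val D c ≤ m + T.val D i + T.val D j) (h : F ∈ T.J D m) :
    g ∈ T.J D m' := by
  refine T.prod_cancel (T.tri q) (T.C_mem_iff hs |>.mp ?_)
  rw [← mul_assoc, ← hF]
  refine T.J_mono D hm ?_
  have h1 := T.mul_mem_J (T.mul_mem_J (T.L_mem_J D i) (T.L_mem_J D j)) h
  refine T.J_mono D ?_ h1
  omega

/-- From the pencil function to a pair. -/
theorem pen_from {q : Fin r} {D : Crv k r} {i j : Fin k} {s : 𝕜} {F g : RK 𝕜}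
    (hF : T.L i * T.L j * F = C s * (∏ c ∈ T.tri q, T.L c) * g) {m m' : ℕ}
    (hm : m + T.val D i + T.val D j ≤ m' + ∑ c ∈ T.tri q, T.val D c) (h : g ∈ T.J D m') :
    F ∈ T.J D m := by
  have h1 : T.L i * (T.L j * F) ∈ T.J D (m + T.val D j + T.val D i) := by
    rw [← mul_assoc, hF, mul_assoc]
    refine (T.J D _).mul_mem_left _ (T.J_mono D ?_ (T.mul_mem_J (T.prod_mem (T.tri q)) h))
    omega
  exact T.cancel (T.cancel h1)

end TConf

end

end Pool.Agent.H94_gen
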