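import Pool.Agent.H94_gen.Pen

/-!
# Solving the cocycle equations in one pencil
-/

namespace Pool.Agent.H94_gen

open MvPolynomial

noncomputable section

set_option linter.unusedSectionVars false

namespace TConf

variable {k r : ℕ}

/-- Number of lines through a curve. -/
def sz (T : TConf ℂ k r) (D : Crv k r) : ℕ := ∑ i, T.val D i

/-- The order of a monomial. -/
def ordN (T : TConf ℂ k r) (D : Crv k r) (m : Fin k → ℕ) : ℕ := ∑ i, T.val D i * m i

/-- The required order. -/
def gb (T : TConf ℂ k r) (n N : ℕ) (a : Fin k → ℕ) (i j : Fin k) (D : Crv k r) : ℕ :=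
  T.sz D * N - (T.ordN D a + (if T.val D i = T.val D j then 0 else 1)) / n

/-- The data of a cocycle for one character. -/
structure GData (T : TConf ℂ k r) (n N d : ℕ) (a : Fin k → ℕ)
    (G : Crv k r → Crv k r → Fin k → RK ℂ) : Prop where
  sym : ∀ D D', T.meet D D' → G D D' = G D' D
  hom : ∀ D D' i, (G D D' i).IsHomogeneous (k * N - d)
  rel : ∀ D D' (c : Fin k → ℂ), ∑ i, c i • T.f i = 0 →
    ∑ i, C (c i) * (T.L i * G D D' i) = 0
  ord : ∀ D D' D'' i j, T.meet D D' → T.meet D D'' →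
    (G D D' i - G D D' j) - (G D D'' i - G D D'' j) ∈ T.J D (T.gb n N a i j D)

/-- A solution of the cocycle equations for one character. -/
structure GSol (T : TConf ℂ k r) (n N d : ℕ) (a : Fin k → ℕ)
    (G : Crv k r → Crv k r → Fin k → RK ℂ) (P : Fin k → RK ℂ) : Prop where
  hom : ∀ i, (P i).IsHomogeneous (k * N - d)
  rel : ∀ c : Fin k → ℂ, ∑ i, c i • T.f i = 0 → ∑ i, C (c i) * (T.L i * P i) = 0
  reg : ∀ D D' i j, T.meet D D' →
    (P i - P j) - (G D D' i - G D D' j) ∈ T.J D (T.gb n N a i j D)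

/-- The cocycle equations can be solved for all characters. -/
def Solvable (T : TConf ℂ k r) (n : ℕ) : Prop :=
  ∀ a : Fin k → ℕ, (∀ i, a i < n) → ∀ d, ∑ i, a i = d * n → ∃ N0, ∀ N ≥ N0,
    ∀ G : Crv k r → Crv k r → Fin k → RK ℂ, T.GData n N d a G → ∃ P, T.GSol n N d a G P

/-- Completeness of the data. -/
structure Full (T : TConf ℂ k r) : Prop where
  ok : T.Ok
  three : ∀ q, 3 ≤ (T.tri q).card
  out : ∀ q, ∃ w, w ∉ T.tri q
  pts : Nonempty (Fin r)

variable {T : TConf ℂ k r}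

theorem sz_inl (l : Fin k) : T.sz (Sum.inl l) = 1 := by
  simp [sz, val]

theorem sz_inr (x : Fin r) : T.sz (Sum.inr x) = (T.tri x).card := by
  simp [sz, val]

theorem ordN_inl (l : Fin k) (a : Fin k → ℕ) : T.ordN (Sum.inl l) a = a l := by
  simp [ordN, val]

theorem ordN_inr (x : Fin r) (a : Fin k → ℕ) :
    T.ordN (Sum.inr x) a = ∑ l ∈ T.tri x, a l := by
  simp [ordN, val]

/-- The class in a pencil. -/
def eq' (T : TConf ℂ k r) (n : ℕ) (a : Fin k → ℕ) (q x : Fin r) : ℕ :=
  if x = q then (∑ l ∈ T.tri q, a l) / n + (T.tri q).card - 2 -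
    ((T.tri q).filter fun l => a l + 1 = n).card
  else (∑ l ∈ T.tri x, T.bb n a q l) / n

/-- The orders in a pencil. -/
def Al (T : TConf ℂ k r) (n N : ℕ) (a : Fin k → ℕ) (q : Fin r) (l : Fin k) : ℕ :=
  if l ∈ T.tri q then N - (a l + 1) / n else N

/-- The orders in a pencil. -/
def Aq (T : TConf ℂ k r) (n N : ℕ) (a : Fin k → ℕ) (q : Fin r) : Crv k r → ℕ
  | Sum.inl l => T.Al n N a q l
  | Sum.inr x => ∑ l ∈ T.tri x, T.Al n N a q l - T.eq' n a q x

theorem fl_le {n : ℕ} {a : Fin k → ℕ} (ha : ∀ i, a i < n) (l : Fin k) : (a l + 1) / n ≤ 1 := by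
  have h1 := ha l
  have hn : 0 < n := by omega
  have : (a l + 1) / n < 2 := Nat.div_lt_of_lt_mul (by omega)
  omega

theorem fl_eq {n : ℕ} {a : Fin k → ℕ} (ha : ∀ i, a i < n) (l : Fin k) :
    (a l + 1) / n = if a l + 1 = n then 1 else 0 := by
  have h1 := ha l
  split_ifs with h
  · rw [h]; exact Nat.div_self (by omega)
  · exact Nat.div_eq_of_lt (by omega)

theorem sum_Al {n N : ℕ} {a : Fin k → ℕ} (ha : ∀ i, a i < n) (hN : 1 ≤ N) (q : Fin r)
    (s : Finset (Fin k)) : ∑ l ∈ s, T.Al n N a q l +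
      ∑ l ∈ s, (if l ∈ T.tri q then (a l + 1) / n else 0) = s.card * N := by
  rw [← Finset.sum_add_distrib, ← smul_eq_mul, ← Finset.sum_const]
  refine Finset.sum_congr rfl fun l _ => ?_
  rw [Al]
  have := fl_le ha l
  split_ifs <;> omega

theorem sum_bb {n : ℕ} {a : Fin k → ℕ} (q : Fin r) (s : Finset (Fin k)) :
    ∑ l ∈ s, T.bb n a q l + n * ∑ l ∈ s, (if l ∈ T.tri q then (a l + 1) / n else 0) =
      ∑ l ∈ s, a l + ∑ l ∈ s, (if l ∈ T.tri q then 1 else 0) := by
  rw [Finset.mul_sum, ← Finset.sum_add_distrib, ← Finset.sum_add_distrib]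
  refine Finset.sum_congr rfl fun l _ => ?_
  rw [bb]
  split_ifs
  · exact Nat.mod_add_div _ _
  · simp

theorem sum_val_q (q : Fin r) (x : Fin r) :
    ∑ c ∈ T.tri q, T.val (Sum.inr x) c = ∑ l ∈ T.tri x, (if l ∈ T.tri q then 1 else 0) := by
  simp only [val]
  rw [← Finset.card_filter, ← Finset.card_filter]
  congr 1
  ext l
  simp only [Finset.mem_filter]
  tauto

theorem sum_a_lt {n : ℕ} {a : Fin k → ℕ} (ha : ∀ i, a i < n) {x : Fin r}
    (hx : 1 ≤ (T.tri x).card) : (∑ l ∈ T.tri x, a l + 1) / n ≤ (T.tri x).card := by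
  have h1 : ∑ l ∈ T.tri x, a l + (T.tri x).card ≤ (T.tri x).card * n := by
    rw [Finset.card_eq_sum_ones, ← Finset.sum_add_distrib, Finset.sum_mul]
    refine Finset.sum_le_sum fun l _ => ?_
    have := ha l
    omega
  have h2 : (∑ l ∈ T.tri x, a l + 1) / n ≤ ((T.tri x).card * n) / n :=
    Nat.div_le_div_right (by omega)
  rcases Nat.eq_zero_or_pos n with h0 | h0
  · rw [h0, Nat.div_zero]; exact Nat.zero_le _
  · rwa [Nat.mul_div_cancel _ h0] at h2

theorem s_le {n : ℕ} {a : Fin k → ℕ} {q : Fin r} (hn : (T.tri q).card < n) :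
    ((T.tri q).filter fun l => a l + 1 = n).card ≤ (∑ l ∈ T.tri q, a l) / n + 1 := by
  set s := ((T.tri q).filter fun l => a l + 1 = n).card with hs
  have h1 : s * (n - 1) ≤ ∑ l ∈ T.tri q, a l := by
    rw [hs, ← smul_eq_mul, ← Finset.sum_const]
    refine le_trans (Finset.sum_le_sum fun l hl => ?_)
      (Finset.sum_le_sum_of_subset (Finset.filter_subset _ _))
    have := (Finset.mem_filter.mp hl).2
    omega
  have h2 : s ≤ (T.tri q).card := Finset.card_filter_le _ _
  have h3 := Nat.lt_mul_div_succ (∑ l ∈ T.tri q, a l) (b := n) (by omega)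
  generalize (∑ l ∈ T.tri q, a l) / n = v at h3 ⊢
  generalize (∑ l ∈ T.tri q, a l) = S at h1 h3
  clear_value s
  obtain ⟨n', rfl⟩ : ∃ n', n = n' + 1 := ⟨n - 1, by omega⟩
  rw [Nat.add_sub_cancel] at h1
  by_contra hcon
  push Not at hcon
  obtain ⟨t, rfl⟩ := Nat.exists_eq_add_of_lt hcon
  have h4 : (n' + 1) * (v + 1) ≤ (v + 1 + t + 1) * n' := by
    nlinarith
  omega

/-- The order of the class at the other points. -/
theorem Aq_inr {n N : ℕ} {a : Fin k → ℕ} (ha : ∀ i, a i < n) (hn : 0 < n) (hN : 1 ≤ N)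
    {q x : Fin r} (hx : x ≠ q) :
    T.Aq n N a q (Sum.inr x) = (T.tri x).card * N -
      (∑ l ∈ T.tri x, a l + ∑ c ∈ T.tri q, T.val (Sum.inr x) c) / n := by
  have h1 := T.sum_Al ha hN q (T.tri x)
  have h2 := T.sum_bb (n := n) (a := a) q (T.tri x)
  rw [Aq, eq', if_neg hx, sum_val_q, ← h2, mul_comm n, Nat.add_mul_div_right _ _ hn]
  omega

theorem Aq_inr_self {n N : ℕ} {a : Fin k → ℕ} (ha : ∀ i, a i < n) (hN : 3 ≤ N)
    {q : Fin r} (h3 : 3 ≤ (T.tri q).card) (hn : (T.tri q).card < n) :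
    T.Aq n N a q (Sum.inr q) + (T.tri q).card = (T.tri q).card * N -
      (∑ l ∈ T.tri q, a l) / n + 2 := by
  have h1 := T.sum_Al ha (by omega : 1 ≤ N) q (T.tri q)
  have h2 : ∑ l ∈ T.tri q, (if l ∈ T.tri q then (a l + 1) / n else 0) =
      ((T.tri q).filter fun l => a l + 1 = n).card := by
    rw [Finset.card_filter]
    refine Finset.sum_congr rfl fun l hl => ?_
    rw [if_pos hl, fl_eq ha]
  rw [h2] at h1
  have h4 := T.s_le (a := a) hn
  have h5 : (T.tri q).card * 3 ≤ (T.tri q).card * N := Nat.mul_le_mul_left _ hN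
  have h6 := T.sum_a_lt ha (x := q) (by omega)
  have h7 : (∑ l ∈ T.tri q, a l) / n ≤ (∑ l ∈ T.tri q, a l + 1) / n :=
    Nat.div_le_div_right (by omega)
  have h8 : ((T.tri q).filter fun l => a l + 1 = n).card ≤ (T.tri q).card :=
    Finset.card_filter_le _ _
  rw [Aq, eq', if_pos rfl]
  omega

theorem pair_le {n N : ℕ} {a : Fin k → ℕ} (ha : ∀ i, a i < n) (hN : 3 ≤ N)
    {q : Fin r} (hF : T.Full) (hn : (T.tri q).card < n) (D : Crv k r) {i j : Fin k}
    (hi : i ∈ T.tri q) (hj : j ∈ T.tri q) (hij : i ≠ j) :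
    T.gb n N a i j D + T.val D i + T.val D j ≤ T.Aq n N a q D + ∑ c ∈ T.tri q, T.val D c := by
  have h3 := hF.three q
  have hn0 : 0 < n := by omega
  rcases D with l | x
  · rw [gb, sz_inl, ordN_inl, Aq, Al]
    simp only [val, Finset.sum_ite_eq]
    have h1 := fl_le ha l
    have h2 : a l / n = 0 := Nat.div_eq_of_lt (ha l)
    by_cases hli : l = i
    · subst hli
      simp only [if_true, if_neg hij, if_pos hi, one_mul, Nat.one_ne_zero, if_false]
      omega
    · by_cases hlj : l = j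
      · subst hlj
        simp only [if_true, if_neg hli, if_pos hj, one_mul, if_false, Nat.zero_ne_one]
        omega
      · simp only [if_neg hli, if_neg hlj, if_true, one_mul, add_zero, h2]
        split_ifs <;> omega
  · have h5 := T.sum_a_lt ha (x := x) (by have := hF.three x; omega)
    have h6 : (∑ l ∈ T.tri x, a l) / n ≤ (∑ l ∈ T.tri x, a l + 1) / n :=
      Nat.div_le_div_right (by omega)
    have h7 : (T.tri x).card * 3 ≤ (T.tri x).card * N := Nat.mul_le_mul_left _ hN
    by_cases hx : x = q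
    · subst hx
      have h4 := T.Aq_inr_self ha hN h3 hn
      have hs : ∑ c ∈ T.tri x, T.val (Sum.inr x) c = (T.tri x).card := by
        rw [sum_val_q, Finset.card_eq_sum_ones]
        exact Finset.sum_congr rfl fun l hl => by rw [if_pos hl]
      rw [hs, gb, sz_inr, ordN_inr]
      simp only [val, if_pos hi, if_pos hj, if_true, add_zero]
      omega
    · rw [Aq_inr ha hn0 (by omega) hx, gb, sz_inr, ordN_inr]
      have h8 := T.inter_le_one hx
      have h9 : ∑ c ∈ T.tri q, T.val (Sum.inr x) c = (T.tri x ∩ T.tri q).card := by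
        rw [sum_val_q, ← Finset.card_filter]
        congr 1
      rw [Finset.card_le_one] at h8
      have h10 : (T.tri x ∩ T.tri q).card ≤ 1 := T.inter_le_one hx
      rw [h9]
      simp only [val]
      have h11 : (∑ l ∈ T.tri x, a l + 1) / n ≤ (∑ l ∈ T.tri x, a l) / n + 1 := by
        rw [← Nat.add_div_right _ hn0]
        exact Nat.div_le_div_right (by omega)
      by_cases hix : i ∈ T.tri x
      · have h12 : j ∉ T.tri x := by
          intro hjx
          exact hij (h8 i (Finset.mem_inter.mpr ⟨hix, hi⟩) j (Finset.mem_inter.mpr ⟨hjx, hj⟩))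
        have h13 : 1 ≤ (T.tri x ∩ T.tri q).card :=
          Finset.card_pos.mpr ⟨i, Finset.mem_inter.mpr ⟨hix, hi⟩⟩
        have h14 : (T.tri x ∩ T.tri q).card = 1 := by omega
        rw [h14]
        simp only [if_pos hix, if_neg h12, Nat.one_ne_zero, if_false, add_zero]
        exact le_rfl
      · by_cases hjx : j ∈ T.tri x
        · have h13 : 1 ≤ (T.tri x ∩ T.tri q).card :=
            Finset.card_pos.mpr ⟨j, Finset.mem_inter.mpr ⟨hjx, hj⟩⟩
          have h14 : (T.tri x ∩ T.tri q).card = 1 := by omega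
          rw [h14]
          simp only [if_pos hjx, if_neg hix, Nat.zero_ne_one, if_false, add_zero]
          exact le_rfl
        · simp only [if_neg hjx, if_neg hix, if_true, add_zero]
          interval_cases (T.tri x ∩ T.tri q).card
          · simp
          · omega

theorem pair_ge {n N : ℕ} {a : Fin k → ℕ} (ha : ∀ i, a i < n) (hN : 3 ≤ N)
    {q : Fin r} (hF : T.Full) (hn : (T.tri q).card < n) (D : Crv k r) :
    ∃ i ∈ T.tri q, ∃ j ∈ T.tri q, i ≠ j ∧
    T.Aq n N a q D + ∑ c ∈ T.tri q, T.val D c ≤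
      T.gb n N a i j D + T.val D i + T.val D j := by
  have h3 := hF.three q
  have hn0 : 0 < n := by omega
  obtain ⟨b1, hb1⟩ := hF.ok.ne q
  have hoth : ∀ i : Fin k, ∃ c ∈ T.tri q, c ≠ i := by
    intro i
    obtain ⟨c, hc, hci⟩ := Finset.exists_mem_ne (by omega : 1 < (T.tri q).card) i
    exact ⟨c, hc, hci⟩
  obtain ⟨b2, hb2, hb21⟩ := hoth b1
  rcases D with l | x
  · by_cases hl : l ∈ T.tri q
    · obtain ⟨c, hc, hcl⟩ := hoth l
      refine ⟨l, hl, c, hc, hcl.symm, ?_⟩
      rw [gb, sz_inl, ordN_inl, Aq, Al]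
      simp only [val, Finset.sum_ite_eq, if_pos hl, if_true, if_neg hcl.symm, Nat.one_ne_zero,
        if_false, one_mul, add_zero]
      exact le_rfl
    · refine ⟨b1, hb1, b2, hb2, hb21.symm, ?_⟩
      have h4 : l ≠ b1 := by rintro rfl; exact hl hb1
      have h5 : l ≠ b2 := by rintro rfl; exact hl hb2
      rw [gb, sz_inl, ordN_inl, Aq, Al]
      have h2 : a l / n = 0 := Nat.div_eq_of_lt (ha l)
      simp only [val, Finset.sum_ite_eq, if_neg hl, if_true, if_neg h4, if_neg h5, one_mul,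
        add_zero, h2]
      omega
  · by_cases hx : x = q
    · subst hx
      refine ⟨b1, hb1, b2, hb2, hb21.symm, ?_⟩
      have h4 := T.Aq_inr_self ha hN h3 hn
      have hs : ∑ c ∈ T.tri x, T.val (Sum.inr x) c = (T.tri x).card := by
        rw [sum_val_q, Finset.card_eq_sum_ones]
        exact Finset.sum_congr rfl fun l hl => by rw [if_pos hl]
      rw [hs, gb, sz_inr, ordN_inr]
      simp only [val, if_pos hb1, if_pos hb2, if_true, add_zero]
      omega
    · have h9 : ∑ c ∈ T.tri q, T.val (Sum.inr x) c = (T.tri x ∩ T.tri q).card := by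
        rw [sum_val_q, ← Finset.card_filter]
        congr 1
      have h10 : (T.tri x ∩ T.tri q).card ≤ 1 := T.inter_le_one hx
      rcases Finset.eq_empty_or_nonempty (T.tri x ∩ T.tri q) with h6 | ⟨c, hc⟩
      · refine ⟨b1, hb1, b2, hb2, hb21.symm, ?_⟩
        have h4 : ∀ i ∈ T.tri q, i ∉ T.tri x := by
          intro i hi hix
          have : i ∈ T.tri x ∩ T.tri q := Finset.mem_inter.mpr ⟨hix, hi⟩
          rw [h6] at this
          simp at this
        rw [Aq_inr ha hn0 (by omega) hx, gb, sz_inr, ordN_inr, h9, h6]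
        simp only [val, if_neg (h4 b1 hb1), if_neg (h4 b2 hb2), if_true, add_zero,
          Finset.card_empty]
        exact le_rfl
      · rw [Finset.mem_inter] at hc
        obtain ⟨c', hc', hcc⟩ := hoth c
        refine ⟨c, hc.2, c', hc', hcc.symm, ?_⟩
        have h11 : c' ∉ T.tri x := by
          intro h12
          have h13 := Finset.card_le_one.mp h10
          exact hcc (h13 c' (Finset.mem_inter.mpr ⟨h12, hc'⟩) c (Finset.mem_inter.mpr hc))
        have h13 : 1 ≤ (T.tri x ∩ T.tri q).card :=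
          Finset.card_pos.mpr ⟨c, Finset.mem_inter.mpr hc⟩
        have h14 : (T.tri x ∩ T.tri q).card = 1 := by omega
        rw [Aq_inr ha hn0 (by omega) hx, gb, sz_inr, ordN_inr, h9, h14]
        simp only [val, if_pos hc.1, if_neg h11, Nat.one_ne_zero, if_false, add_zero]
        exact le_rfl

/-- Solving the cocycle equations in one pencil. -/
theorem pencil_sol (hF : T.Full) (hk : 2 ≤ k) {n N d : ℕ} {a : Fin k → ℕ} (ha : ∀ i, a i < n)
    (hd : ∑ i, a i = d * n) (hN : 3 ≤ N) (q : Fin r) (hn : (T.tri q).card < n)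
    (hnl : ∑ l ∈ T.tri q, a l < d * n) {G : Crv k r → Crv k r → Fin k → RK ℂ}
    (hG : T.GData n N d a G) : ∃ Z : Fin k → RK ℂ, (∀ i, (Z i).IsHomogeneous (k * N - d)) ∧
      (∀ c : Fin k → ℂ, (∀ i, i ∉ T.tri q → c i = 0) → ∑ i, c i • T.f i = 0 →
        ∑ i, C (c i) * (T.L i * Z i) = 0) ∧
      ∀ D D' i j, T.meet D D' → i ∈ T.tri q → j ∈ T.tri q →
        (Z i - Z j) - (G D D' i - G D D' j) ∈ T.J D (T.gb n N a i j D) := by
  have h3 := hF.three q
  have hn0 : 0 < n := by omega
  obtain ⟨b1, hb1⟩ := hF.ok.ne q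
  obtain ⟨b2, hb2, hb21⟩ := Finset.exists_mem_ne (by omega : 1 < (T.tri q).card) b1
  obtain ⟨x, y, hxy, hy, hyb, hs⟩ := T.exists_coord hb1 hb2 hb21.symm
  have hgf : ∀ H : Fin k → RK ℂ, ∃ g : RK ℂ,
      ((∀ i, (H i).IsHomogeneous (k * N - d)) ∧
        (∀ c : Fin k → ℂ, ∑ i, c i • T.f i = 0 → ∑ i, C (c i) * (T.L i * H i) = 0)) →
      g.IsHomogeneous (k * N - d + 1 - ((T.tri q).card - 1)) ∧
      ∀ i ∈ T.tri q, T.L i * T.L b1 * (H i - H b1) =
        C (y i) * (∏ c ∈ T.tri q, T.L c) * g := by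
    intro H
    by_cases h : (∀ i, (H i).IsHomogeneous (k * N - d)) ∧
        (∀ c : Fin k → ℂ, ∑ i, c i • T.f i = 0 → ∑ i, C (c i) * (T.L i * H i) = 0)
    · obtain ⟨g, h1, h2⟩ := T.pen_exists hb1 hb2 hb21.symm hxy hy hyb h.1 h.2
      exact ⟨g, fun _ => ⟨h1, h2⟩⟩
    · exact ⟨0, fun h' => absurd h' h⟩
  choose gf hgf using hgf
  have hg : ∀ D D', (gf (G D D')).IsHomogeneous (k * N - d + 1 - ((T.tri q).card - 1)) ∧
      ∀ i ∈ T.tri q, T.L i * T.L b1 * (G D D' i - G D D' b1) =
        C (y i) * (∏ c ∈ T.tri q, T.L c) * gf (G D D') :=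
    fun D D' => hgf _ ⟨hG.hom D D', hG.rel D D'⟩
  have hgp : ∀ D D', ∀ i ∈ T.tri q, ∀ j ∈ T.tri q, T.L i * T.L j * (G D D' i - G D D' j) =
      C (y i * x j - y j * x i) * (∏ c ∈ T.tri q, T.L c) * gf (G D D') :=
    fun D D' i hi j hj => T.pen_pair hxy (hg D D').2 hi hj
  -- numerical data
  set s := ((T.tri q).filter fun l => a l + 1 = n).card with hsdef
  have hsle := T.s_le (a := a) hn
  rw [← hsdef] at hsle
  have hvd : (∑ l ∈ T.tri q, a l) / n < d := Nat.div_lt_of_lt_mul (by rw [mul_comm]; exact hnl)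
  have hqk : (T.tri q).card ≤ k := by
    have := Finset.card_le_univ (T.tri q)
    simpa using this
  have hdk : d ≤ k := by
    have h1 : d * n ≤ k * n := by
      rw [← hd]
      calc ∑ i, a i ≤ ∑ _i : Fin k, n := Finset.sum_le_sum fun i _ => (ha i).le
        _ = k * n := by simp
    exact Nat.le_of_mul_le_mul_right h1 hn0
  have hkN : k * 3 ≤ k * N := Nat.mul_le_mul_left _ hN
  obtain ⟨u, hu⟩ : ∃ u, u + 2 + s = d + (T.tri q).card := ⟨d + (T.tri q).card - 2 - s, by omega⟩
  have hLBV := pv_complex T hF.ok hk ha hd q h3 hn hnl (u := u) (ε := T.eq' n a q) hu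
    (by rw [eq', if_pos rfl]; omega) (fun x hx => by rw [eq', if_neg hx])
  have hsumA := T.sum_Al ha (by omega : 1 ≤ N) q Finset.univ
  have hfl : ∑ l, (if l ∈ T.tri q then (a l + 1) / n else 0) = s := by
    rw [hsdef, Finset.card_filter, ← Finset.sum_filter, Finset.filter_mem_eq_inter,
      Finset.univ_inter]
    exact Finset.sum_congr rfl fun l _ => fl_eq ha l
  rw [hfl, Finset.card_univ, Fintype.card_fin] at hsumA
  have hle : ∀ x, T.eq' n a q x ≤ ∑ l ∈ T.tri x, T.Al n N a q l := by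
    intro x
    have h4 := T.sum_Al ha (by omega : 1 ≤ N) q (T.tri x)
    have h5 : ∑ l ∈ T.tri x, (if l ∈ T.tri q then (a l + 1) / n else 0) ≤ (T.tri x).card := by
      rw [Finset.card_eq_sum_ones]
      refine Finset.sum_le_sum fun l _ => ?_
      have := fl_le ha l
      split_ifs <;> omega
    have h7 : (T.tri x).card * 3 ≤ (T.tri x).card * N := Nat.mul_le_mul_left _ hN
    have h8 := T.sum_a_lt ha (x := x) (by have := hF.three x; omega)
    rw [eq']
    split_ifs with hx
    · subst hx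
      have h6 : (∑ l ∈ T.tri x, a l) / n ≤ (∑ l ∈ T.tri x, a l + 1) / n :=
        Nat.div_le_div_right (by omega)
      omega
    · have h9 := T.sum_bb (n := n) (a := a) q (T.tri x)
      have h10 : ∑ l ∈ T.tri x, (if l ∈ T.tri q then 1 else 0) ≤ 1 := by
        rw [← Finset.card_filter]
        exact T.inter_le_one hx
      have h11 : (∑ l ∈ T.tri x, T.bb n a q l) / n ≤ (∑ l ∈ T.tri x, a l + 1) / n :=
        Nat.div_le_div_right (by omega)
      omega
  obtain ⟨P, hP, hP'⟩ := hLBV (T.Aq n N a q) (k * N - d + 1 - ((T.tri q).card - 1)) (by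
      have h4 : ((∑ l, T.Al n N a q l : ℕ) : ℤ) + s = k * N := by exact_mod_cast hsumA
      have h5 : ((k * N - d + 1 - ((T.tri q).card - 1) : ℕ) : ℤ) =
          k * N - d + 1 - ((T.tri q).card - 1) := by
        have h6 : (T.tri q).card - 1 ≤ k * N - d + 1 := by omega
        have h7 : d ≤ k * N := by omega
        rw [Nat.cast_sub h6, Nat.cast_add, Nat.cast_sub h7, Nat.cast_sub (by omega)]
        push_cast; ring
      have h6 : (u : ℤ) + 2 + s = d + (T.tri q).card := by exact_mod_cast hu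
      change _ = -(u : ℤ) + ∑ l, (T.Al n N a q l : ℤ)
      rw [h5]
      push_cast at h4
      linarith) (fun x => by
      change ∑ l ∈ T.tri x, T.Al n N a q l - T.eq' n a q x + T.eq' n a q x = _
      exact Nat.sub_add_cancel (hle x)) (fun D D' => gf (G D D'))
    (fun D D' hD => by rw [hG.sym D D' hD])
    (fun D D' => (hg D D').1)
    (fun D D' D'' h1 h2 => by
      obtain ⟨i, hi, j, hj, hij, hm⟩ := T.pair_ge ha hN hF hn D
      refine T.pen_to (hs i hi j hj hij) (F := (G D D' i - G D D' j) - (G D D'' i - G D D'' j))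
        ?_ hm (hG.ord D D' D'' i j h1 h2)
      have e1 := hgp D D' i hi j hj
      have e2 := hgp D D'' i hi j hj
      linear_combination e1 - e2)
  refine ⟨T.Zp q b1 y P, fun i => T.Zp_hom hb1 hyb hP (by omega) i,
    fun c hc hc0 => T.Zp_rel hb1 hb21.symm hxy hyb P hc hc0, ?_⟩
  intro D D' i j hD hi hj
  by_cases hij : i = j
  · subst hij
    rw [sub_self, sub_self, sub_self]; exact zero_mem _
  have e1 := hgp D D' i hi j hj
  have e2 := T.pen_pair hxy (H := T.Zp q b1 y P) (g := P)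
    (fun l hl => T.Zp_eq hb1 hyb P hl) hi hj
  refine T.pen_from (s := y i * x j - y j * x i) (g := P - gf (G D D')) ?_
    (T.pair_le ha hN hF hn D hi hj hij) (hP' D D' hD)
  linear_combination e2 - e1

end TConf

end

end Pool.Agent.H94_gen
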