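import Pool.Agent.H94_gen.Rels

/-!
# Regularity of the glued solution and the main theorem on cocycle equations
-/

namespace Pool.Agent.H94_gen

open MvPolynomial

noncomputable section

set_option linter.unusedSectionVars false

/-- The coefficients of a relation among four forms. -/
def cd {k : ℕ} (i j j1 j2 : Fin k) (t x y : ℂ) : Fin k → ℂ :=
  Pi.single i 1 + (-t) • Pi.single j 1 + (-x) • Pi.single j1 1 + (-y) • Pi.single j2 1

theorem sum_cd {k : ℕ} {M : Type*} [AddCommGroup M] [Module ℂ M] (i j j1 j2 : Fin k)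
    (t x y : ℂ) (h : Fin k → M) : ∑ l, cd i j j1 j2 t x y l • h l =
      h i - t • h j - x • h j1 - y • h j2 := by
  have h4 : ∀ (s : ℂ) (m : Fin k), ∑ l, (s * (Pi.single m 1 : Fin k → ℂ) l) • h l =
      s • h m := by
    intro s m
    rw [Finset.sum_eq_single m]
    · simp
    · intro l _ hl
      rw [Pi.single_eq_of_ne hl, mul_zero, zero_smul]
    · intro h; exact absurd (Finset.mem_univ m) h
  have h5 : ∑ l, (Pi.single i 1 : Fin k → ℂ) l • h l = h i := by
    have := h4 1 i
    simp only [one_mul, one_smul] at this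
    exact this
  simp only [cd, Pi.add_apply, Pi.smul_apply, smul_eq_mul, add_smul, Finset.sum_add_distrib]
  rw [h4, h4, h4, h5]
  module

namespace TConf

variable {k r : ℕ} {T : TConf ℂ k r}

theorem solve_pos (hF : T.Full) (hIR : T.LR) (hk : 6 ≤ k) {n N d : ℕ} {a : Fin k → ℕ}
    (ha : ∀ i, a i < n) (hd : ∑ i, a i = d * n) (hn : k < n) (hd1 : 1 ≤ d) (hN : 3 ≤ N)
    {G : Crv k r → Crv k r → Fin k → RK ℂ} (hG : T.GData n N d a G) :
    ∃ P, T.GSol n N d a G P := by
  have hn0 : 0 < n := by omega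
  have hdk : d ≤ k := by
    have h1 : d * n ≤ k * n := by
      rw [← hd]
      calc ∑ i, a i ≤ ∑ _i : Fin k, n := Finset.sum_le_sum fun i _ => (ha i).le
        _ = k * n := by simp
    exact Nat.le_of_mul_le_mul_right h1 hn0
  have hkN : k * 3 ≤ k * N := Nat.mul_le_mul_left _ hN
  have hqk : ∀ q, (T.tri q).card < n := by
    intro q
    have := Finset.card_le_univ (T.tri q)
    rw [Fintype.card_fin] at this
    omega
  have hZ' : ∀ q, ∃ Z : Fin k → RK ℂ, ∑ l ∈ T.tri q, a l < d * n →
      (∀ i, (Z i).IsHomogeneous (k * N - d)) ∧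
      (∀ c : Fin k → ℂ, (∀ i, i ∉ T.tri q → c i = 0) → ∑ i, c i • T.f i = 0 →
        ∑ i, C (c i) * (T.L i * Z i) = 0) ∧
      ∀ D D' i j, T.meet D D' → i ∈ T.tri q → j ∈ T.tri q →
        (Z i - Z j) - (G D D' i - G D D' j) ∈ T.J D (T.gb n N a i j D) := by
    intro q
    by_cases hq : ∑ l ∈ T.tri q, a l < d * n
    · obtain ⟨Z, h⟩ := T.pencil_sol hF (by omega) ha hd hN q (hqk q) hq hG
      exact ⟨Z, fun _ => h⟩
    · exact ⟨fun _ => 0, fun h => absurd h hq⟩
  choose Z hZ' using hZ'
  obtain ⟨i0, p0, hi0, hp0, hip⟩ := choose_i0 hF ha hd hn (by omega) hd1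
  obtain ⟨P, hPh, hrel, hPZ⟩ := rels hF hIR hk ha (by omega) hi0 hp0 hip hG (by omega)
    (Z := Z) (fun q hq => (hZ' q hq).1) (fun q hq => (hZ' q hq).2.1)
    (fun q hq => (hZ' q hq).2.2)
  refine ⟨P, hPh, hrel, ?_⟩
  intro D D' i j hD
  set F : Fin k → RK ℂ := fun l => P l - G D D' l with hFdef
  have hFe : (P i - P j) - (G D D' i - G D D' j) = F i - F j := by simp only [hFdef]; ring
  rw [hFe]
  have hpen : ∀ q, ∑ l ∈ T.tri q, a l < d * n → ∀ i ∈ T.tri q, ∀ j ∈ T.tri q,
      F i - F j ∈ T.J D (T.gb n N a i j D) := by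
    intro q hq i hi j hj
    have h1 := (hZ' q hq).2.2 D D' i j hD hi hj
    rw [← hPZ q hq i hi j hj] at h1
    have h2 : F i - F j = (P i - P j) - (G D D' i - G D D' j) := by simp only [hFdef]; ring
    rw [h2]; exact h1
  have hchain : ∀ (m : ℕ) (l : Fin k), (∀ i j, i ≠ l → j ≠ l → m ≤ T.gb n N a i j D) →
      ∀ i j, i ≠ l → j ≠ l → F i - F j ∈ T.J D m := by
    intro m l hm i j hi hj
    have h1 := connected hF hIR hk l p0 (K := fun i' => F i' - F j ∈ T.J D m) (by
      intro q hq i1 hi1 j1 hj1 hi1' hj1' h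
      have h2 := T.J_mono D (hm j1 i1 hj1' hi1') (hpen q (hp0 q hq) j1 hj1 i1 hi1)
      have h3 : F j1 - F j = (F j1 - F i1) + (F i1 - F j) := by ring
      rw [h3]
      exact add_mem h2 h) ⟨j, hj, by rw [sub_self]; exact zero_mem _⟩
    exact h1 i hi
  rcases D with l | x
  · have hNl : ∀ i j, i ≠ l → j ≠ l → F i - F j ∈ T.J (Sum.inl l) N :=
      hchain N l fun i j hi hj => by rw [gb_inl_of_ne ha hi hj]
    -- a pencil through `l`
    obtain ⟨q, hq, hlq⟩ : ∃ q, q ≠ p0 ∧ l ∈ T.tri q := by
      have h2 := not_few hF hIR hk l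
      unfold Few at h2
      push Not at h2
      obtain ⟨q, q', hq, hq', hqq⟩ := h2
      by_cases hqp : q = p0
      · exact ⟨q', fun h => hqq (hqp.trans h.symm), hq'⟩
      · exact ⟨q, hqp, hq⟩
    obtain ⟨m, hm, hml⟩ := Finset.exists_mem_ne
      (by have := hF.three q; omega : 1 < (T.tri q).card) l
    have hl : ∀ j, j ≠ l → F l - F j ∈ T.J (Sum.inl l) (N - (a l + 1) / n) := by
      intro j hj
      have h1 := T.J_mono _ (T.gb_inl_ge (n := n) (N := N) (a := a) l m l)
        (hpen q (hp0 q hq) l hlq m hm)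
      have h2 := T.J_mono _ (Nat.sub_le N ((a l + 1) / n)) (hNl m j hml hj)
      have h3 : F l - F j = (F l - F m) + (F m - F j) := by ring
      rw [h3]
      exact add_mem h1 h2
    by_cases hi : i = l
    · by_cases hj : j = l
      · rw [hi, hj, sub_self]; exact zero_mem _
      · rw [gb_inl_le (by simp [val, hi, Ne.symm hj]), hi]
        exact hl j hj
    · by_cases hj : j = l
      · rw [gb_inl_le (by simp [val, hj, Ne.symm hi]), hj]
        have := neg_mem (hl i hi)
        rwa [neg_sub] at this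
      · rw [gb_inl_of_ne ha hi hj]
        exact hNl i j hi hj
  · have hM : ∀ i j, F i - F j ∈ T.J (Sum.inr x)
        ((T.tri x).card * N - (∑ l ∈ T.tri x, a l + 1) / n) := by
      intro i j
      obtain ⟨l, hl⟩ : ∃ l, l ∉ ({i, j} : Finset (Fin k)) := by
        by_contra hcon
        push Not at hcon
        have h1 : (Finset.univ : Finset (Fin k)) ⊆ {i, j} := fun l _ => hcon l
        have h2 := Finset.card_le_card h1
        have h3 := Finset.card_le_two (a := i) (b := j)
        rw [Finset.card_univ, Fintype.card_fin] at h2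
        omega
      rw [Finset.mem_insert, Finset.mem_singleton, not_or] at hl
      exact hchain _ l (fun i j _ _ => T.gb_inr_ge i j x) i j (Ne.symm hl.1) (Ne.symm hl.2)
    by_cases hv : T.val (Sum.inr x : Crv k r) i = T.val (Sum.inr x : Crv k r) j
    · have hgb : T.gb n N a i j (Sum.inr x) =
          (T.tri x).card * N - (∑ l ∈ T.tri x, a l) / n := by
        rw [gb, sz_inr, ordN_inr, if_pos hv, add_zero]
      by_cases hdiv : (∑ l ∈ T.tri x, a l + 1) / n = (∑ l ∈ T.tri x, a l) / n
      · rw [hgb, ← hdiv]; exact hM i j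
      have hdiv' : (∑ l ∈ T.tri x, a l + 1) / n ≤ (∑ l ∈ T.tri x, a l) / n + 1 := by
        rw [← Nat.add_div_right _ hn0]
        exact Nat.div_le_div_right (by omega)
      have hle : T.gb n N a i j (Sum.inr x) ≤
          (T.tri x).card * N - (∑ l ∈ T.tri x, a l + 1) / n + 1 := by
        rw [hgb]; omega
      by_cases hix : i ∈ T.tri x
      · have hjx : j ∈ T.tri x := by
          by_contra hjx
          simp only [val, if_pos hix, if_neg hjx] at hv
          exact one_ne_zero hv
        refine hpen x ?_ i hix j hjx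
        by_contra hcon
        apply hdiv
        have h1 : ∑ l ∈ T.tri x, a l ≤ ∑ l, a l :=
          Finset.sum_le_sum_of_subset (Finset.subset_univ _)
        have h2 : ∑ l ∈ T.tri x, a l = d * n := by omega
        rw [h2, Nat.mul_div_cancel _ hn0, add_comm, Nat.add_mul_div_right _ _ hn0,
          Nat.div_eq_of_lt (by omega), zero_add]
      · have hjx : j ∉ T.tri x := by
          intro hjx
          simp only [val, if_neg hix, if_pos hjx] at hv
          exact zero_ne_one hv
        refine T.J_mono _ hle ?_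
        obtain ⟨b1, hb1⟩ := hF.ok.ne x
        obtain ⟨b2, hb2, hb21⟩ := Finset.exists_mem_ne
          (by have := hF.three x; omega : 1 < (T.tri x).card) b1
        have hj0 : T.f j ⬝ᵥ T.pt x ≠ 0 := fun h => hjx ((T.mem_tri j x).mpr h)
        have h1 : (T.f i - (T.f i ⬝ᵥ T.pt x / (T.f j ⬝ᵥ T.pt x)) • T.f j) ⬝ᵥ T.pt x = 0 := by
          rw [sub_dotProduct, smul_dotProduct, smul_eq_mul, div_mul_cancel₀ _ hj0, sub_self]
        obtain ⟨x1, y1, hxy⟩ := form_mem hb1 hb2 hb21 _ h1
        set t := T.f i ⬝ᵥ T.pt x / (T.f j ⬝ᵥ T.pt x) with ht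
        have hfi : T.f i = t • T.f j + x1 • T.f b1 + y1 • T.f b2 := by
          rw [add_assoc, ← hxy]; abel
        have hc : ∑ l, cd i j b1 b2 t x1 y1 l • T.f l = 0 := by
          rw [sum_cd, hfi]; module
        have e1 := hrel _ hc
        have e2 := hG.rel (Sum.inr x) D' _ hc
        have e3 := T.C_sum_L_eq_zero hc
        simp only [C_mul'] at e1 e2 e3
        rw [sum_cd] at e1 e2 e3
        simp only [smul_eq_C_mul] at e1 e2 e3
        have e4 : T.L i * (F i - F j) = C x1 * (T.L b1 * (F b1 - F j)) +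
            C y1 * (T.L b2 * (F b2 - F j)) := by
          simp only [hFdef]
          linear_combination e1 - e2 - (P j - G (Sum.inr x) D' j) * e3
        have hb : ∀ b ∈ T.tri x, T.L b * (F b - F j) ∈ T.J (Sum.inr x)
            ((T.tri x).card * N - (∑ l ∈ T.tri x, a l + 1) / n + 1) := by
          intro b hbx
          have h2 := T.L_mem_J (Sum.inr x) b
          have h3 : T.val (Sum.inr x) b = 1 := if_pos hbx
          rw [h3] at h2
          have h4 := T.mul_mem_J h2 (hM b j)
          rwa [add_comm] at h4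
        apply T.cancel (j := i)
        have h3 : T.val (Sum.inr x) i = 0 := if_neg hix
        rw [h3, add_zero, e4]
        exact add_mem (Ideal.mul_mem_left _ _ (hb b1 hb1)) (Ideal.mul_mem_left _ _ (hb b2 hb2))
    · have hgb : T.gb n N a i j (Sum.inr x) =
          (T.tri x).card * N - (∑ l ∈ T.tri x, a l + 1) / n := by
        rw [gb, sz_inr, ordN_inr, if_neg hv]
      rw [hgb]
      exact hM i j

/-- The cocycle equations can be solved for all characters. -/
theorem solvable (hF : T.Full) (hIR : T.IR) (hk : 6 ≤ k) {n : ℕ} (hn : k < n) :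
    T.Solvable n := by
  intro a ha d hd
  by_cases hd1 : 1 ≤ d
  · exact ⟨3, fun N hN G hG => solve_pos hF hIR.lr hk ha hd hn hd1 hN hG⟩
  · have hd0 : d = 0 := by omega
    subst hd0
    rw [zero_mul] at hd
    have ha0 : a = fun _ => 0 := by
      funext i
      exact Finset.sum_eq_zero_iff.mp hd i (Finset.mem_univ i)
    subst ha0
    exact ⟨0, fun N _ G hG => solve_zero hF hIR (by omega) (by omega) hG⟩

end TConf

end

end Pool.Agent.H94_gen
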