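import Pool.Agent.H94_gen.Glue

/-!
# The linear relations
-/

namespace Pool.Agent.H94_gen

open MvPolynomial

noncomputable section

set_option linter.unusedSectionVars false

/-- The coefficients of a relation among three forms. -/
def cc {k : ℕ} (i j1 j2 : Fin k) (x y : ℂ) : Fin k → ℂ :=
  Pi.single i 1 + (-x) • Pi.single j1 1 + (-y) • Pi.single j2 1

theorem sum_cc {k : ℕ} {M : Type*} [AddCommGroup M] [Module ℂ M] (i j1 j2 : Fin k) (x y : ℂ)
    (h : Fin k → M) : ∑ l, cc i j1 j2 x y l • h l = h i - x • h j1 - y • h j2 := by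
  have h4 : ∀ (s : ℂ) (m : Fin k), ∑ l, (s * (Pi.single m 1 : Fin k → ℂ) l) • h l =
      s • h m := by
    intro s m
    rw [Finset.sum_eq_single m]
    · simp
    · intro l _ hl
      rw [Pi.single_eq_of_ne hl, mul_zero, zero_smul]
    · intro h; exact absurd (Finset.mem_univ m) h
  have h5 : ∑ l, (Pi.single i 1 : Fin k → ℂ) l • h l = h i := by
    have := h4 1 i
    simpa using this
  simp only [cc, Pi.add_apply, Pi.smul_apply, smul_eq_mul, add_smul, Finset.sum_add_distrib]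
  rw [h4, h4, h5]
  module

theorem cc_supp {k : ℕ} {S : Finset (Fin k)} {i j1 j2 : Fin k} {x y : ℂ} (hi : i ∈ S)
    (h1 : j1 ∈ S) (h2 : j2 ∈ S) {l : Fin k} (hl : l ∉ S) : cc i j1 j2 x y l = 0 := by
  have e1 : l ≠ i := by rintro rfl; exact hl hi
  have e2 : l ≠ j1 := by rintro rfl; exact hl h1
  have e3 : l ≠ j2 := by rintro rfl; exact hl h2
  simp [cc, e1, e2, e3]

namespace TConf

variable {k r : ℕ} {T : TConf ℂ k r}

theorem L_comb {i j1 j2 : Fin k} {x y : ℂ} (h : T.f i = x • T.f j1 + y • T.f j2) :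
    T.L i = x • T.L j1 + y • T.L j2 := by
  have h1 := congrArg lin h
  rw [lin_add, lin_smul, lin_smul] at h1
  rw [smul_eq_C_mul, smul_eq_C_mul]
  exact h1

theorem cc_rel {i j1 j2 : Fin k} {x y : ℂ} (h : T.f i = x • T.f j1 + y • T.f j2) :
    ∑ l, cc i j1 j2 x y l • T.f l = 0 := by
  rw [sum_cc, h]; module

/-- Relations away from one line. -/
theorem rel_away (hF : T.Full) (hIR : T.LR) (hk : 6 ≤ k) {n N d : ℕ} {a : Fin k → ℕ}
    (ha : ∀ i, a i < n) (hN : 1 ≤ N) {i0 : Fin k} {p0 : Fin r}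
    (hi0 : ∑ l ∈ Finset.univ.erase i0, (a l + 1) / n < d)
    (hp0 : ∀ q, q ≠ p0 → ∑ l ∈ T.tri q, a l < d * n)
    (hip : ¬ ∑ l ∈ T.tri p0, a l < d * n → i0 ∈ T.tri p0)
    {G : Crv k r → Crv k r → Fin k → RK ℂ} (hG : T.GData n N d a G) (hdN : d ≤ k * N)
    {Z : Fin r → Fin k → RK ℂ}
    (hZr : ∀ q, ∑ l ∈ T.tri q, a l < d * n → ∀ c : Fin k → ℂ, (∀ i, i ∉ T.tri q → c i = 0) →
      ∑ i, c i • T.f i = 0 → ∑ i, C (c i) * (T.L i * Z q i) = 0)
    {m0 : Fin k} (hm0 : m0 ≠ i0) {P : Fin k → RK ℂ} (hP : ∀ i, (P i).IsHomogeneous (k * N - d))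
    (hP1 : ∀ i, i ≠ i0 → ∀ l D', T.meet (Sum.inl l) D' →
        P i - (G (Sum.inl l) D' i - G (Sum.inl l) D' m0) ∈ T.J (Sum.inl l) (wt n N a i0 l))
    (hP2 : ∀ q, ∑ l ∈ T.tri q, a l < d * n → ∀ i ∈ T.tri q, ∀ j ∈ T.tri q, i ≠ i0 → j ≠ i0 →
        P i - P j = Z q i - Z q j)
    (c : Fin k → ℂ) (hc0 : c i0 = 0) (hc : ∑ i, c i • T.f i = 0) :
    ∑ i, C (c i) * (T.L i * P i) = 0 := by
  have hsw := sum_wt ha hN i0
  let δ : (Fin k → ℂ) → RK ℂ := fun c => ∑ i, C (c i) * (T.L i * P i)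
  set W : RK ℂ := ∏ l, T.L l ^ wt n N a i0 l with hW
  have hW0 : W ≠ 0 := Finset.prod_ne_zero_iff.mpr fun l _ => pow_ne_zero _ (T.L_ne_zero l)
  have hWh : W.IsHomogeneous (∑ l, wt n N a i0 l) := by
    refine IsHomogeneous.prod _ _ _ fun l _ => ?_
    have := (T.L_hom l).pow (wt n N a i0 l)
    rwa [one_mul] at this
  have hδh : ∀ c, (δ c).IsHomogeneous (1 + (k * N - d)) := by
    intro c
    refine IsHomogeneous.sum _ _ _ fun i _ => ?_
    have := (isHomogeneous_C (Fin 3) (c i)).mul ((T.L_hom i).mul (hP i))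
    rwa [zero_add] at this
  have hδl : ∀ c : Fin k → ℂ, c i0 = 0 → ∑ i, c i • T.f i = 0 →
      ∀ l, T.L l ^ wt n N a i0 l ∣ δ c := by
    intro c hc0 hc l
    obtain ⟨D', hD'⟩ := T.exists_node (by omega) l
    have h1 := hG.rel (Sum.inl l) D' c hc
    have h2 := T.C_sum_L_eq_zero hc
    have h3 : δ c = ∑ i, C (c i) * (T.L i * (P i - (G (Sum.inl l) D' i - G (Sum.inl l) D' m0))) := by
      have h4 : ∑ i, C (c i) * (T.L i * (P i - (G (Sum.inl l) D' i - G (Sum.inl l) D' m0))) =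
          δ c - ∑ i, C (c i) * (T.L i * G (Sum.inl l) D' i) +
            G (Sum.inl l) D' m0 * ∑ i, C (c i) * T.L i := by
        rw [Finset.mul_sum, ← Finset.sum_sub_distrib, ← Finset.sum_add_distrib]
        exact Finset.sum_congr rfl fun i _ => by ring
      rw [h4, h1, h2]; ring
    rw [← mem_J_inl, h3]
    refine sum_mem fun i _ => ?_
    by_cases hi : i = i0
    · rw [hi, hc0]; simp
    · exact Ideal.mul_mem_left _ _ (Ideal.mul_mem_left _ _ (hP1 i hi l D' hD'))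
  have hconst : ∀ c : Fin k → ℂ, c i0 = 0 → ∑ i, c i • T.f i = 0 → ∃ κ : ℂ, δ c = C κ * W := by
    intro c hc0 hc
    obtain ⟨f, hf⟩ := T.prod_L_dvd Finset.univ (wt n N a i0) (δ c) (fun l _ => hδl c hc0 hc l)
    by_cases hf0 : f = 0
    · exact ⟨0, by rw [hf, hf0]; simp⟩
    have h1 := hδh c
    rw [hf] at h1
    have h2 := (hom_of_mul hWh hW0 hf0 h1).2
    have h3 : 1 + (k * N - d) - ∑ l, wt n N a i0 l = 0 := by omega
    rw [h3] at h2
    have h4 := totalDegree_eq_zero_iff_eq_C.mp ((totalDegree_zero_iff_isHomogeneous _).mpr h2)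
    exact ⟨coeff 0 f, by rw [hf, mul_comm, ← h4]⟩
  obtain ⟨z0, hz0⟩ : ∃ z0, eval z0 W ≠ 0 := by
    by_contra hcon
    push Not at hcon
    apply hW0
    apply MvPolynomial.funext
    intro x
    rw [hcon x, map_zero]
  let φ : Fin k → ℂ := fun i => eval z0 (T.L i * P i) / eval z0 W
  have hφ : ∀ c : Fin k → ℂ, c i0 = 0 → ∑ i, c i • T.f i = 0 →
      δ c = C (∑ i, c i * φ i) * W := by
    intro c hc0 hc
    obtain ⟨κ, hκ⟩ := hconst c hc0 hc
    have h1 := congrArg (eval z0) hκ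
    rw [map_mul, eval_C, map_sum] at h1
    have h2 : κ = ∑ i, c i * φ i := by
      have h3 : κ * eval z0 W = (∑ i, c i * φ i) * eval z0 W := by
        rw [← h1, Finset.sum_mul]
        refine Finset.sum_congr rfl fun i _ => ?_
        simp only [φ]
        rw [map_mul, eval_C, mul_assoc, div_mul_cancel₀ _ hz0]
      exact mul_right_cancel₀ hz0 h3
    rw [hκ, h2]
  -- vanishing of local relations
  have hloc : ∀ q, i0 ∉ T.tri q → ∀ c : Fin k → ℂ, (∀ i, i ∉ T.tri q → c i = 0) →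
      ∑ i, c i • T.f i = 0 → ∑ i, c i * φ i = 0 := by
    intro q hq c hcq hc
    have hnl : ∑ l ∈ T.tri q, a l < d * n := by
      by_cases hqp : q = p0
      · subst hqp
        by_contra hcon
        exact hq (hip hcon)
      · exact hp0 q hqp
    obtain ⟨j, hj⟩ := hF.ok.ne q
    have hne : ∀ i ∈ T.tri q, i ≠ i0 := fun i hi h => hq (h ▸ hi)
    have h1 : δ c = ∑ i, C (c i) * (T.L i * Z q i) + (P j - Z q j) * ∑ i, C (c i) * T.L i := by
      rw [Finset.mul_sum, ← Finset.sum_add_distrib]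
      refine Finset.sum_congr rfl fun i _ => ?_
      by_cases hi : i ∈ T.tri q
      · have h2 := hP2 q hnl i hi j hj (hne i hi) (hne j hj)
        have h3 : P i = Z q i + (P j - Z q j) := by linear_combination h2
        rw [h3]; ring
      · rw [hcq i hi]; simp
    rw [hZr q hnl c hcq hc, T.C_sum_L_eq_zero hc, mul_zero, add_zero,
      hφ c (hcq i0 hq) hc] at h1
    have h2 := (mul_eq_zero.mp h1).resolve_right hW0
    rwa [C_eq_zero] at h2
  -- rigidity
  obtain ⟨A, c', hA⟩ := hIR (fun i => if i = i0 then 0 else φ i • T.f i0) (fun q => by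
    by_cases hq : i0 ∈ T.tri q
    · refine ⟨0, fun i _ => ⟨?_, dotProduct_zero _⟩⟩
      rw [dotProduct_zero, add_zero]
      by_cases hi : i = i0
      · rw [if_pos hi]; simp
      · rw [if_neg hi, smul_dotProduct, (T.mem_tri i0 q).mp hq]; simp
    · obtain ⟨w0, hw0⟩ := exists_point T.f (T.tri q) φ (hloc q hq)
      refine ⟨(T.f i0 ⬝ᵥ w0) • T.pt q - (T.f i0 ⬝ᵥ T.pt q) • w0, fun i hi => ?_⟩
      have hiq := (T.mem_tri i q).mp hi
      have hi' : i ≠ i0 := fun h => hq (h ▸ hi)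
      rw [if_neg hi', hw0 i hi]
      simp only [smul_dotProduct, dotProduct_sub, dotProduct_smul, smul_eq_mul, hiq]
      constructor <;> ring)
  have hA0 : A.mulVec (T.f i0) = (-c' i0) • T.f i0 := by
    have h1 := hA i0
    rw [if_pos rfl] at h1
    rw [neg_smul]
    exact eq_neg_of_add_eq_zero_left h1.symm
  have hA1 : ∀ i, i ≠ i0 → A.mulVec (T.f i) = φ i • T.f i0 - c' i • T.f i := by
    intro i hi
    have h1 := hA i
    rw [if_neg hi] at h1
    rw [h1]; abel
  have hcst : ∀ i, i ≠ i0 → c' i = c' m0 := by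
    refine connected hF hIR hk i0 p0 (K := fun i => c' i = c' m0) ?_ ⟨m0, hm0, rfl⟩
    intro q _ i hi j hj hi' hj' hci
    rw [← hci]
    by_cases hij : i = j
    · rw [hij]
    by_cases hq : i0 ∈ T.tri q
    · obtain ⟨x, y, hxy⟩ := form_mem hi hq hi'.symm (T.f j) ((T.mem_tri j q).mp hj)
      have hx : x ≠ 0 := by
        rintro rfl
        have h4 : (1 : ℂ) • T.f j + (-y) • T.f i0 = 0 := by
          rw [hxy]; module
        exact one_ne_zero (f_indep hj' h4).1
      have h1 := hA1 j hj'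
      rw [hxy, Matrix.mulVec_add, Matrix.mulVec_smul, Matrix.mulVec_smul, hA1 i hi', hA0] at h1
      have h2 : (x * (c' j - c' i)) • T.f i +
          (x * φ i - y * c' i0 - φ j + c' j * y) • T.f i0 = 0 := by
        have h3 : (x * (c' j - c' i)) • T.f i +
          (x * φ i - y * c' i0 - φ j + c' j * y) • T.f i0 =
          (x • (φ i • T.f i0 - c' i • T.f i) + y • -c' i0 • T.f i0) -
          (φ j • T.f i0 - c' j • (x • T.f i + y • T.f i0)) := by module
        rw [h3, h1, sub_self]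
      have h3 := (mul_eq_zero.mp (f_indep hi' h2).1).resolve_left hx
      exact sub_eq_zero.mp h3
    · obtain ⟨m, hm⟩ : ∃ m, m ∈ ((T.tri q).erase i).erase j := by
        apply Finset.card_pos.mp
        have e1 := Finset.card_erase_add_one hi
        have e2 := hF.three q
        have e3 := Finset.pred_card_le_card_erase (s := (T.tri q).erase i) (a := j)
        omega
      rw [Finset.mem_erase, Finset.mem_erase] at hm
      have hmi0 : m ≠ i0 := fun h => hq (h ▸ hm.2.2)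
      obtain ⟨x, y, hxy⟩ := form_mem hi hj (Ne.symm hij) (T.f m) ((T.mem_tri m q).mp hm.2.2)
      have hx : x ≠ 0 := by
        rintro rfl
        have h4 : (1 : ℂ) • T.f m + (-y) • T.f j = 0 := by
          rw [hxy]; module
        exact one_ne_zero (f_indep hm.1 h4).1
      have hy : y ≠ 0 := by
        rintro rfl
        have h4 : (1 : ℂ) • T.f m + (-x) • T.f i = 0 := by
          rw [hxy]; module
        exact one_ne_zero (f_indep hm.2.1 h4).1
      have h1 := hA1 m hmi0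
      rw [hxy, Matrix.mulVec_add, Matrix.mulVec_smul, Matrix.mulVec_smul, hA1 i hi',
        hA1 j hj'] at h1
      have h0 : T.f i0 ⬝ᵥ T.pt q ≠ 0 := fun h => hq ((T.mem_tri i0 q).mpr h)
      have h2 := congrArg (fun v => v ⬝ᵥ T.pt q) h1
      simp only [add_dotProduct, sub_dotProduct, smul_dotProduct, (T.mem_tri i q).mp hi,
        (T.mem_tri j q).mp hj, smul_eq_mul, mul_zero, sub_zero, add_zero] at h2
      have h3 : x * φ i + y * φ j = φ m := by
        have h4 : (x * φ i + y * φ j - φ m) * (T.f i0 ⬝ᵥ T.pt q) = 0 := by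
          linear_combination h2
        exact sub_eq_zero.mp ((mul_eq_zero.mp h4).resolve_right h0)
      have h4 : (x * (c' m - c' i)) • T.f i + (y * (c' m - c' j)) • T.f j = 0 := by
        have h5 : (x * (c' m - c' i)) • T.f i + (y * (c' m - c' j)) • T.f j =
            (x • (φ i • T.f i0 - c' i • T.f i) + y • (φ j • T.f i0 - c' j • T.f j)) -
            (φ m • T.f i0 - c' m • (x • T.f i + y • T.f j)) := by
          rw [← h3]; module
        rw [h5, h1, sub_self]
      obtain ⟨h5, h6⟩ := f_indep hij h4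
      have h7 := sub_eq_zero.mp ((mul_eq_zero.mp h5).resolve_left hx)
      have h8 := sub_eq_zero.mp ((mul_eq_zero.mp h6).resolve_left hy)
      rw [← h7, ← h8]
  change δ c = 0
  rw [hφ c hc0 hc]
  have h1 : (∑ i, c i * φ i) • T.f i0 = 0 := by
    have h2 : ∑ i, c i • (if i = i0 then 0 else φ i • T.f i0) = (∑ i, c i * φ i) • T.f i0 := by
      rw [Finset.sum_smul]
      refine Finset.sum_congr rfl fun i _ => ?_
      by_cases hi : i = i0
      · rw [if_pos hi, hi, hc0]; simp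
      · rw [if_neg hi, smul_smul]
    rw [← h2]
    have h3 : ∑ i, c i • (if i = i0 then 0 else φ i • T.f i0) =
        ∑ i, A.mulVec (c i • T.f i) + c' m0 • ∑ i, c i • T.f i := by
      rw [Finset.smul_sum, ← Finset.sum_add_distrib]
      refine Finset.sum_congr rfl fun i _ => ?_
      by_cases hi : i = i0
      · rw [hi, hc0]; simp
      · rw [hA i, hcst i hi, Matrix.mulVec_smul]
        module
    rw [h3, ← Matrix.mulVec_sum, hc]
    simp
  have h2 : ∑ i, c i * φ i = 0 := by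
    rcases smul_eq_zero.mp h1 with h | h
    · exact h
    · exfalso
      have h6 := T.fc i0
      rw [h, zero_dotProduct] at h6
      exact zero_ne_one h6
  rw [h2, map_zero, zero_mul]

/-- The full set of potentials. -/
theorem rels (hF : T.Full) (hIR : T.LR) (hk : 6 ≤ k) {n N d : ℕ} {a : Fin k → ℕ}
    (ha : ∀ i, a i < n) (hN : 1 ≤ N) {i0 : Fin k} {p0 : Fin r}
    (hi0 : ∑ l ∈ Finset.univ.erase i0, (a l + 1) / n < d)
    (hp0 : ∀ q, q ≠ p0 → ∑ l ∈ T.tri q, a l < d * n)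
    (hip : ¬ ∑ l ∈ T.tri p0, a l < d * n → i0 ∈ T.tri p0)
    {G : Crv k r → Crv k r → Fin k → RK ℂ} (hG : T.GData n N d a G) (hdN : d ≤ k * N)
    {Z : Fin r → Fin k → RK ℂ}
    (hZh : ∀ q, ∑ l ∈ T.tri q, a l < d * n → ∀ i, (Z q i).IsHomogeneous (k * N - d))
    (hZr : ∀ q, ∑ l ∈ T.tri q, a l < d * n → ∀ c : Fin k → ℂ, (∀ i, i ∉ T.tri q → c i = 0) →
      ∑ i, c i • T.f i = 0 → ∑ i, C (c i) * (T.L i * Z q i) = 0)
    (hZ : ∀ q, ∑ l ∈ T.tri q, a l < d * n → ∀ D D' i j, T.meet D D' → i ∈ T.tri q →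
      j ∈ T.tri q → (Z q i - Z q j) - (G D D' i - G D D' j) ∈ T.J D (T.gb n N a i j D)) :
    ∃ P : Fin k → RK ℂ, (∀ i, (P i).IsHomogeneous (k * N - d)) ∧
      (∀ c : Fin k → ℂ, ∑ i, c i • T.f i = 0 → ∑ i, C (c i) * (T.L i * P i) = 0) ∧
      (∀ q, ∑ l ∈ T.tri q, a l < d * n → ∀ i ∈ T.tri q, ∀ j ∈ T.tri q,
        P i - P j = Z q i - Z q j) := by
  obtain ⟨m0, P, hm0, hP, hP1, hP2⟩ := glue hF hIR hk ha hN hi0 hp0 hG hdN hZh hZ
  -- a pencil through `i0`
  obtain ⟨q0, hq0, hiq0⟩ : ∃ q0, q0 ≠ p0 ∧ i0 ∈ T.tri q0 := by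
    have h2 := not_few hF hIR hk i0
    unfold Few at h2
    push Not at h2
    obtain ⟨q, q', hq, hq', hqq⟩ := h2
    by_cases hqp : q = p0
    · exact ⟨q', fun h => hqq (hqp.trans h.symm), hq'⟩
    · exact ⟨q, hqp, hq⟩
  have hnl0 := hp0 q0 hq0
  have hthree : ∀ q, ∀ i ∈ T.tri q, ∀ j, ∃ m ∈ T.tri q, m ≠ i ∧ m ≠ j := by
    intro q i hi j
    have h4 : 0 < (((T.tri q).erase i).erase j).card := by
      have e1 := Finset.card_erase_add_one hi
      have e2 := hF.three q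
      have e3 := Finset.pred_card_le_card_erase (s := (T.tri q).erase i) (a := j)
      omega
    obtain ⟨m, hm⟩ := Finset.card_pos.mp h4
    rw [Finset.mem_erase, Finset.mem_erase] at hm
    exact ⟨m, hm.2.2, hm.2.1, hm.1⟩
  obtain ⟨j0, hj0, hj0i, _⟩ := hthree q0 i0 hiq0 i0
  set P' : Fin k → RK ℂ := Function.update P i0 (P j0 + (Z q0 i0 - Z q0 j0)) with hP'
  have hP'0 : P' i0 = P j0 + (Z q0 i0 - Z q0 j0) := by rw [hP', Function.update_self]
  have hP'n : ∀ i, i ≠ i0 → P' i = P i := fun i hi => by rw [hP', Function.update_of_ne hi]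
  have hP'h : ∀ i, (P' i).IsHomogeneous (k * N - d) := by
    intro i
    by_cases hi : i = i0
    · rw [hi, hP'0]
      exact (hP j0).add ((hZh q0 hnl0 _).sub (hZh q0 hnl0 _))
    · rw [hP'n i hi]; exact hP i
  have haway : ∀ c : Fin k → ℂ, c i0 = 0 → ∑ i, c i • T.f i = 0 →
      ∑ i, C (c i) * (T.L i * P' i) = 0 := by
    intro c hc0 hc
    refine rel_away hF hIR hk ha hN hi0 hp0 hip hG hdN hZr hm0 hP'h ?_ ?_ c hc0 hc
    · intro i hi l D' hD'
      rw [hP'n i hi]; exact hP1 i hi l D' hD'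
    · intro q hq i hi j hj hi' hj'
      rw [hP'n i hi', hP'n j hj']; exact hP2 q hq i hi j hj hi' hj'
  -- differences on the first pencil
  have hdiff0 : ∀ i ∈ T.tri q0, P' i = Z q0 i + (P j0 - Z q0 j0) := by
    intro i hi
    by_cases hi' : i = i0
    · rw [hi', hP'0]; ring
    · have := hP2 q0 hnl0 i hi j0 hj0 hi' hj0i
      rw [hP'n i hi']
      linear_combination this
  have hrel0 : ∀ c : Fin k → ℂ, (∀ i, i ∉ T.tri q0 → c i = 0) → ∑ i, c i • T.f i = 0 →
      ∑ i, C (c i) * (T.L i * P' i) = 0 := by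
    intro c hcq hc
    have h1 : ∑ i, C (c i) * (T.L i * P' i) = ∑ i, C (c i) * (T.L i * Z q0 i) +
        (P j0 - Z q0 j0) * ∑ i, C (c i) * T.L i := by
      rw [Finset.mul_sum, ← Finset.sum_add_distrib]
      refine Finset.sum_congr rfl fun i _ => ?_
      by_cases hi : i ∈ T.tri q0
      · rw [hdiff0 i hi]; ring
      · rw [hcq i hi]; simp
    rw [h1, hZr q0 hnl0 c hcq hc, T.C_sum_L_eq_zero hc]; ring
  obtain ⟨j2, hj2, hj2i, hj20⟩ := hthree q0 i0 hiq0 j0
  obtain ⟨x0, y0, hxy0⟩ := form_mem hj0 hj2 hj20 (T.f i0) ((T.mem_tri i0 q0).mp hiq0)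
  have hc0rel := T.cc_rel hxy0
  have hc0i : cc i0 j0 j2 x0 y0 i0 = 1 := by
    simp [cc, hj0i.symm, hj2i.symm]
  have hrel : ∀ c : Fin k → ℂ, ∑ i, c i • T.f i = 0 → ∑ i, C (c i) * (T.L i * P' i) = 0 := by
    intro c hc
    have h1 := hrel0 _ (fun i hi => cc_supp hiq0 hj0 hj2 hi) hc0rel
    have h2 := haway (fun i => c i - c i0 * cc i0 j0 j2 x0 y0 i) (by rw [hc0i]; ring) (by
      have h3 : ∑ i, (c i - c i0 * cc i0 j0 j2 x0 y0 i) • T.f i =
          ∑ i, c i • T.f i - c i0 • ∑ i, cc i0 j0 j2 x0 y0 i • T.f i := by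
        rw [Finset.smul_sum, ← Finset.sum_sub_distrib]
        refine Finset.sum_congr rfl fun i _ => ?_
        rw [sub_smul, smul_smul]
      rw [h3, hc, hc0rel, smul_zero, sub_zero])
    have h3 : ∑ i, C (c i) * (T.L i * P' i) =
        ∑ i, C (c i - c i0 * cc i0 j0 j2 x0 y0 i) * (T.L i * P' i) +
        C (c i0) * ∑ i, C (cc i0 j0 j2 x0 y0 i) * (T.L i * P' i) := by
      rw [Finset.mul_sum, ← Finset.sum_add_distrib]
      refine Finset.sum_congr rfl fun i _ => ?_
      rw [map_sub, map_mul]; ring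
    rw [h3, h1, h2]; ring
  refine ⟨P', hP'h, hrel, ?_⟩
  have hi0' : ∀ q, ∑ l ∈ T.tri q, a l < d * n → i0 ∈ T.tri q → ∀ j ∈ T.tri q,
      P' i0 - P' j = Z q i0 - Z q j := by
    intro q hq hiq j hj
    by_cases hji : j = i0
    · rw [hji]; ring
    obtain ⟨m, hm, hmi, hmj⟩ := hthree q i0 hiq j
    obtain ⟨x, y, hxy⟩ := form_mem hj hm hmj (T.f i0) ((T.mem_tri i0 q).mp hiq)
    have h1 := hrel _ (T.cc_rel hxy)
    have h2 := hZr q hq _ (fun i hi => cc_supp hiq hj hm hi) (T.cc_rel hxy)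
    simp only [C_mul'] at h1 h2
    rw [sum_cc] at h1 h2
    have h3 := T.L_comb hxy
    have h4 := hP2 q hq j hj m hm hji hmi
    rw [← hP'n j hji, ← hP'n m hmi] at h4
    apply mul_left_cancel₀ (T.L_ne_zero i0)
    simp only [smul_eq_C_mul] at h1 h2 h3
    linear_combination h1 - h2 - (P' j - Z q j) * h3 - C y * T.L m * h4
  intro q hq i hi j hj
  by_cases hii : i = i0
  · subst hii
    exact hi0' q hq hi j hj
  · by_cases hjj : j = i0
    · subst hjj
      have := hi0' q hq hj i hi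
      linear_combination -this
    · rw [hP'n i hii, hP'n j hjj]
      exact hP2 q hq i hi j hj hii hjj

end TConf

end

end Pool.Agent.H94_gen
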