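import Pool.Agent.H94_gen.Pen2

/-!
# Consequences of infinitesimal rigidity
-/

namespace Pool.Agent.H94_gen

open MvPolynomial

noncomputable section

set_option linter.unusedSectionVars false

namespace TConf

variable {k r : ℕ} {T : TConf ℂ k r}

/-- Infinitesimal rigidity of the configuration. -/
def IR (T : TConf ℂ k r) : Prop :=
  ∀ g : Fin k → Fin 3 → ℂ,
    (∀ q, ∃ w : Fin 3 → ℂ, ∀ i ∈ T.tri q, g i ⬝ᵥ T.pt q + T.f i ⬝ᵥ w = 0) →
    ∃ (A : Matrix (Fin 3) (Fin 3) ℂ) (c : Fin k → ℂ), ∀ i, g i = A.mulVec (T.f i) + c i • T.f i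

/-- Rigidity for first order deformations that extend to linear families of configurations. -/
def LR (T : TConf ℂ k r) : Prop :=
  ∀ g : Fin k → Fin 3 → ℂ,
    (∀ q, ∃ w : Fin 3 → ℂ, ∀ i ∈ T.tri q, g i ⬝ᵥ T.pt q + T.f i ⬝ᵥ w = 0 ∧ g i ⬝ᵥ w = 0) →
    ∃ (A : Matrix (Fin 3) (Fin 3) ℂ) (c : Fin k → ℂ), ∀ i, g i = A.mulVec (T.f i) + c i • T.f i

theorem IR.lr (h : T.IR) : T.LR := fun g hg => h g fun q => by
  obtain ⟨w, hw⟩ := hg q
  exact ⟨w, fun i hi => (hw i hi).1⟩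

theorem eig3 {M : Matrix (Fin 3) (Fin 3) ℂ} {q : Fin r} {a b c : Fin k} (ha : a ∈ T.tri q)
    (hb : b ∈ T.tri q) (hc : c ∈ T.tri q) (hab : a ≠ b) (hac : a ≠ c) (hbc : b ≠ c) {α β γ : ℂ}
    (h1 : M.mulVec (T.f a) = α • T.f a) (h2 : M.mulVec (T.f b) = β • T.f b)
    (h3 : M.mulVec (T.f c) = γ • T.f c) :
    ∀ v : Fin 3 → ℂ, v ⬝ᵥ T.pt q = 0 → M.mulVec v = α • v := by
  obtain ⟨x, y, hxy⟩ := form_mem ha hb hab.symm (T.f c) ((T.mem_tri c q).mp hc)
  have hx : x ≠ 0 := by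
    rintro rfl
    have h4 : (1 : ℂ) • T.f c + (-y) • T.f b = 0 := by
      rw [hxy]; module
    exact one_ne_zero (f_indep hbc.symm h4).1
  have hy : y ≠ 0 := by
    rintro rfl
    have h4 : (1 : ℂ) • T.f c + (-x) • T.f a = 0 := by
      rw [hxy]; module
    exact one_ne_zero (f_indep hac.symm h4).1
  have h5 : (x * (γ - α)) • T.f a + (y * (γ - β)) • T.f b = 0 := by
    have h6 : M.mulVec (x • T.f a + y • T.f b) = γ • (x • T.f a + y • T.f b) := by
      rw [← hxy]; exact h3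
    rw [Matrix.mulVec_add, Matrix.mulVec_smul, Matrix.mulVec_smul, h1, h2] at h6
    have h7 : (x * (γ - α)) • T.f a + (y * (γ - β)) • T.f b =
        γ • (x • T.f a + y • T.f b) - (x • α • T.f a + y • β • T.f b) := by module
    rw [h7, h6, sub_self]
  obtain ⟨h6, h7⟩ := f_indep hab h5
  have h8 : γ = α := sub_eq_zero.mp ((mul_eq_zero.mp h6).resolve_left hx)
  have h9 : γ = β := sub_eq_zero.mp ((mul_eq_zero.mp h7).resolve_left hy)
  intro v hv
  obtain ⟨s, t, hst⟩ := form_mem ha hb hab.symm v hv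
  rw [hst, Matrix.mulVec_add, Matrix.mulVec_smul, Matrix.mulVec_smul, h1, h2, ← h9, h8]
  module

theorem eig_all {M : Matrix (Fin 3) (Fin 3) ℂ} {q : Fin r} {α : ℂ}
    (hV : ∀ v : Fin 3 → ℂ, v ⬝ᵥ T.pt q = 0 → M.mulVec v = α • v) {l m : Fin k}
    (hl : l ∉ T.tri q) (hm : m ∉ T.tri q) (hlm : l ≠ m) {μ ν : ℂ}
    (h1 : M.mulVec (T.f l) = μ • T.f l) (h2 : M.mulVec (T.f m) = ν • T.f m) :
    ∀ v : Fin 3 → ℂ, M.mulVec v = α • v := by
  have hl' : T.f l ⬝ᵥ T.pt q ≠ 0 := fun h => hl ((T.mem_tri l q).mpr h)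
  have hm' : T.f m ⬝ᵥ T.pt q ≠ 0 := fun h => hm ((T.mem_tri m q).mpr h)
  set s := T.f l ⬝ᵥ T.pt q with hs
  set t := T.f m ⬝ᵥ T.pt q with ht
  have h3 : (t • T.f l - s • T.f m) ⬝ᵥ T.pt q = 0 := by
    rw [sub_dotProduct, smul_dotProduct, smul_dotProduct, ← hs, ← ht, smul_eq_mul, smul_eq_mul]
    ring
  have h4 := hV _ h3
  rw [Matrix.mulVec_sub, Matrix.mulVec_smul, Matrix.mulVec_smul, h1, h2] at h4
  have h5 : (t * (μ - α)) • T.f l + (-(s * (ν - α))) • T.f m = 0 := by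
    have h6 : (t * (μ - α)) • T.f l + (-(s * (ν - α))) • T.f m =
        (t • μ • T.f l - s • ν • T.f m) - α • (t • T.f l - s • T.f m) := by module
    rw [h6, h4, sub_self]
  have h6 : μ = α := sub_eq_zero.mp ((mul_eq_zero.mp (f_indep hlm h5).1).resolve_left hm')
  intro v
  have h7 : (v - (v ⬝ᵥ T.pt q / s) • T.f l) ⬝ᵥ T.pt q = 0 := by
    rw [sub_dotProduct, smul_dotProduct, ← hs, smul_eq_mul, div_mul_cancel₀ _ hl', sub_self]
  have h8 := hV _ h7
  rw [Matrix.mulVec_sub, Matrix.mulVec_smul, h1, h6] at h8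
  have h9 : M.mulVec v = (M.mulVec v - (v ⬝ᵥ T.pt q / s) • α • T.f l) +
      (v ⬝ᵥ T.pt q / s) • α • T.f l := by rw [sub_add_cancel]
  rw [h9, h8]
  module

/-- Line `i` has at most one multiple point. -/
def Few (T : TConf ℂ k r) (i : Fin k) : Prop :=
  ∀ q q', i ∈ T.tri q → i ∈ T.tri q' → q = q'

theorem free_move (hF : T.Full) (hIR : T.LR) (hk : 2 ≤ k) {i : Fin k} (hi : T.Few i) :
    ∃ (A : Matrix (Fin 3) (Fin 3) ℂ), (∀ j, j ≠ i → ∃ c : ℂ, A.mulVec (T.f j) = c • T.f j) ∧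
      ∀ c : ℂ, A.mulVec (T.f i) ≠ c • T.f i := by
  have hb : ∃ b, b ≠ i ∧ ∀ q, i ∈ T.tri q → b ∈ T.tri q := by
    by_cases h : ∃ q, i ∈ T.tri q
    · obtain ⟨q, hq⟩ := h
      obtain ⟨b, hb, hbi⟩ := Finset.exists_mem_ne
        (by have := hF.three q; omega : 1 < (T.tri q).card) i
      exact ⟨b, hbi, fun q' hq' => by rw [hi q' q hq' hq]; exact hb⟩
    · push Not at h
      haveI : Nontrivial (Fin k) := Fin.nontrivial_iff_two_le.mpr hk
      obtain ⟨b, hb⟩ := exists_ne i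
      exact ⟨b, hb, fun q hq => absurd hq (h q)⟩
  obtain ⟨b, hbi, hb⟩ := hb
  obtain ⟨A, c, hAc⟩ := hIR (fun j => if j = i then T.f b else 0) (fun q => by
    refine ⟨0, fun j hj => ⟨?_, dotProduct_zero _⟩⟩
    rw [dotProduct_zero, add_zero]
    by_cases hji : j = i
    · subst hji
      rw [if_pos rfl]
      exact (T.mem_tri b q).mp (hb q hj)
    · rw [if_neg hji, zero_dotProduct])
  refine ⟨A, fun j hj => ⟨-c j, ?_⟩, fun c' h => ?_⟩
  · have h1 := hAc j
    rw [if_neg hj] at h1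
    rw [neg_smul]
    exact (eq_neg_of_add_eq_zero_left h1.symm)
  · have h1 := hAc i
    rw [if_pos rfl, h] at h1
    have h2 : (1 : ℂ) • T.f b + (-(c' + c i)) • T.f i = 0 := by
      rw [h1]; module
    exact one_ne_zero (f_indep hbi h2).1

theorem few_step (hF : T.Full) (hIR : T.LR) (hk : 2 ≤ k) {i : Fin k} (hi : T.Few i) {y : Fin r}
    (hy : 3 ≤ ((T.tri y).erase i).card) : i ∉ T.tri y ∧ ((T.tri y)ᶜ.erase i).card ≤ 1 := by
  obtain ⟨A, hA, hA'⟩ := free_move hF hIR hk hi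
  obtain ⟨a, ha, b, hb, c, hc, hab, hac, hbc⟩ := Finset.two_lt_card.mp (by omega :
    2 < ((T.tri y).erase i).card)
  rw [Finset.mem_erase] at ha hb hc
  obtain ⟨α, h1⟩ := hA a ha.1
  obtain ⟨β, h2⟩ := hA b hb.1
  obtain ⟨γ, h3⟩ := hA c hc.1
  have hV := eig3 ha.2 hb.2 hc.2 hab hac hbc h1 h2 h3
  constructor
  · intro h
    exact hA' α (hV _ ((T.mem_tri i y).mp h))
  · rw [Finset.card_le_one]
    intro l hl m hm
    rw [Finset.mem_erase, Finset.mem_compl] at hl hm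
    by_contra hlm
    obtain ⟨μ, h4⟩ := hA l hl.1
    obtain ⟨ν, h5⟩ := hA m hm.1
    exact hA' α (eig_all hV hl.2 hm.2 hlm h4 h5 _)

theorem not_few (hF : T.Full) (hIR : T.LR) (hk : 6 ≤ k) (i : Fin k) : ¬ T.Few i := by
  intro hi
  have hcompl : ∀ y, (T.tri y)ᶜ.card + (T.tri y).card = k := by
    intro y
    have := Finset.card_compl_add_card (T.tri y)
    simpa using this
  by_cases h : ∃ y, 3 ≤ ((T.tri y).erase i).card
  · obtain ⟨y, hy⟩ := h
    obtain ⟨h1, h2⟩ := few_step hF hIR (by omega) hi hy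
    have h3 : (T.tri y)ᶜ.card ≤ 2 := by
      have := Finset.card_erase_add_one (Finset.mem_compl.mpr h1)
      omega
    have h4 : 4 ≤ (T.tri y).card := by have := hcompl y; omega
    have h5 : ∀ j ∈ T.tri y, ∀ z, z ≠ y → j ∈ T.tri z → i ∈ T.tri z := by
      intro j hj z hz hjz
      by_contra hiz
      have h6 : 2 ≤ ((T.tri z).erase j).card := by
        have := Finset.card_erase_add_one hjz
        have := hF.three z
        omega
      have h7 : (T.tri z).erase j ⊆ (T.tri y)ᶜ.erase i := by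
        intro x hx
        rw [Finset.mem_erase] at hx
        rw [Finset.mem_erase, Finset.mem_compl]
        refine ⟨fun h => hiz (h ▸ hx.2), fun hxy => ?_⟩
        have h8 := Finset.card_le_one.mp (T.inter_le_one hz)
        exact hx.1 (h8 x (Finset.mem_inter.mpr ⟨hx.2, hxy⟩) j (Finset.mem_inter.mpr ⟨hjz, hj⟩))
      have := Finset.card_le_card h7
      omega
    have h6 : ∃ j ∈ T.tri y, T.Few j := by
      obtain ⟨j1, hj1, j2, hj2, hne⟩ := Finset.one_lt_card.mp (by omega : 1 < (T.tri y).card)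
      have h7 : ∀ j ∈ T.tri y, ¬ T.Few j → ∃ z, z ≠ y ∧ j ∈ T.tri z := by
        intro j hj hnf
        unfold Few at hnf
        push Not at hnf
        obtain ⟨q, q', hq, hq', hne⟩ := hnf
        by_cases hqy : q = y
        · exact ⟨q', fun h => hne (hqy.trans h.symm), hq'⟩
        · exact ⟨q, hqy, hq⟩
      by_contra hcon
      push Not at hcon
      obtain ⟨z1, hz1, hj1z⟩ := h7 j1 hj1 (hcon j1 hj1)
      obtain ⟨z2, hz2, hj2z⟩ := h7 j2 hj2 (hcon j2 hj2)
      have h8 := hi z1 z2 (h5 j1 hj1 z1 hz1 hj1z) (h5 j2 hj2 z2 hz2 hj2z)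
      subst h8
      have h9 := Finset.card_le_one.mp (T.inter_le_one hz1)
      exact hne (h9 j1 (Finset.mem_inter.mpr ⟨hj1z, hj1⟩) j2 (Finset.mem_inter.mpr ⟨hj2z, hj2⟩))
    obtain ⟨j, hj, hjf⟩ := h6
    have h7 := few_step hF hIR (by omega) hjf (y := y) (by
      have := Finset.card_erase_add_one hj
      omega)
    exact h7.1 hj
  · push Not at h
    obtain ⟨y0⟩ := hF.pts
    have h1 : ∀ y, i ∈ T.tri y := by
      intro y
      by_contra hiy
      have h2 := h y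
      rw [Finset.erase_eq_of_notMem hiy] at h2
      have := hF.three y
      omega
    have h2 : ∀ y, y = y0 := fun y => hi y y0 (h1 y) (h1 y0)
    obtain ⟨j, hj⟩ := hF.out y0
    have hjf : T.Few j := by
      intro q q' hq _
      rw [h2 q] at hq
      exact absurd hq hj
    have h3 := few_step hF hIR (by omega) hjf (y := y0) (by
      rw [Finset.erase_eq_of_notMem hj]
      exact hF.three y0)
    have h4 := Finset.card_erase_add_one (Finset.mem_compl.mpr hj)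
    have h5 := hcompl y0
    have h6 := h y0
    have h7 := Finset.card_erase_add_one (h1 y0)
    omega

/-- A set of lines closed under concurrency (away from a line and a point). -/
def Clo (T : TConf ℂ k r) (l : Fin k) (p0 : Fin r) (K : Fin k → Prop) : Prop :=
  ∀ q, q ≠ p0 → ∀ i ∈ T.tri q, ∀ j ∈ T.tri q, i ≠ l → j ≠ l → K i → K j

theorem clo_eig (hF : T.Full) (hIR : T.LR) (hk : 6 ≤ k) {l : Fin k} {p0 : Fin r}
    {K : Fin k → Prop} (hK : T.Clo l p0 K) (hne : ∃ i, i ≠ l ∧ K i)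
    {M : Matrix (Fin 3) (Fin 3) ℂ} (hM : ∀ i, i ≠ l → K i → ∃ c : ℂ, M.mulVec (T.f i) = c • T.f i)
    (hMl : ∃ c : ℂ, M.mulVec (T.f l) = c • T.f l) : ∃ α : ℂ, ∀ v, M.mulVec v = α • v := by
  have h1 : ∃ i, i ≠ l ∧ K i ∧ i ∉ T.tri p0 := by
    obtain ⟨i, hil, hi⟩ := hne
    by_cases hip : i ∈ T.tri p0
    · have h2 := not_few hF hIR hk i
      unfold Few at h2
      push Not at h2
      obtain ⟨q, q', hq, hq', hqq⟩ := h2
      have h3 : ∃ x, x ≠ p0 ∧ i ∈ T.tri x := by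
        by_cases hqp : q = p0
        · exact ⟨q', fun h => hqq (hqp.trans h.symm), hq'⟩
        · exact ⟨q, hqp, hq⟩
      obtain ⟨x, hx, hix⟩ := h3
      have h4 : 0 < (((T.tri x).erase i).erase l).card := by
        have e1 := Finset.card_erase_add_one hix
        have e2 := hF.three x
        have e3 := Finset.pred_card_le_card_erase (s := (T.tri x).erase i) (a := l)
        omega
      obtain ⟨i', hi'⟩ := Finset.card_pos.mp h4
      rw [Finset.mem_erase, Finset.mem_erase] at hi'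
      refine ⟨i', hi'.1, hK x hx i hix i' hi'.2.2 hil hi'.1 hi, fun h5 => ?_⟩
      have h6 := Finset.card_le_one.mp (T.inter_le_one hx)
      exact hi'.2.1 (h6 i' (Finset.mem_inter.mpr ⟨hi'.2.2, h5⟩) i
        (Finset.mem_inter.mpr ⟨hix, hip⟩))
    · exact ⟨i, hil, hi, hip⟩
  obtain ⟨i, hil, hi, hip⟩ := h1
  have h2 := not_few hF hIR hk i
  unfold Few at h2
  push Not at h2
  have h3 : ∃ x y, x ≠ y ∧ i ∈ T.tri x ∧ i ∈ T.tri y ∧ l ∉ T.tri x := by
    obtain ⟨q, q', hq, hq', hqq⟩ := h2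
    by_cases hlq : l ∈ T.tri q
    · refine ⟨q', q, hqq.symm, hq', hq, fun h => ?_⟩
      have h6 := Finset.card_le_one.mp (T.inter_le_one hqq)
      exact hil (h6 i (Finset.mem_inter.mpr ⟨hq, hq'⟩) l (Finset.mem_inter.mpr ⟨hlq, h⟩))
    · exact ⟨q, q', hqq, hq, hq', hlq⟩
  obtain ⟨x, y, hxy, hix, hiy, hlx⟩ := h3
  have hxp : x ≠ p0 := fun h => hip (h ▸ hix)
  have hyp : y ≠ p0 := fun h => hip (h ▸ hiy)
  obtain ⟨a, ha, b, hb, c, hc, hab, hac, hbc⟩ := Finset.two_lt_card.mp (by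
    have := hF.three x; omega : 2 < (T.tri x).card)
  have hne' : ∀ j ∈ T.tri x, j ≠ l := fun j hj h => hlx (h ▸ hj)
  have hKx : ∀ j ∈ T.tri x, K j := fun j hj => hK x hxp i hix j hj hil (hne' j hj) hi
  obtain ⟨α, e1⟩ := hM a (hne' a ha) (hKx a ha)
  obtain ⟨β, e2⟩ := hM b (hne' b hb) (hKx b hb)
  obtain ⟨γ, e3⟩ := hM c (hne' c hc) (hKx c hc)
  have hV := eig3 ha hb hc hab hac hbc e1 e2 e3
  have h4 : 0 < (((T.tri y).erase i).erase l).card := by
    have e1 := Finset.card_erase_add_one hiy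
    have e2 := hF.three y
    have e3 := Finset.pred_card_le_card_erase (s := (T.tri y).erase i) (a := l)
    omega
  obtain ⟨m, hm⟩ := Finset.card_pos.mp h4
  rw [Finset.mem_erase, Finset.mem_erase] at hm
  have hmx : m ∉ T.tri x := by
    intro h5
    have h6 := Finset.card_le_one.mp (T.inter_le_one hxy)
    exact hm.2.1 (h6 m (Finset.mem_inter.mpr ⟨h5, hm.2.2⟩) i (Finset.mem_inter.mpr ⟨hix, hiy⟩))
  obtain ⟨μ, e4⟩ := hM m hm.1 (hK y hyp i hiy m hm.2.2 hil hm.1 hi)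
  obtain ⟨ν, e5⟩ := hMl
  exact ⟨α, eig_all hV hmx hlx hm.1 e4 e5⟩

/-- Connectivity. -/
theorem connected (hF : T.Full) (hIR : T.LR) (hk : 6 ≤ k) (l : Fin k) (p0 : Fin r)
    {K : Fin k → Prop} (hK : T.Clo l p0 K) (hne : ∃ i, i ≠ l ∧ K i) : ∀ j, j ≠ l → K j := by
  classical
  by_contra hcon
  push Not at hcon
  have hK' : T.Clo l p0 (fun i => ¬ K i) := by
    intro q hq i hi j hj hil hjl h1 h2
    exact h1 (hK q hq j hj i hi hjl hil h2)
  obtain ⟨A, c, hAc⟩ := hIR (fun i => if i ≠ l ∧ K i then (T.f i ⬝ᵥ T.pt p0) • T.f l else 0)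
    (fun q => by
      by_cases hq : q = p0
      · subst hq
        refine ⟨0, fun i hi => ⟨?_, dotProduct_zero _⟩⟩
        rw [dotProduct_zero, add_zero, (T.mem_tri i q).mp hi]
        split_ifs <;> simp
      · by_cases h : ∃ i ∈ T.tri q, i ≠ l ∧ K i
        · obtain ⟨i, hi, hil, hKi⟩ := h
          refine ⟨(T.f l ⬝ᵥ T.pt p0) • T.pt q - (T.f l ⬝ᵥ T.pt q) • T.pt p0, fun j hj => ?_⟩
          have hjq := (T.mem_tri j q).mp hj
          by_cases hjl : j = l
          · subst hjl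
            rw [if_neg (fun h => h.1 rfl), zero_dotProduct, hjq]
            simp [hjq]
          · rw [if_pos ⟨hjl, hK q hq i hi j hj hil hjl hKi⟩]
            simp only [smul_dotProduct, dotProduct_sub, dotProduct_smul, smul_eq_mul, hjq]
            constructor <;> ring
        · push Not at h
          refine ⟨0, fun j hj => ⟨?_, dotProduct_zero _⟩⟩
          rw [dotProduct_zero, add_zero, if_neg (fun h' => h j hj h'.1 h'.2), zero_dotProduct])
  set B : Matrix (Fin 3) (Fin 3) ℂ := Matrix.vecMulVec (T.f l) (T.pt p0) with hB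
  have hBv : ∀ v, B.mulVec v = (v ⬝ᵥ T.pt p0) • T.f l := by
    intro v
    rw [hB, Matrix.vecMulVec_mulVec, dotProduct_comm]
    ext j
    simp [mul_comm]
  have hAl : A.mulVec (T.f l) = (-c l) • T.f l := by
    have h1 := hAc l
    rw [if_neg (fun h => h.1 rfl)] at h1
    rw [neg_smul]
    exact eq_neg_of_add_eq_zero_left h1.symm
  obtain ⟨α, hα⟩ := clo_eig hF hIR hk hK' hcon (M := A) (fun i hil hi => ⟨-c i, by
      have h1 := hAc i
      rw [if_neg (fun h => hi h.2)] at h1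
      rw [neg_smul]
      exact eq_neg_of_add_eq_zero_left h1.symm⟩) ⟨_, hAl⟩
  obtain ⟨β, hβ⟩ := clo_eig hF hIR hk hK hne (M := A - B) (fun i hil hi => ⟨-c i, by
      have h1 := hAc i
      rw [if_pos ⟨hil, hi⟩] at h1
      rw [Matrix.sub_mulVec, hBv, h1]
      module⟩) ⟨-c l - T.f l ⬝ᵥ T.pt p0, by
      rw [Matrix.sub_mulVec, hBv, hAl]
      module⟩
  have hBs : ∀ v, (v ⬝ᵥ T.pt p0) • T.f l = (α - β) • v := by
    intro v
    have h1 := hβ v
    rw [Matrix.sub_mulVec, hBv, hα] at h1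
    rw [sub_smul, ← h1]
    abel
  obtain ⟨w, hw⟩ := hF.out p0
  obtain ⟨i, hi⟩ := hne
  have h1 := hBs (T.f i)
  have h2 : (T.f i ⬝ᵥ T.pt p0) • T.f l + (-(α - β)) • T.f i = 0 := by
    rw [h1]; module
  have h3 := (f_indep hi.1.symm h2).2
  have h4 := hBs (T.f w)
  rw [neg_eq_zero.mp h3, zero_smul] at h4
  rcases smul_eq_zero.mp h4 with h5 | h5
  · exact hw ((T.mem_tri w p0).mpr h5)
  · have h6 := T.fc l
    rw [h5, zero_dotProduct] at h6
    exact zero_ne_one h6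

end TConf

end

end Pool.Agent.H94_gen
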