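import Mathlib

/-!
# The complex numbers as an ultraproduct of fields of positive characteristic
-/

namespace Pool.Agent.H94_gen

open Cardinal

noncomputable section

instance factPrimes (p : Nat.Primes) : Fact (p : ℕ).Prime := ⟨p.2⟩

/-- A large algebraically closed field of characteristic `p`. -/
def Fp (p : Nat.Primes) : Type :=
  AlgebraicClosure (FractionRing (MvPolynomial ℂ (ZMod (p : ℕ))))

instance (p : Nat.Primes) : Field (Fp p) :=
  inferInstanceAs (Field (AlgebraicClosure (FractionRing (MvPolynomial ℂ (ZMod (p : ℕ))))))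

instance (p : Nat.Primes) : IsAlgClosed (Fp p) :=
  inferInstanceAs (IsAlgClosed (AlgebraicClosure (FractionRing (MvPolynomial ℂ (ZMod (p : ℕ))))))

instance (p : Nat.Primes) : CharP (Fp p) (p : ℕ) := by
  haveI : CharP (FractionRing (MvPolynomial ℂ (ZMod (p : ℕ)))) (p : ℕ) :=
    charP_of_injective_algebraMap (IsFractionRing.injective (MvPolynomial ℂ (ZMod (p : ℕ)))
      (FractionRing (MvPolynomial ℂ (ZMod (p : ℕ))))) (p : ℕ)
  exact inferInstanceAs
    (CharP (AlgebraicClosure (FractionRing (MvPolynomial ℂ (ZMod (p : ℕ))))) (p : ℕ))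

instance (p : Nat.Primes) : Infinite (Fp p) := IsAlgClosed.instInfinite

/-- The variables. -/
def Fp.var (p : Nat.Primes) (x : ℂ) : Fp p :=
  (algebraMap (FractionRing (MvPolynomial ℂ (ZMod (p : ℕ))))
    (AlgebraicClosure (FractionRing (MvPolynomial ℂ (ZMod (p : ℕ))))))
    (algebraMap (MvPolynomial ℂ (ZMod (p : ℕ))) _ (MvPolynomial.X x))

theorem Fp.var_injective (p : Nat.Primes) : Function.Injective (Fp.var p) := by
  intro x y h
  unfold Fp.var at h
  have h1 := (algebraMap (FractionRing (MvPolynomial ℂ (ZMod (p : ℕ))))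
    (AlgebraicClosure (FractionRing (MvPolynomial ℂ (ZMod (p : ℕ)))))).injective h
  have h2 := IsFractionRing.injective (MvPolynomial ℂ (ZMod (p : ℕ)))
      (FractionRing (MvPolynomial ℂ (ZMod (p : ℕ)))) h1
  exact MvPolynomial.X_injective h2

theorem Fp.card_le (p : Nat.Primes) : #(Fp p) ≤ 𝔠 := by
  have h1 : #(MvPolynomial ℂ (ZMod (p : ℕ))) ≤ 𝔠 := by
    refine MvPolynomial.cardinalMk_le_max.trans ?_
    rw [Cardinal.mk_complex]
    refine max_le (max_le ?_ le_rfl) aleph0_le_continuum
    exact (lt_aleph0_of_finite _).le.trans aleph0_le_continuum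
  have h2 : #(FractionRing (MvPolynomial ℂ (ZMod (p : ℕ)))) ≤ 𝔠 := by
    rw [IsFractionRing.cardinalMk (MvPolynomial ℂ (ZMod (p : ℕ)))]
    exact h1
  have h3 := Algebra.IsAlgebraic.cardinalMk_le_max (FractionRing (MvPolynomial ℂ (ZMod (p : ℕ))))
    (AlgebraicClosure (FractionRing (MvPolynomial ℂ (ZMod (p : ℕ)))))
  exact h3.trans (max_le h2 aleph0_le_continuum)

/-- The product ring. -/
abbrev RR : Type := (p : Nat.Primes) → Fp p

/-- The ultrafilter. -/
def UU : Ultrafilter Nat.Primes := Filter.hyperfilter Nat.Primes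

/-- The ideal of the ultraproduct. -/
def II : Ideal RR where
  carrier := {x | ∀ᶠ p in (UU : Filter Nat.Primes), x p = 0}
  add_mem' := by
    intro x y hx hy
    filter_upwards [hx, hy] with p h1 h2
    rw [Pi.add_apply, h1, h2, add_zero]
  zero_mem' := Filter.Eventually.of_forall fun p => rfl
  smul_mem' := by
    intro c x hx
    filter_upwards [hx] with p h1
    rw [smul_eq_mul, Pi.mul_apply, h1, mul_zero]

theorem mem_II {x : RR} : x ∈ II ↔ ∀ᶠ p in (UU : Filter Nat.Primes), x p = 0 := Iff.rfl

instance II_max : II.IsMaximal := by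
  rw [Ideal.isMaximal_iff]
  constructor
  · intro h
    rw [mem_II] at h
    have h1 : ∀ᶠ p in (UU : Filter Nat.Primes), False := by
      filter_upwards [h] with p hp
      exact one_ne_zero hp
    exact (Filter.eventually_false_iff_eq_bot.mp h1 |> UU.neBot.ne)
  · intro J x hJ hx hxJ
    have h1 : ∀ᶠ p in (UU : Filter Nat.Primes), x p ≠ 0 := by
      rw [mem_II] at hx
      exact Ultrafilter.eventually_not.mpr hx
    have h2 : (1 - x⁻¹ * x : RR) ∈ II := by
      rw [mem_II]
      filter_upwards [h1] with p hp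
      rw [Pi.sub_apply, Pi.mul_apply, Pi.inv_apply, inv_mul_cancel₀ hp]
      exact sub_self 1
    have h3 := J.add_mem (hJ h2) (J.mul_mem_left x⁻¹ hxJ)
    rwa [sub_add_cancel] at h3

/-- The ultraproduct. -/
def KK : Type := RR ⧸ II

instance : Field KK := Ideal.Quotient.field II

/-- The projection. -/
def KK.mk : RR →+* KK := Ideal.Quotient.mk II

theorem KK.mk_surjective : Function.Surjective KK.mk := Ideal.Quotient.mk_surjective

theorem KK.mk_eq_zero {x : RR} : KK.mk x = 0 ↔ ∀ᶠ p in (UU : Filter Nat.Primes), x p = 0 :=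
  Ideal.Quotient.eq_zero_iff_mem

instance : CharZero KK := by
  refine charZero_of_inj_zero fun n hn => ?_
  by_contra h0
  have h1 : KK.mk (n : RR) = 0 := by rw [map_natCast]; exact hn
  rw [KK.mk_eq_zero] at h1
  have h2 : ∀ᶠ p in (UU : Filter Nat.Primes), ¬ ((n : RR) p = 0) := by
    have h3 : {p : Nat.Primes | (p : ℕ) ∣ n}.Finite := by
      have h4 : ({m : ℕ | m ∣ n}).Finite := by
        refine (Set.finite_Iic n).subset fun m hm => ?_
        exact Nat.le_of_dvd (Nat.pos_of_ne_zero h0) hm
      have h6 : {p : Nat.Primes | (p : ℕ) ∣ n} =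
          (fun p : Nat.Primes => (p : ℕ)) ⁻¹' {m : ℕ | m ∣ n} := rfl
      rw [h6]
      exact h4.preimage (Subtype.val_injective.injOn)
    have h5 : {p : Nat.Primes | (p : ℕ) ∣ n}ᶜ ∈ (UU : Filter Nat.Primes) :=
      Filter.compl_mem_hyperfilter_of_finite h3
    filter_upwards [h5] with p hp h6
    apply hp
    have h7 : ((n : ℕ) : Fp p) = 0 := h6
    exact (CharP.cast_eq_zero_iff (Fp p) (p : ℕ) n).mp h7
  have h3 : ∀ᶠ p in (UU : Filter Nat.Primes), False := by
    filter_upwards [h1, h2] with p h4 h5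
    exact h5 h4
  exact (Filter.eventually_false_iff_eq_bot.mp h3 |> UU.neBot.ne)

instance : IsAlgClosed KK := by
  refine IsAlgClosed.of_exists_root _ fun f hf hirr => ?_
  have hdeg : 0 < f.natDegree := hirr.natDegree_pos
  choose c hc using fun j => KK.mk_surjective (f.coeff j)
  have h1 : ∀ p : Nat.Primes, ∃ x : Fp p,
      x ^ f.natDegree + ∑ j ∈ Finset.range f.natDegree, c j p * x ^ j = 0 := by
    intro p
    set g : Polynomial (Fp p) := Polynomial.X ^ f.natDegree +
      ∑ j ∈ Finset.range f.natDegree, Polynomial.C (c j p) * Polynomial.X ^ j with hg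
    have hgd : g.degree = f.natDegree := by
      have h2 : (∑ j ∈ Finset.range f.natDegree,
          Polynomial.C (c j p) * Polynomial.X ^ j : Polynomial (Fp p)).degree <
          (Polynomial.X ^ f.natDegree : Polynomial (Fp p)).degree := by
        rw [Polynomial.degree_X_pow]
        refine (Polynomial.degree_sum_le _ _).trans_lt ?_
        rw [Finset.sup_lt_iff (by exact WithBot.bot_lt_coe _)]
        intro j hj
        refine (Polynomial.degree_C_mul_X_pow_le j _).trans_lt ?_
        exact_mod_cast Finset.mem_range.mp hj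
      rw [hg, Polynomial.degree_add_eq_left_of_degree_lt h2, Polynomial.degree_X_pow]
    obtain ⟨x, hx⟩ := IsAlgClosed.exists_root g (by
      rw [hgd]
      exact_mod_cast hdeg.ne')
    refine ⟨x, ?_⟩
    rw [Polynomial.IsRoot, hg] at hx
    simpa [Polynomial.eval_finsetSum] using hx
  choose x hx using h1
  refine ⟨KK.mk x, ?_⟩
  rw [Polynomial.eval_eq_sum_range, Finset.sum_range_succ, hf.coeff_natDegree, one_mul, add_comm]
  have h2 : KK.mk (x ^ f.natDegree + ∑ j ∈ Finset.range f.natDegree, c j * x ^ j) = 0 := by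
    have : x ^ f.natDegree + ∑ j ∈ Finset.range f.natDegree, c j * x ^ j = 0 := by
      funext p
      have := hx p
      simpa [Finset.sum_apply] using this
    rw [this, map_zero]
  rw [map_add, map_pow, map_sum] at h2
  rw [← h2]
  congr 1
  refine Finset.sum_congr rfl fun j _ => ?_
  rw [map_mul, map_pow, hc]

theorem KK.card : #KK = 𝔠 := by
  apply le_antisymm
  · refine (mk_le_of_surjective KK.mk_surjective).trans ?_
    rw [mk_pi]
    refine (prod_le_prod _ (fun _ => 𝔠) fun p => Fp.card_le p).trans ?_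
    rw [prod_const, lift_id, lift_id]
    have h1 : #Nat.Primes ≤ ℵ₀ := mk_le_aleph0
    refine (power_le_power_left continuum_ne_zero h1).trans ?_
    rw [continuum_power_aleph0]
  · rw [← mk_complex]
    refine mk_le_of_injective (f := fun x : ℂ => KK.mk fun p => Fp.var p x) ?_
    intro x y h
    have h1 : KK.mk ((fun p => Fp.var p x) - (fun p => Fp.var p y)) = 0 := by
      rw [map_sub]; exact sub_eq_zero.mpr h
    rw [KK.mk_eq_zero] at h1
    obtain ⟨p, hp⟩ := h1.exists
    exact Fp.var_injective p (sub_eq_zero.mp hp)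

theorem exists_equiv : Nonempty (KK ≃+* ℂ) := by
  apply IsAlgClosed.ringEquiv_of_equiv_of_charZero
  · rw [KK.card]; exact aleph0_lt_continuum
  · rw [← Cardinal.eq, KK.card, mk_complex]

/-- The projection from the product ring to the complex numbers. -/
def ulim : RR →+* ℂ := (exists_equiv.some : KK ≃+* ℂ).toRingHom.comp KK.mk

theorem ulim_surjective : Function.Surjective ulim :=
  (exists_equiv.some : KK ≃+* ℂ).surjective.comp KK.mk_surjective

theorem ulim_eq_zero {x : RR} : ulim x = 0 ↔ ∀ᶠ p in (UU : Filter Nat.Primes), x p = 0 := by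
  rw [← KK.mk_eq_zero]
  exact (exists_equiv.some : KK ≃+* ℂ).map_eq_zero_iff

theorem ulim_ne_zero {x : RR} : ulim x ≠ 0 ↔ ∀ᶠ p in (UU : Filter Nat.Primes), x p ≠ 0 := by
  rw [Ne, ulim_eq_zero]
  exact Ultrafilter.eventually_not.symm

theorem ulim_eq {x y : RR} : ulim x = ulim y ↔ ∀ᶠ p in (UU : Filter Nat.Primes), x p = y p := by
  rw [← sub_eq_zero, ← map_sub, ulim_eq_zero]
  exact Filter.eventually_congr (Filter.Eventually.of_forall fun p => sub_eq_zero)

theorem ulim_div (x y : RR) : ulim (fun p => x p / y p) = ulim x / ulim y := by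
  by_cases h : ulim y = 0
  · rw [h, div_zero, ulim_eq_zero]
    filter_upwards [ulim_eq_zero.mp h] with p hp
    rw [hp, div_zero]
  · rw [eq_div_iff h, ← map_mul, ulim_eq]
    filter_upwards [ulim_ne_zero.mp h] with p hp
    exact div_mul_cancel₀ _ hp

theorem eventually_large (n : ℕ) :
    ∀ᶠ p : Nat.Primes in (UU : Filter Nat.Primes), n ≤ (p : ℕ) := by
  have h3 : {p : Nat.Primes | (p : ℕ) < n}.Finite :=
    (Set.finite_Iio n).preimage (Subtype.val_injective.injOn)
  have h5 : {p : Nat.Primes | (p : ℕ) < n}ᶜ ∈ (UU : Filter Nat.Primes) :=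
    Filter.compl_mem_hyperfilter_of_finite h3
  filter_upwards [h5] with p hp
  exact not_lt.mp hp

end

end Pool.Agent.H94_gen
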