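import Pool.Agent.H94_gen.Num
import Pool.Agent.H94_gen.Ultra

/-!
# Transfer of vanishing from large characteristic to the complex numbers
-/

namespace Pool.Agent.H94_gen

open MvPolynomial

noncomputable section

set_option linter.unusedSectionVars false

/-- A lift of a complex number. -/
def lft : ℂ → RR := Function.surjInv ulim_surjective

theorem ulim_lft (z : ℂ) : ulim (lft z) = z := Function.surjInv_eq ulim_surjective z

/-- Evaluation at `p`. -/
def Ev (p : Nat.Primes) : MvPolynomial (Fin 3) RR →+* RK (Fp p) :=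
  MvPolynomial.map (Pi.evalRingHom Fp p)

/-- The limit. -/
def Lm : MvPolynomial (Fin 3) RR →+* RK ℂ := MvPolynomial.map ulim

theorem Lm_surjective : Function.Surjective Lm := MvPolynomial.map_surjective _ ulim_surjective

theorem coeff_Ev (p : Nat.Primes) (X : MvPolynomial (Fin 3) RR) (m : Fin 3 →₀ ℕ) :
    coeff m (Ev p X) = coeff m X p := by
  rw [Ev, coeff_map]; rfl

theorem coeff_Lm (X : MvPolynomial (Fin 3) RR) (m : Fin 3 →₀ ℕ) :
    coeff m (Lm X) = ulim (coeff m X) := by
  rw [Lm, coeff_map]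

theorem Lm_eq_zero {X : MvPolynomial (Fin 3) RR} :
    Lm X = 0 ↔ ∀ᶠ p in (UU : Filter Nat.Primes), Ev p X = 0 := by
  constructor
  · intro h
    have h1 : ∀ m ∈ X.support, ∀ᶠ p in (UU : Filter Nat.Primes), coeff m (Ev p X) = 0 := by
      intro m _
      have h2 : ulim (coeff m X) = 0 := by rw [← coeff_Lm, h, coeff_zero]
      filter_upwards [ulim_eq_zero.mp h2] with p hp
      rw [coeff_Ev]; exact hp
    have h3 : ∀ᶠ p in (UU : Filter Nat.Primes), ∀ m ∈ X.support, coeff m (Ev p X) = 0 :=
      (Filter.eventually_all_finset _).mpr h1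
    filter_upwards [h3] with p hp
    ext m
    rw [coeff_zero]
    by_cases hm : m ∈ X.support
    · exact hp m hm
    · rw [coeff_Ev, notMem_support_iff.mp hm]; rfl
  · intro h
    ext m
    rw [coeff_zero, coeff_Lm, ulim_eq_zero]
    filter_upwards [h] with p hp
    rw [← coeff_Ev, hp, coeff_zero]

/-- A lift of a polynomial. -/
def liftP (Q : RK ℂ) : MvPolynomial (Fin 3) RR :=
  ∑ m ∈ Q.support, monomial m (lft (coeff m Q))

theorem Lm_liftP (Q : RK ℂ) : Lm (liftP Q) = Q := by
  rw [liftP, map_sum]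
  conv_rhs => rw [← support_sum_monomial_coeff Q]
  refine Finset.sum_congr rfl fun m _ => ?_
  rw [Lm, map_monomial, ulim_lft]

theorem Ev_liftP_hom {Q : RK ℂ} {e : ℕ} (h : Q.IsHomogeneous e) (p : Nat.Primes) :
    (Ev p (liftP Q)).IsHomogeneous e := by
  rw [liftP, map_sum]
  refine IsHomogeneous.sum _ _ _ fun m hm => ?_
  rw [Ev, map_monomial]
  apply isHomogeneous_monomial
  rw [h.degree_eq_sum_deg_support hm]
  rfl

/-- Assembly of a family of homogeneous polynomials. -/
def asm (e : ℕ) (P : (p : Nat.Primes) → RK (Fp p)) : MvPolynomial (Fin 3) RR :=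
  ∑ m ∈ (Finset.univ : Finset (Fin 3)).finsuppAntidiag e, monomial m (fun p => coeff m (P p))

theorem Ev_asm {e : ℕ} {P : (p : Nat.Primes) → RK (Fp p)} (h : ∀ p, (P p).IsHomogeneous e)
    (p : Nat.Primes) : Ev p (asm e P) = P p := by
  classical
  ext m
  rw [coeff_Ev, asm, coeff_sum]
  rw [Finset.sum_apply]
  by_cases hm : m ∈ (Finset.univ : Finset (Fin 3)).finsuppAntidiag e
  · rw [Finset.sum_eq_single m]
    · rw [coeff_monomial, if_pos rfl]
    · intro b _ hb
      rw [coeff_monomial, if_neg hb]; rfl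
    · intro h'; exact absurd hm h'
  · rw [Finset.sum_eq_zero]
    · by_contra hne
      apply hm
      have h1 : m ∈ (P p).support := mem_support_iff.mpr (Ne.symm hne)
      have h2 := (h p).degree_eq_sum_deg_support h1
      rw [Finset.mem_finsuppAntidiag]
      refine ⟨?_, Finset.subset_univ _⟩
      rw [h2, Finset.sum_subset (Finset.subset_univ m.support)]
      intro i _ hi
      exact Finsupp.notMem_support_iff.mp hi
    · intro b hb
      rw [coeff_monomial, if_neg]
      · rfl
      · rintro rfl; exact hm hb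

theorem Lm_asm_hom (e : ℕ) (P : (p : Nat.Primes) → RK (Fp p)) :
    (Lm (asm e P)).IsHomogeneous e := by
  rw [asm, map_sum]
  refine IsHomogeneous.sum _ _ _ fun m hm => ?_
  rw [Lm, map_monomial]
  apply isHomogeneous_monomial
  rw [Finset.mem_finsuppAntidiag] at hm
  rw [← hm.1, Finsupp.degree_eq_sum]

/-- Specialization of a vector. -/
def sp (p : Nat.Primes) (v : Fin 3 → ℂ) : Fin 3 → Fp p := fun j => lft (v j) p

theorem ulim_dot (v w : Fin 3 → ℂ) : ulim (fun p => sp p v ⬝ᵥ sp p w) = v ⬝ᵥ w := by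
  have h1 : (fun p => sp p v ⬝ᵥ sp p w) = ∑ j, lft (v j) * lft (w j) := by
    funext p
    rw [Finset.sum_apply]; rfl
  rw [h1, map_sum, dotProduct]
  refine Finset.sum_congr rfl fun j _ => ?_
  rw [map_mul, ulim_lft, ulim_lft]

/-- The linear form over the product ring. -/
def linR (v : Fin 3 → ℂ) : MvPolynomial (Fin 3) RR := ∑ j, C (lft (v j)) * X j

theorem Lm_linR (v : Fin 3 → ℂ) : Lm (linR v) = lin v := by
  rw [linR, map_sum, lin]
  refine Finset.sum_congr rfl fun j _ => ?_
  rw [map_mul, Lm, map_C, map_X, ulim_lft]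

theorem Ev_linR (p : Nat.Primes) (v : Fin 3 → ℂ) : Ev p (linR v) = lin (sp p v) := by
  rw [linR, map_sum, lin]
  refine Finset.sum_congr rfl fun j _ => ?_
  rw [map_mul, Ev, map_C, map_X]
  rfl

/-- The grading homomorphism over the product ring. -/
def phiR (v w : Fin 3 → ℂ) :
    MvPolynomial (Fin 3) RR →+* Polynomial (MvPolynomial (Fin 3) RR) :=
  (aeval fun j => Polynomial.C (C (lft (v j)) * linR w) +
    Polynomial.X * Polynomial.C (X j - C (lft (v j)) * linR w) :
    MvPolynomial (Fin 3) RR →ₐ[RR] Polynomial (MvPolynomial (Fin 3) RR)).toRingHom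

/-- The grading homomorphism for given vectors. -/
def phiG {K : Type} [Field K] (v w : Fin 3 → K) : RK K →ₐ[K] Polynomial (RK K) :=
  aeval fun j => Polynomial.C (C (v j) * lin w) +
    Polynomial.X * Polynomial.C (X j - C (v j) * lin w)

theorem map_phiR_Lm (v w : Fin 3 → ℂ) (Y : MvPolynomial (Fin 3) RR) :
    Polynomial.map Lm (phiR v w Y) = phiG v w (Lm Y) := by
  have h : (Polynomial.mapRingHom Lm).comp (phiR v w) =
      (phiG v w).toRingHom.comp Lm := by
    apply MvPolynomial.ringHom_ext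
    · intro c
      simp only [RingHom.comp_apply, phiR, phiG, AlgHom.toRingHom_eq_coe, RingHom.coe_coe,
        algHom_C, Polynomial.coe_mapRingHom, Lm, map_C]
      simp [Polynomial.algebraMap_apply, MvPolynomial.algebraMap_eq]
    · intro j
      have h1 : Lm (X j) = X j := by rw [Lm, map_X]
      have h2 : Lm (C (lft (v j))) = C (v j) := by rw [Lm, map_C, ulim_lft]
      simp only [RingHom.comp_apply, phiR, phiG, AlgHom.toRingHom_eq_coe, RingHom.coe_coe,
        aeval_X, Polynomial.coe_mapRingHom, Polynomial.map_add, Polynomial.map_mul,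
        Polynomial.map_sub, Polynomial.map_C, Polynomial.map_X, map_mul, map_sub, Lm_linR, h1, h2]
  exact DFunLike.congr_fun h Y

theorem map_phiR_Ev (p : Nat.Primes) (v w : Fin 3 → ℂ) (Y : MvPolynomial (Fin 3) RR) :
    Polynomial.map (Ev p) (phiR v w Y) = phiG (sp p v) (sp p w) (Ev p Y) := by
  have h : (Polynomial.mapRingHom (Ev p)).comp (phiR v w) =
      (phiG (sp p v) (sp p w)).toRingHom.comp (Ev p) := by
    apply MvPolynomial.ringHom_ext
    · intro c
      simp only [RingHom.comp_apply, phiR, phiG, AlgHom.toRingHom_eq_coe, RingHom.coe_coe,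
        algHom_C, Polynomial.coe_mapRingHom, Ev, map_C]
      simp [Polynomial.algebraMap_apply, MvPolynomial.algebraMap_eq]
    · intro j
      have h1 : Ev p (X j) = X j := by rw [Ev, map_X]
      have h2 : Ev p (C (lft (v j))) = C (sp p v j) := by rw [Ev, map_C]; rfl
      simp only [RingHom.comp_apply, phiR, phiG, AlgHom.toRingHom_eq_coe, RingHom.coe_coe,
        aeval_X, Polynomial.coe_mapRingHom, Polynomial.map_add, Polynomial.map_mul,
        Polynomial.map_sub, Polynomial.map_C, Polynomial.map_X, map_mul, map_sub, Ev_linR, h1, h2]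
  exact DFunLike.congr_fun h Y

variable {k r : ℕ}

/-- Membership in the ideals of a specialization. -/
def JJ (T : TConf ℂ k r) (p : Nat.Primes) : Crv k r → ℕ → RK (Fp p) → Prop
  | Sum.inl i, m, x => lin (sp p (T.f i)) ^ m ∣ x
  | Sum.inr q, m, x => Polynomial.X ^ m ∣ phiG (sp p (T.pt q)) (sp p (T.kap q)) x

theorem JJ_of_J (T : TConf ℂ k r) (D : Crv k r) (m : ℕ) (X : MvPolynomial (Fin 3) RR)
    (h : Lm X ∈ T.J D m) : ∀ᶠ p in (UU : Filter Nat.Primes), JJ T p D m (Ev p X) := by
  rcases D with l | q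
  · rw [TConf.mem_J_inl] at h
    obtain ⟨K, hK⟩ := h
    obtain ⟨Y, rfl⟩ := Lm_surjective K
    have h1 : Lm (X - linR (T.f l) ^ m * Y) = 0 := by
      rw [map_sub, map_mul, map_pow, Lm_linR, hK]
      exact sub_self _
    filter_upwards [Lm_eq_zero.mp h1] with p hp
    rw [map_sub, map_mul, map_pow, Ev_linR, sub_eq_zero] at hp
    exact ⟨_, hp⟩
  · rw [TConf.mem_J_inr, Polynomial.X_pow_dvd_iff] at h
    have h1 : ∀ j ∈ Finset.range m, ∀ᶠ p in (UU : Filter Nat.Primes),
        Ev p ((phiR (T.pt q) (T.kap q) X).coeff j) = 0 := by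
      intro j hj
      rw [← Lm_eq_zero, ← Polynomial.coeff_map, map_phiR_Lm]
      exact h j (Finset.mem_range.mp hj)
    filter_upwards [(Filter.eventually_all_finset _).mpr h1] with p hp
    change Polynomial.X ^ m ∣ _
    rw [Polynomial.X_pow_dvd_iff]
    intro j hj
    rw [← map_phiR_Ev, Polynomial.coeff_map]
    exact hp j (Finset.mem_range.mpr hj)

theorem J_of_JJ (T : TConf ℂ k r) (D : Crv k r) (m : ℕ) {e : ℕ} (X : MvPolynomial (Fin 3) RR)
    (hX : ∀ p, (Ev p X).IsHomogeneous e)
    (h : ∀ᶠ p in (UU : Filter Nat.Primes), JJ T p D m (Ev p X)) : Lm X ∈ T.J D m := by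
  classical
  rcases D with l | q
  · have h0 : ∀ᶠ p in (UU : Filter Nat.Primes), lin (sp p (T.f l)) ≠ 0 := by
      have h1 : Lm (linR (T.f l)) ≠ 0 := by rw [Lm_linR]; exact T.L_ne_zero l
      have h2 := Ultrafilter.eventually_not.mpr (fun h3 => h1 (Lm_eq_zero.mpr h3))
      filter_upwards [h2] with p hp
      rwa [← Ev_linR]
    have h1 : ∀ p, ∃ K : RK (Fp p), K.IsHomogeneous (e - m) ∧
        (lin (sp p (T.f l)) ≠ 0 → JJ T p (Sum.inl l) m (Ev p X) →
          Ev p X = lin (sp p (T.f l)) ^ m * K) := by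
      intro p
      by_cases h2 : lin (sp p (T.f l)) ≠ 0 ∧ JJ T p (Sum.inl l) m (Ev p X)
      · obtain ⟨K, hK⟩ := h2.2
        by_cases hK0 : K = 0
        · exact ⟨K, by rw [hK0]; exact isHomogeneous_zero _ _ _, fun _ _ => hK⟩
        · have h3 : (lin (sp p (T.f l)) ^ m).IsHomogeneous m := by
            have := (lin_isHomogeneous (sp p (T.f l))).pow m
            rwa [one_mul] at this
          have h4 := hX p
          rw [hK] at h4
          exact ⟨K, (hom_of_mul h3 (pow_ne_zero _ h2.1) hK0 h4).2, fun _ _ => hK⟩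
      · exact ⟨0, isHomogeneous_zero _ _ _, fun h3 h4 => absurd ⟨h3, h4⟩ h2⟩
    choose K hK1 hK2 using h1
    have h3 : Lm (X - linR (T.f l) ^ m * asm (e - m) K) = 0 := by
      rw [Lm_eq_zero]
      filter_upwards [h0, h] with p h4 h5
      rw [map_sub, map_mul, map_pow, Ev_linR, Ev_asm hK1, sub_eq_zero]
      exact hK2 p h4 h5
    rw [map_sub, map_mul, map_pow, Lm_linR, sub_eq_zero] at h3
    rw [TConf.mem_J_inl]
    exact ⟨_, h3⟩
  · rw [TConf.mem_J_inr, Polynomial.X_pow_dvd_iff]
    intro j hj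
    have h1 : Lm ((phiR (T.pt q) (T.kap q) X).coeff j) = 0 := by
      rw [Lm_eq_zero]
      filter_upwards [h] with p hp
      change Polynomial.X ^ m ∣ _ at hp
      rw [Polynomial.X_pow_dvd_iff] at hp
      rw [← Polynomial.coeff_map, map_phiR_Ev]
      exact hp j hj
    rw [← Polynomial.coeff_map, map_phiR_Lm] at h1
    exact h1

end

end Pool.Agent.H94_gen
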