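import Pool.Agent.H94_gen.Transfer

/-!
# Transfer of vanishing, and pencil vanishing over the complex numbers
-/

namespace Pool.Agent.H94_gen

open MvPolynomial

noncomputable section

set_option linter.unusedSectionVars false

variable {k r : ℕ}

/-- Parameters of nodes for a specialization. -/
def tnP (T : TConf ℂ k r) (p : Nat.Primes) (i : Fin k) : Crv k r → Fp p
  | Sum.inl j => -(sp p (T.f j) ⬝ᵥ sp p (T.pa i)) / (sp p (T.f j) ⬝ᵥ sp p (T.pb i))
  | Sum.inr q => (sp p (T.dv i) ⬝ᵥ sp p (T.pt q)) / (sp p (T.du i) ⬝ᵥ sp p (T.pt q))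

theorem ulim_tnP (T : TConf ℂ k r) (i : Fin k) (D : Crv k r) :
    ulim (fun p => tnP T p i D) = T.tn i D := by
  rcases D with j | q
  · have h1 := ulim_div (-(fun p => sp p (T.f j) ⬝ᵥ sp p (T.pa i)))
      (fun p => sp p (T.f j) ⬝ᵥ sp p (T.pb i))
    rw [map_neg, ulim_dot, ulim_dot] at h1
    exact h1
  · have h1 := ulim_div (fun p => sp p (T.dv i) ⬝ᵥ sp p (T.pt q))
      (fun p => sp p (T.du i) ⬝ᵥ sp p (T.pt q))
    rw [ulim_dot, ulim_dot] at h1
    exact h1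

/-- The conditions for a specialization to be a configuration. -/
structure Sp (T : TConf ℂ k r) (p : Nat.Primes) : Prop where
  mem_tri : ∀ i q, i ∈ T.tri q ↔ sp p (T.f i) ⬝ᵥ sp p (T.pt q) = 0
  kap_pt : ∀ q, sp p (T.kap q) ⬝ᵥ sp p (T.pt q) = 1
  decomp : ∀ i j, (Pi.single j 1 : Fin 3 → Fp p) =
    (sp p (T.pc i) j) • sp p (T.f i) + (sp p (T.pa i) j) • sp p (T.du i) +
      (sp p (T.pb i) j) • sp p (T.dv i)
  fa : ∀ i, sp p (T.f i) ⬝ᵥ sp p (T.pa i) = 0
  fb : ∀ i, sp p (T.f i) ⬝ᵥ sp p (T.pb i) = 0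
  ua : ∀ i, sp p (T.du i) ⬝ᵥ sp p (T.pa i) = 1
  ub : ∀ i, sp p (T.du i) ⬝ᵥ sp p (T.pb i) = 0
  va : ∀ i, sp p (T.dv i) ⬝ᵥ sp p (T.pa i) = 0
  vb : ∀ i, sp p (T.dv i) ⬝ᵥ sp p (T.pb i) = 1
  fc : ∀ i, sp p (T.f i) ⬝ᵥ sp p (T.pc i) = 1
  fjb : ∀ i j, i ≠ j → sp p (T.f j) ⬝ᵥ sp p (T.pb i) ≠ 0
  du_pt : ∀ i q, i ∈ T.tri q → sp p (T.du i) ⬝ᵥ sp p (T.pt q) ≠ 0
  good : ∀ i D D', T.meet (Sum.inl i) D → T.meet (Sum.inl i) D' →
    tnP T p i D = tnP T p i D' → D = D'

theorem ev_dot0 {v w : Fin 3 → ℂ} (h : v ⬝ᵥ w = 0) :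
    ∀ᶠ p in (UU : Filter Nat.Primes), sp p v ⬝ᵥ sp p w = 0 := by
  rw [← ulim_dot] at h
  exact ulim_eq_zero.mp h

theorem ev_dot1 {v w : Fin 3 → ℂ} (h : v ⬝ᵥ w = 1) :
    ∀ᶠ p in (UU : Filter Nat.Primes), sp p v ⬝ᵥ sp p w = 1 := by
  rw [← ulim_dot, ← map_one ulim] at h
  exact ulim_eq.mp h

theorem ev_dot_ne {v w : Fin 3 → ℂ} (h : v ⬝ᵥ w ≠ 0) :
    ∀ᶠ p in (UU : Filter Nat.Primes), sp p v ⬝ᵥ sp p w ≠ 0 := by
  rw [← ulim_dot] at h
  exact ulim_ne_zero.mp h

theorem ev_Sp (T : TConf ℂ k r) (hok : T.Ok) :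
    ∀ᶠ p in (UU : Filter Nat.Primes), Sp T p := by
  have h1 : ∀ᶠ p in (UU : Filter Nat.Primes), ∀ i q,
      i ∈ T.tri q ↔ sp p (T.f i) ⬝ᵥ sp p (T.pt q) = 0 := by
    rw [Filter.eventually_all]; intro i
    rw [Filter.eventually_all]; intro q
    by_cases h : i ∈ T.tri q
    · filter_upwards [ev_dot0 ((T.mem_tri i q).mp h)] with p hp
      exact ⟨fun _ => hp, fun _ => h⟩
    · have h' : T.f i ⬝ᵥ T.pt q ≠ 0 := fun h0 => h ((T.mem_tri i q).mpr h0)
      filter_upwards [ev_dot_ne h'] with p hp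
      exact ⟨fun h2 => absurd h2 h, fun h2 => absurd h2 hp⟩
  have h2 : ∀ᶠ p in (UU : Filter Nat.Primes), ∀ q,
      sp p (T.kap q) ⬝ᵥ sp p (T.pt q) = 1 :=
    Filter.eventually_all.mpr fun q => ev_dot1 (T.kap_pt q)
  have h3 : ∀ᶠ p in (UU : Filter Nat.Primes), ∀ i j, (Pi.single j 1 : Fin 3 → Fp p) =
    (sp p (T.pc i) j) • sp p (T.f i) + (sp p (T.pa i) j) • sp p (T.du i) +
      (sp p (T.pb i) j) • sp p (T.dv i) := by
    rw [Filter.eventually_all]; intro i
    rw [Filter.eventually_all]; intro j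
    have h4 : ∀ m : Fin 3, ∀ᶠ p in (UU : Filter Nat.Primes), (Pi.single j 1 : Fin 3 → Fp p) m =
        ((sp p (T.pc i) j) • sp p (T.f i) + (sp p (T.pa i) j) • sp p (T.du i) +
          (sp p (T.pb i) j) • sp p (T.dv i)) m := by
      intro m
      have h5 := congrFun (T.decomp i j) m
      have h6 : ulim (fun p => (Pi.single j 1 : Fin 3 → Fp p) m) =
          ulim (lft (T.pc i j) * lft (T.f i m) + lft (T.pa i j) * lft (T.du i m) +
            lft (T.pb i j) * lft (T.dv i m)) := by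
        rw [map_add, map_add, map_mul, map_mul, map_mul]
        simp only [ulim_lft]
        have h7 : ulim (fun p => (Pi.single j 1 : Fin 3 → Fp p) m) =
            (Pi.single j 1 : Fin 3 → ℂ) m := by
          by_cases hm : m = j
          · subst hm
            have : (fun p => (Pi.single m 1 : Fin 3 → Fp p) m) = (1 : RR) := by
              funext p; simp
            rw [this, map_one]; simp
          · have : (fun p => (Pi.single j 1 : Fin 3 → Fp p) m) = (0 : RR) := by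
              funext p; simp [hm]
            rw [this, map_zero]; simp [hm]
        rw [h7, h5]
        simp only [Pi.add_apply, Pi.smul_apply, smul_eq_mul]
      filter_upwards [ulim_eq.mp h6] with p hp
      exact hp
    filter_upwards [Filter.eventually_all.mpr h4] with p hp
    exact funext hp
  have h4 : ∀ᶠ p in (UU : Filter Nat.Primes), ∀ i, sp p (T.f i) ⬝ᵥ sp p (T.pa i) = 0 :=
    Filter.eventually_all.mpr fun i => ev_dot0 (T.fa i)
  have h5 : ∀ᶠ p in (UU : Filter Nat.Primes), ∀ i, sp p (T.f i) ⬝ᵥ sp p (T.pb i) = 0 :=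
    Filter.eventually_all.mpr fun i => ev_dot0 (T.fb i)
  have h6 : ∀ᶠ p in (UU : Filter Nat.Primes), ∀ i, sp p (T.du i) ⬝ᵥ sp p (T.pa i) = 1 :=
    Filter.eventually_all.mpr fun i => ev_dot1 (T.ua i)
  have h7 : ∀ᶠ p in (UU : Filter Nat.Primes), ∀ i, sp p (T.du i) ⬝ᵥ sp p (T.pb i) = 0 :=
    Filter.eventually_all.mpr fun i => ev_dot0 (T.ub i)
  have h8 : ∀ᶠ p in (UU : Filter Nat.Primes), ∀ i, sp p (T.dv i) ⬝ᵥ sp p (T.pa i) = 0 :=
    Filter.eventually_all.mpr fun i => ev_dot0 (T.va i)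
  have h9 : ∀ᶠ p in (UU : Filter Nat.Primes), ∀ i, sp p (T.dv i) ⬝ᵥ sp p (T.pb i) = 1 :=
    Filter.eventually_all.mpr fun i => ev_dot1 (T.vb i)
  have h10 : ∀ᶠ p in (UU : Filter Nat.Primes), ∀ i, sp p (T.f i) ⬝ᵥ sp p (T.pc i) = 1 :=
    Filter.eventually_all.mpr fun i => ev_dot1 (T.fc i)
  have h11 : ∀ᶠ p in (UU : Filter Nat.Primes), ∀ i j, i ≠ j →
      sp p (T.f j) ⬝ᵥ sp p (T.pb i) ≠ 0 := by
    rw [Filter.eventually_all]; intro i
    rw [Filter.eventually_all]; intro j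
    by_cases hij : i = j
    · exact Filter.Eventually.of_forall fun p h => absurd hij h
    · filter_upwards [ev_dot_ne (T.fjb i j hij)] with p hp _
      exact hp
  have h12 : ∀ᶠ p in (UU : Filter Nat.Primes), ∀ i q, i ∈ T.tri q →
      sp p (T.du i) ⬝ᵥ sp p (T.pt q) ≠ 0 := by
    rw [Filter.eventually_all]; intro i
    rw [Filter.eventually_all]; intro q
    by_cases h : i ∈ T.tri q
    · filter_upwards [ev_dot_ne (T.du_pt i q h)] with p hp _
      exact hp
    · exact Filter.Eventually.of_forall fun p h' => absurd h' h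
  have h13 : ∀ᶠ p in (UU : Filter Nat.Primes), ∀ i D D', T.meet (Sum.inl i) D →
      T.meet (Sum.inl i) D' → tnP T p i D = tnP T p i D' → D = D' := by
    rw [Filter.eventually_all]; intro i
    rw [Filter.eventually_all]; intro D
    rw [Filter.eventually_all]; intro D'
    by_cases h : T.meet (Sum.inl i) D ∧ T.meet (Sum.inl i) D' ∧ D ≠ D'
    · have h14 : ulim ((fun p => tnP T p i D) - (fun p => tnP T p i D')) ≠ 0 := by
        rw [map_sub, ulim_tnP, ulim_tnP, sub_ne_zero]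
        exact fun h0 => h.2.2 (hok.good i D D' h.1 h.2.1 h0)
      filter_upwards [ulim_ne_zero.mp h14] with p hp _ _ h0
      exact absurd (sub_eq_zero.mpr h0) hp
    · refine Filter.Eventually.of_forall fun p h1 h2 _ => ?_
      by_contra hne
      exact h ⟨h1, h2, hne⟩
  filter_upwards [h1, h2, h3, h4, h5, h6, h7, h8, h9, h10, h11, h12, h13] with
    p h1 h2 h3 h4 h5 h6 h7 h8 h9 h10 h11 h12 h13
  exact ⟨h1, h2, h3, h4, h5, h6, h7, h8, h9, h10, h11, h12, h13⟩

/-- The specialization. -/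
def Sp.conf {T : TConf ℂ k r} {p : Nat.Primes} (h : Sp T p) : TConf (Fp p) k r where
  f := fun i => sp p (T.f i)
  tri := T.tri
  pt := fun q => sp p (T.pt q)
  kap := fun q => sp p (T.kap q)
  pa := fun i => sp p (T.pa i)
  pb := fun i => sp p (T.pb i)
  pc := fun i => sp p (T.pc i)
  du := fun i => sp p (T.du i)
  dv := fun i => sp p (T.dv i)
  mem_tri := h.mem_tri
  kap_pt := h.kap_pt
  decomp := h.decomp
  fa := h.fa
  fb := h.fb
  ua := h.ua
  ub := h.ub
  va := h.va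
  vb := h.vb
  fc := h.fc
  fjb := h.fjb
  du_pt := h.du_pt
  cnt := T.cnt

theorem Sp.meet_iff {T : TConf ℂ k r} {p : Nat.Primes} (h : Sp T p) (D D' : Crv k r) :
    h.conf.meet D D' ↔ T.meet D D' := by
  rcases D with i | q <;> rcases D' with j | q' <;> exact Iff.rfl

theorem Sp.ok {T : TConf ℂ k r} {p : Nat.Primes} (h : Sp T p) (hok : T.Ok) : h.conf.Ok := by
  refine ⟨?_, hok.ne⟩
  intro i D D' h1 h2 h3
  rw [h.meet_iff] at h1 h2
  refine h.good i D D' h1 h2 ?_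
  rcases D with j | q <;> rcases D' with j' | q' <;> exact h3

theorem Sp.J_iff {T : TConf ℂ k r} {p : Nat.Primes} (h : Sp T p) (D : Crv k r) (m : ℕ)
    (x : RK (Fp p)) : x ∈ h.conf.J D m ↔ JJ T p D m x := by
  rcases D with i | q
  · rw [TConf.mem_J_inl]; exact Iff.rfl
  · rw [TConf.mem_J_inr]; exact Iff.rfl

theorem LBV_transfer (T : TConf ℂ k r) (hok : T.Ok) {e : ℕ} {A : Crv k r → ℕ}
    (h : ∀ᶠ p in (UU : Filter Nat.Primes), ∀ S : TConf (Fp p) k r, S.tri = T.tri → S.Ok →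
      S.LBV e A) : T.LBV e A := by
  intro G hsym hhom hG
  have h1 : ∀ᶠ p in (UU : Filter Nat.Primes), ∀ D D' D'', T.meet D D' → T.meet D D'' →
      JJ T p D (A D) (Ev p (liftP (G D D') - liftP (G D D''))) := by
    rw [Filter.eventually_all]; intro D
    rw [Filter.eventually_all]; intro D'
    rw [Filter.eventually_all]; intro D''
    by_cases h2 : T.meet D D' ∧ T.meet D D''
    · have h3 := JJ_of_J T D (A D) (liftP (G D D') - liftP (G D D'')) (by
        rw [map_sub, Lm_liftP, Lm_liftP]; exact hG D D' D'' h2.1 h2.2)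
      filter_upwards [h3] with p hp _ _
      exact hp
    · exact Filter.Eventually.of_forall fun p h3 h4 => absurd ⟨h3, h4⟩ h2
  have h2 : ∀ᶠ p in (UU : Filter Nat.Primes), ∃ P : RK (Fp p), P.IsHomogeneous e ∧
      ∀ D D', T.meet D D' → JJ T p D (A D) (P - Ev p (liftP (G D D'))) := by
    filter_upwards [h, h1, ev_Sp T hok] with p h3 h4 h5
    obtain ⟨P, hP1, hP2⟩ := h3 h5.conf rfl (h5.ok hok) (fun D D' => Ev p (liftP (G D D')))
      (fun D D' hD => by
        rw [h5.meet_iff] at hD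
        rw [hsym D D' hD])
      (fun D D' => Ev_liftP_hom (hhom D D') p)
      (fun D D' D'' h6 h7 => by
        rw [h5.meet_iff] at h6 h7
        rw [h5.J_iff, ← map_sub]
        exact h4 D D' D'' h6 h7)
    refine ⟨P, hP1, fun D D' hD => ?_⟩
    rw [← h5.J_iff]
    exact hP2 D D' ((h5.meet_iff D D').mpr hD)
  have h3 : ∀ p, ∃ P : RK (Fp p), P.IsHomogeneous e ∧
      ((∃ P : RK (Fp p), P.IsHomogeneous e ∧
      ∀ D D', T.meet D D' → JJ T p D (A D) (P - Ev p (liftP (G D D')))) →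
      ∀ D D', T.meet D D' → JJ T p D (A D) (P - Ev p (liftP (G D D')))) := by
    intro p
    by_cases h4 : ∃ P : RK (Fp p), P.IsHomogeneous e ∧
      ∀ D D', T.meet D D' → JJ T p D (A D) (P - Ev p (liftP (G D D')))
    · obtain ⟨P, h5, h6⟩ := h4
      exact ⟨P, h5, fun _ => h6⟩
    · exact ⟨0, isHomogeneous_zero _ _ _, fun h5 => absurd h5 h4⟩
  choose P hP1 hP2 using h3
  refine ⟨Lm (asm e P), Lm_asm_hom e P, fun D D' hD => ?_⟩
  have h4 := J_of_JJ T D (A D) (e := e) (asm e P - liftP (G D D')) (fun p => by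
    rw [map_sub, Ev_asm hP1]
    exact (hP1 p).sub (Ev_liftP_hom (hhom D D') p)) (by
    filter_upwards [h2] with p hp
    rw [map_sub, Ev_asm hP1]
    exact hP2 p hp D D' hD)
  rwa [map_sub, Lm_liftP] at h4

/-- Pencil vanishing over the complex numbers. -/
theorem pv_complex (T : TConf ℂ k r) (hok : T.Ok) (hk : 2 ≤ k)
    {n d : ℕ} {a : Fin k → ℕ} (ha : ∀ l, a l < n) (hd : ∑ l, a l = d * n) (q : Fin r)
    (h3 : 3 ≤ (T.tri q).card) (hn : (T.tri q).card < n) (hnl : ∑ l ∈ T.tri q, a l < d * n)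
    {u : ℕ} {ε : Fin r → ℕ}
    (hu : u + 2 + ((T.tri q).filter fun l => a l + 1 = n).card = d + (T.tri q).card)
    (hεq : ε q + 2 + ((T.tri q).filter fun l => a l + 1 = n).card =
      (∑ l ∈ T.tri q, a l) / n + (T.tri q).card)
    (hεx : ∀ x, x ≠ q → ε x = (∑ l ∈ T.tri x, T.bb n a q l) / n) :
    T.LBVa (-(u : ℤ)) ε := by
  intro A e he hq
  refine LBV_transfer T hok ?_
  filter_upwards [eventually_large (n * (2 * ∑ x, (T.tri x).card + k + 2))] with p hp S hS hSok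
  have hbb : ∀ l, S.bb n a q l = T.bb n a q l := by
    intro l
    rw [TConf.bb, TConf.bb, hS]
  have h := S.pv_charp hSok hk (p : ℕ) ha hd q (by rw [hS]; exact h3) (by rw [hS]; exact hn)
    (by rw [hS]; exact hnl) (by rw [hS]; exact hp) (u := u) (ε := ε) (by rw [hS]; exact hu)
    (by rw [hS]; exact hεq) (fun x hx => by
      rw [hεx x hx, hS]
      congr 1
      exact Finset.sum_congr rfl fun l _ => (hbb l).symm)
  exact (TConf.LBVa_of_LBVc hk h) A e he (fun x => by rw [hS]; exact hq x)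

end

end Pool.Agent.H94_gen
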