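import Pool.Agent.H94_gen.Rigid

/-!
# The trivial character
-/

namespace Pool.Agent.H94_gen

open MvPolynomial

noncomputable section

set_option linter.unusedSectionVars false

/-- Linear forms are the homogeneous polynomials of degree one. -/
theorem exists_lin {f : RK ℂ} (hf : f.IsHomogeneous 1) : ∃ v, f = lin v := by
  have h1 : f ∈ homogeneousSubmodule (Fin 3) ℂ 1 := hf
  rw [homogeneousSubmodule_one_eq_span_X] at h1
  refine Submodule.span_induction (p := fun f _ => ∃ v, f = lin v) ?_ ?_ ?_ ?_ h1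
  · rintro _ ⟨j, rfl⟩
    exact ⟨Pi.single j 1, by simp [lin, Pi.single_apply]⟩
  · exact ⟨0, by simp [lin]⟩
  · rintro _ _ _ _ ⟨v, rfl⟩ ⟨w, rfl⟩
    exact ⟨v + w, (lin_add v w).symm⟩
  · rintro c _ _ ⟨v, rfl⟩
    exact ⟨c • v, by rw [lin_smul, smul_eq_C_mul]⟩

theorem lin_inj {v w : Fin 3 → ℂ} (h : lin v = lin w) : v = w := by
  funext j
  have h1 := congrArg (eval (Pi.single j 1)) h
  rw [eval_lin, eval_lin, dotProduct_single, dotProduct_single] at h1
  simpa using h1

/-- Duality: a function on a set of lines that kills the linear relations is given by a point. -/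
theorem exists_point {k : ℕ} (f : Fin k → Fin 3 → ℂ) (S : Finset (Fin k)) (φ : Fin k → ℂ)
    (h : ∀ c : Fin k → ℂ, (∀ i, i ∉ S → c i = 0) → ∑ i, c i • f i = 0 → ∑ i, c i * φ i = 0) :
    ∃ w : Fin 3 → ℂ, ∀ i ∈ S, φ i = f i ⬝ᵥ w := by
  classical
  let F : (Fin k → ℂ) →ₗ[ℂ] (Fin 3 → ℂ) := ∑ i ∈ S, (LinearMap.proj i).smulRight (f i)
  let ψ : (Fin k → ℂ) →ₗ[ℂ] ℂ := ∑ i ∈ S, φ i • LinearMap.proj i
  have hF : ∀ c, F c = ∑ i ∈ S, c i • f i := by
    intro c
    simp [F, LinearMap.sum_apply]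
  have hψ : ∀ c, ψ c = ∑ i ∈ S, c i * φ i := by
    intro c
    simp [ψ, LinearMap.sum_apply, mul_comm]
  have h1 : ψ ∈ LinearMap.range F.dualMap := by
    rw [LinearMap.range_dualMap_eq_dualAnnihilator_ker, Submodule.mem_dualAnnihilator]
    intro c hc
    rw [LinearMap.mem_ker, hF] at hc
    rw [hψ]
    have e1 : ∑ i, (if i ∈ S then c i else 0) • f i = ∑ i ∈ S, c i • f i := by
      simp only [ite_smul, zero_smul, Finset.sum_ite_mem, Finset.univ_inter]
    have e2 : ∑ i, (if i ∈ S then c i else 0) * φ i = ∑ i ∈ S, c i * φ i := by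
      simp only [ite_mul, zero_mul, Finset.sum_ite_mem, Finset.univ_inter]
    have h2 := h (fun i => if i ∈ S then c i else 0) (fun i hi => if_neg hi)
      (by rw [e1]; exact hc)
    rw [← e2]
    exact h2
  obtain ⟨θ, hθ⟩ := h1
  refine ⟨fun j => θ (Pi.single j 1), fun i hi => ?_⟩
  have h2 : ψ (Pi.single i 1) = φ i := by
    rw [hψ, Finset.sum_eq_single i]
    · simp
    · intro j _ hji
      rw [Pi.single_eq_of_ne hji, zero_mul]
    · intro h; exact absurd hi h
  have h3 : F (Pi.single i 1) = f i := by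
    rw [hF, Finset.sum_eq_single i]
    · simp
    · intro j _ hji
      rw [Pi.single_eq_of_ne hji, zero_smul]
    · intro h; exact absurd hi h
  rw [← h2, ← hθ, LinearMap.dualMap_apply, h3]
  have h4 : f i = ∑ j, f i j • (Pi.single j 1 : Fin 3 → ℂ) := by
    funext m
    simp [Finset.sum_apply, Pi.single_apply]
  conv_lhs => rw [h4]
  rw [map_sum, dotProduct]
  refine Finset.sum_congr rfl fun j _ => ?_
  rw [map_smul, smul_eq_mul]

namespace TConf

variable {k r : ℕ} {T : TConf ℂ k r}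

/-- Infinitesimal rigidity in terms of relations. -/
theorem IR.rel (hIR : T.IR) (g : Fin k → Fin 3 → ℂ)
    (h : ∀ q, ∀ c : Fin k → ℂ, (∀ i, i ∉ T.tri q → c i = 0) → ∑ i, c i • T.f i = 0 →
      ∑ i, c i * (g i ⬝ᵥ T.pt q) = 0) :
    ∃ (A : Matrix (Fin 3) (Fin 3) ℂ) (c : Fin k → ℂ), ∀ i, g i = A.mulVec (T.f i) + c i • T.f i := by
  refine hIR g fun q => ?_
  obtain ⟨w, hw⟩ := exists_point T.f (T.tri q) (fun i => g i ⬝ᵥ T.pt q) (h q)
  refine ⟨-w, fun i hi => ?_⟩
  rw [hw i hi, dotProduct_neg, add_neg_cancel]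

theorem eval_of_mem_J {q : Fin r} {f : RK ℂ} (h : f ∈ T.J (Sum.inr q) 1) :
    eval (T.pt q) f = 0 := by
  rw [TConf.mem_J_inr_iff, pow_one] at h
  have h1 : T.Iq q ≤ RingHom.ker (eval (T.pt q)) := by
    rw [TConf.Iq, Ideal.span_le]
    rintro _ ⟨j, rfl⟩
    rw [SetLike.mem_coe, RingHom.mem_ker, TConf.y, map_sub, map_mul, eval_X, eval_C, TConf.kp,
      eval_lin, T.kap_pt]
    ring
  exact h1 h

theorem pow_cancel {D : Crv k r} (s : Finset (Fin k)) (w : Fin k → ℕ) : ∀ {m : ℕ} {x : RK ℂ},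
    (∏ c ∈ s, T.L c ^ w c) * x ∈ T.J D (m + ∑ c ∈ s, w c * T.val D c) → x ∈ T.J D m := by
  classical
  have key2 : ∀ (j : Fin k) (t m : ℕ) (x : RK ℂ), T.L j ^ t * x ∈ T.J D (m + t * T.val D j) →
      x ∈ T.J D m := by
    intro j t
    induction t with
    | zero => intro m x hx; simpa using hx
    | succ t ih2 =>
      intro m x hx
      refine ih2 m x (T.cancel (j := j) ?_)
      rw [pow_succ', mul_assoc, Nat.succ_mul, ← add_assoc] at hx
      exact hx
  induction s using Finset.induction_on with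
  | empty => intro m x hx; simpa using hx
  | insert j s hj ih =>
    intro m x hx
    rw [Finset.prod_insert hj, Finset.sum_insert hj, mul_assoc] at hx
    refine ih (key2 j (w j) _ _ ?_)
    have : m + ∑ c ∈ s, w c * T.val D c + w j * T.val D j =
      m + (w j * T.val D j + ∑ c ∈ s, w c * T.val D c) := by ring
    rw [this]
    exact hx

theorem sum_val (N : ℕ) (D : Crv k r) : ∑ l, N * T.val D l = T.sz D * N := by
  rw [← Finset.mul_sum, sz, mul_comm]

theorem gb_zero {n N : ℕ} (hn : 2 ≤ n) (i j : Fin k) (D : Crv k r) :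
    T.gb n N (fun _ => 0) i j D = T.sz D * N := by
  have h1 : T.ordN D (fun _ => 0) = 0 := by simp [ordN]
  rw [gb, h1, zero_add]
  have : (if T.val D i = T.val D j then 0 else 1) / n = 0 := by
    apply Nat.div_eq_of_lt
    split_ifs <;> omega
  rw [this, Nat.sub_zero]

/-- The cocycle equations for the trivial character. -/
theorem solve_zero (hF : T.Full) (hIR : T.IR) (hk : 2 ≤ k) {n N : ℕ} (hn : 2 ≤ n)
    {G : Crv k r → Crv k r → Fin k → RK ℂ} (hG : T.GData n N 0 (fun _ => 0) G) :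
    ∃ P, T.GSol n N 0 (fun _ => 0) G P := by
  have m0 : Fin k := ⟨0, by omega⟩
  have hL : T.LBV (k * N) (fun D => T.sz D * N) := by
    refine LBVa_of_LBVc hk (T.LBVc_zero hF.ok 0) _ _ ?_ ?_
    · simp [sz_inl]
    · intro q
      simp [sz_inl, sz_inr]
  have hhom : ∀ D D' i, (G D D' i).IsHomogeneous (k * N) := hG.hom
  have hsolve : ∀ i, ∃ P : RK ℂ, P.IsHomogeneous (k * N) ∧ ∀ D D', T.meet D D' →
      P - (G D D' i - G D D' m0) ∈ T.J D (T.sz D * N) := by
    intro i
    refine hL (fun D D' => G D D' i - G D D' m0) (fun D D' hD => ?_) (fun D D' => ?_)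
      (fun D D' D'' h1 h2 => ?_)
    · change G D D' i - G D D' m0 = G D' D i - G D' D m0
      rw [hG.sym D D' hD]
    · exact (hhom D D' i).sub (hhom D D' m0)
    · have := hG.ord D D' D'' i m0 h1 h2
      rwa [gb_zero hn] at this
  choose P0 hP0h hP0 using hsolve
  set Q : RK ℂ := ∏ l, T.L l ^ N with hQ
  have hQ0 : Q ≠ 0 := Finset.prod_ne_zero_iff.mpr fun l _ => pow_ne_zero _ (T.L_ne_zero l)
  have hQh : Q.IsHomogeneous (k * N) := by
    have : (∏ l, T.L l ^ N).IsHomogeneous (∑ _l : Fin k, N) := by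
      refine IsHomogeneous.prod _ _ _ fun l _ => ?_
      have := (T.L_hom l).pow N
      rwa [one_mul] at this
    simpa using this
  have hQJ : ∀ D, Q ∈ T.J D (T.sz D * N) := by
    intro D
    have h1 := T.prod_L_mem_J D (fun _ => N) Finset.univ
    rwa [sum_val] at h1
  -- the defect
  let δ : (Fin k → ℂ) → RK ℂ := fun c => ∑ i, C (c i) * (T.L i * P0 i)
  have hδ : ∀ c : Fin k → ℂ, ∑ i, c i • T.f i = 0 → ∀ D D', T.meet D D' →
      δ c = ∑ i, C (c i) * (T.L i * (P0 i - (G D D' i - G D D' m0))) := by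
    intro c hc D D' _
    have h1 := hG.rel D D' c hc
    have h2 := T.C_sum_L_eq_zero hc
    have h3 : ∑ i, C (c i) * (T.L i * (P0 i - (G D D' i - G D D' m0))) =
        δ c - ∑ i, C (c i) * (T.L i * G D D' i) + G D D' m0 * ∑ i, C (c i) * T.L i := by
      rw [Finset.mul_sum, ← Finset.sum_sub_distrib, ← Finset.sum_add_distrib]
      exact Finset.sum_congr rfl fun i _ => by ring
    rw [h3, h1, h2]; ring
  have hδh : ∀ c, (δ c).IsHomogeneous (1 + k * N) := by
    intro c
    refine IsHomogeneous.sum _ _ _ fun i _ => ?_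
    have := (isHomogeneous_C (Fin 3) (c i)).mul ((T.L_hom i).mul (hP0h i))
    rwa [zero_add] at this
  have hδl : ∀ c : Fin k → ℂ, ∑ i, c i • T.f i = 0 → ∀ l, T.L l ^ N ∣ δ c := by
    intro c hc l
    obtain ⟨D', hD'⟩ := T.exists_node hk l
    rw [← TConf.mem_J_inl, hδ c hc _ D' hD']
    refine sum_mem fun i _ => ?_
    have h1 := hP0 i _ _ hD'
    rw [sz_inl, one_mul] at h1
    exact Ideal.mul_mem_left _ _ (Ideal.mul_mem_left _ _ h1)
  have hδq : ∀ (q : Fin r) (c : Fin k → ℂ), (∀ i, i ∉ T.tri q → c i = 0) →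
      ∑ i, c i • T.f i = 0 → δ c ∈ T.J (Sum.inr q) (1 + T.sz (Sum.inr q) * N) := by
    intro q c hcq hc
    obtain ⟨i1, hi1⟩ := hF.ok.ne q
    have hD' : T.meet (Sum.inr q) (Sum.inl i1) := hi1
    rw [hδ c hc _ _ hD']
    refine sum_mem fun i _ => ?_
    by_cases hi : i ∈ T.tri q
    · refine Ideal.mul_mem_left _ _ (T.mul_mem_J ?_ (hP0 i _ _ hD'))
      have := T.L_mem_J (Sum.inr q) i
      have h2 : T.val (Sum.inr q) i = 1 := if_pos hi
      rwa [h2] at this
    · rw [hcq i hi]; simp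
  have hf : ∀ c : Fin k → ℂ, ∃ v : Fin 3 → ℂ, ∑ i, c i • T.f i = 0 → δ c = Q * lin v := by
    intro c
    by_cases hc : ∑ i, c i • T.f i = 0
    · obtain ⟨f, hf⟩ := T.prod_L_dvd Finset.univ (fun _ => N) (δ c) (fun l _ => hδl c hc l)
      by_cases hf0 : f = 0
      · refine ⟨0, fun _ => ?_⟩
        rw [hf, hf0]; simp [lin]
      have h1 := hδh c
      rw [hf] at h1
      have h2 := (hom_of_mul hQh hQ0 hf0 h1).2
      have h3 : 1 + k * N - k * N = 1 := by omega
      rw [h3] at h2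
      obtain ⟨v, hv⟩ := exists_lin h2
      exact ⟨v, fun _ => by rw [hf, hv]⟩
    · exact ⟨0, fun h => absurd h hc⟩
  choose v hv using hf
  have hδadd : ∀ c c', δ (c + c') = δ c + δ c' := by
    intro c c'
    simp only [δ]
    rw [← Finset.sum_add_distrib]
    refine Finset.sum_congr rfl fun i _ => ?_
    rw [Pi.add_apply, map_add]; ring
  have hδsmul : ∀ (s : ℂ) c, δ (s • c) = C s * δ c := by
    intro s c
    simp only [δ]
    rw [Finset.mul_sum]
    refine Finset.sum_congr rfl fun i _ => ?_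
    rw [Pi.smul_apply, smul_eq_mul, map_mul]; ring
  -- the relation submodule
  let F : (Fin k → ℂ) →ₗ[ℂ] (Fin 3 → ℂ) := ∑ i, (LinearMap.proj i).smulRight (T.f i)
  have hFc : ∀ c, F c = ∑ i, c i • T.f i := by
    intro c
    simp [F, LinearMap.sum_apply]
  have hker : ∀ c : LinearMap.ker F, ∑ i, (c : Fin k → ℂ) i • T.f i = 0 := by
    intro c
    have := c.2
    rwa [LinearMap.mem_ker, hFc] at this
  let V : LinearMap.ker F →ₗ[ℂ] (Fin 3 → ℂ) :=
    { toFun := fun c => v c
      map_add' := by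
        intro c c'
        apply lin_inj
        apply mul_left_cancel₀ hQ0
        have h1 : ∑ i, ((c + c' : LinearMap.ker F) : Fin k → ℂ) i • T.f i = 0 := hker _
        rw [← hv _ h1, lin_add, mul_add, ← hv _ (hker c), ← hv _ (hker c'), ← hδadd]
        rfl
      map_smul' := by
        intro s c
        apply lin_inj
        apply mul_left_cancel₀ hQ0
        have h1 : ∑ i, ((s • c : LinearMap.ker F) : Fin k → ℂ) i • T.f i = 0 := hker _
        rw [← hv _ h1, RingHom.id_apply, lin_smul, mul_left_comm, ← hv _ (hker c), ← hδsmul]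
        rfl }
  obtain ⟨W, hW⟩ := LinearMap.exists_extend V
  let g : Fin k → Fin 3 → ℂ := fun i => W (Pi.single i 1)
  have hWg : ∀ c : Fin k → ℂ, W c = ∑ i, c i • g i := by
    intro c
    have h4 : c = ∑ j, c j • (Pi.single j 1 : Fin k → ℂ) := by
      funext m
      simp [Finset.sum_apply, Pi.single_apply]
    conv_lhs => rw [h4]
    rw [map_sum]
    exact Finset.sum_congr rfl fun j _ => map_smul _ _ _
  have hvg : ∀ c : Fin k → ℂ, ∑ i, c i • T.f i = 0 → v c = ∑ i, c i • g i := by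
    intro c hc
    have h1 : c ∈ LinearMap.ker F := by rw [LinearMap.mem_ker, hFc]; exact hc
    have h2 := LinearMap.congr_fun hW ⟨c, h1⟩
    rw [← hWg]
    exact h2.symm
  obtain ⟨A, κ, hAκ⟩ := hIR.rel g (fun q c hcq hc => by
    have h1 := hδq q c hcq hc
    rw [hv c hc, ← sum_val] at h1
    have h5 := T.pow_cancel Finset.univ (fun _ => N) h1
    have h6 := T.eval_of_mem_J h5
    rw [eval_lin, hvg c hc, sum_dotProduct] at h6
    rw [← h6]
    exact Finset.sum_congr rfl fun i _ => by rw [smul_dotProduct, smul_eq_mul])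
  have hvκ : ∀ c : Fin k → ℂ, ∑ i, c i • T.f i = 0 → v c = ∑ i, (c i * κ i) • T.f i := by
    intro c hc
    rw [hvg c hc]
    have h1 : A.mulVec (∑ i, c i • T.f i) = 0 := by rw [hc, Matrix.mulVec_zero]
    rw [Matrix.mulVec_sum] at h1
    have h2 : ∑ i, c i • g i = ∑ i, A.mulVec (c i • T.f i) + ∑ i, (c i * κ i) • T.f i := by
      rw [← Finset.sum_add_distrib]
      refine Finset.sum_congr rfl fun i _ => ?_
      rw [hAκ i, Matrix.mulVec_smul]
      module
    rw [h2, h1, zero_add]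
  refine ⟨fun i => P0 i - C (κ i) * Q, ?_, ?_, ?_⟩
  · intro i
    exact (hP0h i).sub (hQh.C_mul (κ i))
  · intro c hc
    have h1 := hv c hc
    rw [hvκ c hc, lin_sum] at h1
    have h2 : ∑ i, C (c i) * (T.L i * (P0 i - C (κ i) * Q)) =
        δ c - Q * ∑ i, C (c i * κ i) * lin (T.f i) := by
      rw [Finset.mul_sum, ← Finset.sum_sub_distrib]
      refine Finset.sum_congr rfl fun i _ => ?_
      rw [L, map_mul]
      ring
    rw [h2, h1, sub_self]
  · intro D D' i j hD
    have h1 : (P0 i - C (κ i) * Q) - (P0 j - C (κ j) * Q) - (G D D' i - G D D' j) =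
        (P0 i - (G D D' i - G D D' m0)) - (P0 j - (G D D' j - G D D' m0)) -
        (C (κ i) - C (κ j)) * Q := by ring
    change (P0 i - C (κ i) * Q) - (P0 j - C (κ j) * Q) - (G D D' i - G D D' j) ∈ _
    rw [h1, gb_zero hn]
    exact sub_mem (sub_mem (hP0 i D D' hD) (hP0 j D D' hD)) (Ideal.mul_mem_left _ _ (hQJ D))

end TConf

end

end Pool.Agent.H94_gen
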